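import Pool.Agent.Helper499.HD.Defs

set_option autoImplicit false

namespace Pool.Agent.Helper499.HD

open Set Metric Topology

variable {X : Type} [MetricSpace X]


theorem chain_inter [CompactSpace X] (c : Set (Set X)) (hc : IsChain (· ⊆ ·) c) (hne : c.Nonempty)
    (h : ∀ K ∈ c, CC K) :
    CC (⋂₀ c) ∧ ∀ U : Set X, IsOpen U → ⋂₀ c ⊆ U → ∃ K ∈ c, K ⊆ U := by
  have hU : ∀ U : Set X, IsOpen U → ⋂₀ c ⊆ U → ∃ K ∈ c, K ⊆ U := by
    intro U hU hcU
    have : Nonempty c := hne.to_subtype
    obtain ⟨K, hK⟩ := exists_subset_nhds_of_compactSpace (V := fun K : c => (K : Set X))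
      (by
        intro K L
        rcases hc.total K.2 L.2 with h' | h'
        · exact ⟨K, subset_rfl, h'⟩
        · exact ⟨L, h', subset_rfl⟩)
      (fun K => (h K K.2).1) (U := U)
      (by
        intro x hx
        apply hU.mem_nhds
        apply hcU
        rw [sInter_eq_iInter]
        exact hx)
    exact ⟨K, K.2, hK⟩
  have hcl : IsClosed (⋂₀ c) := isClosed_sInter (fun K hK => (h K hK).1)
  refine ⟨⟨hcl, ?_, ?_⟩, hU⟩
  · by_contra hne'
    rw [not_nonempty_iff_eq_empty] at hne'
    obtain ⟨K, hK, hKe⟩ := hU ∅ isOpen_empty (by rw [hne'])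
    obtain ⟨z, hz⟩ := (h K hK).2.nonempty
    exact hKe hz
  · rw [isPreconnected_iff_subset_of_fully_disjoint_closed hcl]
    intro u v hu hv huv hd
    obtain ⟨U, V, hUo, hVo, huU, hvV, hUV⟩ := normal_separation hu hv hd
    obtain ⟨K, hK, hKe⟩ := hU (U ∪ V) (hUo.union hVo) (huv.trans (union_subset_union huU hvV))
    rcases (h K hK).2.isPreconnected.subset_or_subset hUo hVo hUV hKe with h1 | h1
    · left
      intro x hx
      rcases huv hx with h2 | h2
      · exact h2
      · exact (disjoint_left.1 hUV (h1 (hx K hK)) (hvV h2)).elim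
    · right
      intro x hx
      rcases huv hx with h2 | h2
      · exact (disjoint_left.1 hUV (huU h2) (h1 (hx K hK))).elim
      · exact h2

end Pool.Agent.Helper499.HD
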