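import Pool.Agent.Helper499.HD.Defs

set_option autoImplicit false

namespace Pool.Agent.Helper499.HD

open Set Metric Topology

variable {X : Type} [MetricSpace X]


theorem bump [CompactSpace X] {K N : Set X} (hK : CC K) (hN : IsOpen N) {x : X} (hx : x ∈ K)
    (hxN : x ∉ N) (hKN : (K ∩ N).Nonempty) :
    ∃ C, C ⊆ K \ N ∧ CC C ∧ x ∈ C ∧ (C ∩ closure N).Nonempty := by
  have hFc : IsClosed (K \ N) := hK.1.sdiff hN
  have hxF : x ∈ K \ N := ⟨hx, hxN⟩
  have hCsub : connectedComponentIn (K \ N) x ⊆ K \ N := connectedComponentIn_subset _ _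
  have hCx : x ∈ connectedComponentIn (K \ N) x := mem_connectedComponentIn hxF
  have hCp : IsPreconnected (connectedComponentIn (K \ N) x) := isPreconnected_connectedComponentIn
  have hCc : IsClosed (connectedComponentIn (K \ N) x) := by
    apply isClosed_of_closure_subset
    apply IsPreconnected.subset_connectedComponentIn hCp.closure (subset_closure hCx)
    exact closure_minimal hCsub hFc
  refine ⟨_, hCsub, ⟨hCc, ⟨⟨x, hCx⟩, hCp⟩⟩, hCx, ?_⟩
  by_contra hne
  rw [Set.not_nonempty_iff_eq_empty] at hne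
  have : CompactSpace (K \ N : Set X) := isCompact_iff_compactSpace.mp hFc.isCompact
  set x0 : (K \ N : Set X) := ⟨x, hxF⟩ with hx0
  let D : Set (K \ N : Set X) := Subtype.val ⁻¹' (closure N)
  have hD : IsClosed D := isClosed_closure.preimage continuous_subtype_val
  have hcomp : connectedComponentIn (K \ N) x = Subtype.val '' connectedComponent x0 := by
    rw [connectedComponentIn_eq_image hxF]
  have hemp : D ∩ (⋂ s : { s : Set (K \ N : Set X) // IsClopen s ∧ x0 ∈ s }, (s : Set (K \ N : Set X))) = ∅ := by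
    rw [← connectedComponent_eq_iInter_isClopen]
    rw [Set.eq_empty_iff_forall_notMem]
    rintro y ⟨h1, h2⟩
    have : (y : X) ∈ connectedComponentIn (K \ N) x ∩ closure N := ⟨by rw [hcomp]; exact ⟨y, h2, rfl⟩, h1⟩
    rw [hne] at this
    exact this
  have hfin : ∃ u : Finset { s : Set (K \ N : Set X) // IsClopen s ∧ x0 ∈ s },
      D ∩ (⋂ i ∈ u, (i : Set (K \ N : Set X))) = ∅ := by
    by_contra hcon
    push Not at hcon
    have := hD.isCompact.inter_iInter_nonempty
      (fun s : { s : Set (K \ N : Set X) // IsClopen s ∧ x0 ∈ s } => (s : Set (K \ N : Set X)))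
      (fun i => i.2.1.1) (fun u => hcon u)
    rw [hemp] at this
    exact Set.not_nonempty_empty this
  obtain ⟨u, hu⟩ := hfin
  set Z : Set (K \ N : Set X) := ⋂ i ∈ u, (i : Set (K \ N : Set X)) with hZ
  have hZc : IsClopen Z := isClopen_biInter_finset (fun i _ => i.2.1)
  have hxZ : x0 ∈ Z := by simp only [hZ, Set.mem_iInter]; exact fun i _ => i.2.2
  have hemb := hFc.isClosedEmbedding_subtypeVal
  have h1 : IsClosed (Subtype.val '' Z) := hemb.isClosedMap _ hZc.1
  have h2 : IsClosed (Subtype.val '' Zᶜ ∪ (K ∩ closure N)) :=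
    (hemb.isClosedMap _ hZc.compl.1).union (hK.1.inter isClosed_closure)
  have hcov : K ⊆ Subtype.val '' Z ∪ (Subtype.val '' Zᶜ ∪ (K ∩ closure N)) := by
    intro y hy
    by_cases hyN : y ∈ N
    · exact Or.inr (Or.inr ⟨hy, subset_closure hyN⟩)
    · by_cases hyZ : (⟨y, hy, hyN⟩ : (K \ N : Set X)) ∈ Z
      · exact Or.inl ⟨_, hyZ, rfl⟩
      · exact Or.inr (Or.inl ⟨⟨y, hy, hyN⟩, hyZ, rfl⟩)
  have hp := isPreconnected_closed_iff.mp hK.2.isPreconnected _ _ h1 h2 hcov
    ⟨x, hx, ⟨x0, hxZ, rfl⟩⟩ (by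
      obtain ⟨y, hy, hyN⟩ := hKN
      exact ⟨y, hy, Or.inr ⟨hy, subset_closure hyN⟩⟩)
  obtain ⟨y, -, ⟨z, hz, rfl⟩, h3⟩ := hp
  rcases h3 with ⟨w, hw, hwz⟩ | ⟨_, h4⟩
  · rw [Subtype.val_injective hwz] at hw
    exact hw hz
  · have : z ∈ D ∩ Z := ⟨h4, hz⟩
    rw [hu] at this
    exact this
end Pool.Agent.Helper499.HD
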