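import Pool.Agent.Helper499.HD.Defs
import Pool.Agent.Helper499.HD.B01

set_option autoImplicit false

namespace Pool.Agent.Helper499.HD

open Set Metric Topology

variable {X : Type} [MetricSpace X]




theorem irred [CompactSpace X] {K A B : Set X} (hK : CC K) (hA : IsClosed A) (hB : IsClosed B)
    (h1 : (K ∩ A).Nonempty) (h2 : (K ∩ B).Nonempty) :
    ∃ T, T ⊆ K ∧ CC T ∧ (T ∩ A).Nonempty ∧ (T ∩ B).Nonempty ∧
      ∀ T', T' ⊆ T → CC T' → (T' ∩ A).Nonempty → (T' ∩ B).Nonempty → T' = T := by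
  classical
  obtain ⟨T, hTK, hTmin⟩ := zorn_superset_nonempty
    {T : Set X | T ⊆ K ∧ CC T ∧ (T ∩ A).Nonempty ∧ (T ∩ B).Nonempty}
    (by
      intro c hcS hc hne
      obtain ⟨hcc, hU⟩ := chain_inter c hc hne (fun K' hK' => (hcS hK').2.1)
      have hmeet : ∀ F : Set X, IsClosed F → (∀ K' ∈ c, (K' ∩ F).Nonempty) → (⋂₀ c ∩ F).Nonempty := by
        intro F hF hmF
        by_contra hcon
        rw [Set.not_nonempty_iff_eq_empty] at hcon
        obtain ⟨K', hK', hK'F⟩ := hU Fᶜ hF.isOpen_compl (by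
          intro x hx hxF
          have : x ∈ ⋂₀ c ∩ F := ⟨hx, hxF⟩
          rw [hcon] at this
          exact this)
        obtain ⟨x, hx1, hx2⟩ := hmF K' hK'
        exact hK'F hx1 hx2
      obtain ⟨K0, hK0⟩ := hne
      refine ⟨⋂₀ c, ⟨(Set.sInter_subset_of_mem hK0).trans (hcS hK0).1, hcc,
        hmeet A hA (fun K' hK' => (hcS hK').2.2.1), hmeet B hB (fun K' hK' => (hcS hK').2.2.2)⟩, ?_⟩
      intro s hs
      exact Set.sInter_subset_of_mem hs) K ⟨subset_rfl, hK, h1, h2⟩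
  refine ⟨T, hTK, hTmin.prop.2.1, hTmin.prop.2.2.1, hTmin.prop.2.2.2, ?_⟩
  intro T' hT' hc' ha hb
  exact Set.Subset.antisymm hT' (hTmin.le_of_le ⟨hT'.trans hTK, hc', ha, hb⟩ hT')

end Pool.Agent.Helper499.HD
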