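import Pool.Agent.Helper499.HD.Defs

set_option autoImplicit false

namespace Pool.Agent.Helper499.HD

open Set Metric Topology

variable {X : Type} [MetricSpace X]


theorem cutwire_aux {Y : Type} [TopologicalSpace Y] [CompactSpace Y] [T2Space Y] {A B : Set Y}
    (hA : IsClosed A) (hB : IsClosed B)
    (h : ∀ a ∈ A, ∀ b ∈ B, b ∉ connectedComponent a) :
    ∃ U : Set Y, IsClopen U ∧ A ⊆ U ∧ Disjoint U B := by
  classical
  have hpt : ∀ a ∈ A, ∃ Z : Set Y, IsClopen Z ∧ a ∈ Z ∧ Disjoint Z B := by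
    intro a ha
    have hcov : B ⊆ ⋃ s : {s : Set Y // IsClopen s ∧ a ∈ s}, (s.1)ᶜ := by
      intro b hb
      have h1 := h a ha b hb
      rw [connectedComponent_eq_iInter_isClopen, mem_iInter] at h1
      push Not at h1
      obtain ⟨s, hs⟩ := h1
      exact mem_iUnion.mpr ⟨s, hs⟩
    obtain ⟨t, ht⟩ := hB.isCompact.elim_finite_subcover
      (fun s : {s : Set Y // IsClopen s ∧ a ∈ s} => (s.1)ᶜ)
      (fun s => s.2.1.compl.isOpen) hcov
    refine ⟨⋂ s ∈ t, s.1, isClopen_biInter_finset fun s _ => s.2.1,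
      mem_iInter₂.mpr fun s _ => s.2.2, ?_⟩
    rw [disjoint_left]
    intro y hy hyB
    obtain ⟨s, hs, hys⟩ := mem_iUnion₂.mp (ht hyB)
    exact hys (mem_iInter₂.mp hy s hs)
  choose! Z hZ1 hZ2 hZ3 using hpt
  obtain ⟨t, ht⟩ := hA.isCompact.elim_finite_subcover (fun a : A => Z a.1)
    (fun a => (hZ1 a.1 a.2).isOpen) (fun a ha => mem_iUnion.mpr ⟨⟨a, ha⟩, hZ2 a ha⟩)
  refine ⟨⋃ a ∈ t, Z a.1, isClopen_biUnion_finset fun a _ => hZ1 a.1 a.2, ht, ?_⟩
  rw [disjoint_left]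
  intro y hy hyB
  obtain ⟨a, _, hya⟩ := mem_iUnion₂.mp hy
  exact disjoint_left.mp (hZ3 a.1 a.2) hya hyB

theorem cutwire [CompactSpace X] {N A B : Set X} (hN : IsClosed N) (hA : IsClosed A)
    (hB : IsClosed B) (hAN : A ⊆ N) (hBN : B ⊆ N)
    (h : ∀ C, C ⊆ N → CC C → (C ∩ A).Nonempty → (C ∩ B).Nonempty → False) :
    ∃ U V : Set X, IsClosed U ∧ IsClosed V ∧ U ∪ V = N ∧ Disjoint U V ∧ A ⊆ U ∧ B ⊆ V := by
  have hcomp : CompactSpace N := isCompact_iff_compactSpace.mp hN.isCompact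
  have hcm : IsClosedMap (Subtype.val : N → X) := hN.isClosedEmbedding_subtypeVal.isClosedMap
  obtain ⟨U, hU1, hU2, hU3⟩ := cutwire_aux (Y := N) (A := Subtype.val ⁻¹' A) (B := Subtype.val ⁻¹' B)
    (hA.preimage continuous_subtype_val) (hB.preimage continuous_subtype_val) (by
      intro a ha b hb hab
      refine h (Subtype.val '' connectedComponent a) ?_ ⟨?_, ?_⟩ ?_ ?_
      · rintro x ⟨y, _, rfl⟩
        exact y.2
      · exact hcm _ isClosed_connectedComponent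
      · exact isConnected_connectedComponent.image _ continuous_subtype_val.continuousOn
      · exact ⟨a, ⟨a, mem_connectedComponent, rfl⟩, ha⟩
      · exact ⟨b, ⟨b, hab, rfl⟩, hb⟩)
  refine ⟨Subtype.val '' U, Subtype.val '' Uᶜ, hcm _ hU1.isClosed, hcm _ hU1.compl.isClosed,
    ?_, ?_, ?_, ?_⟩
  · rw [← image_union, union_compl_self, image_univ, Subtype.range_coe]
  · rw [disjoint_image_iff Subtype.val_injective]
    exact disjoint_compl_right
  · intro x hx
    exact ⟨⟨x, hAN hx⟩, hU2 hx, rfl⟩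
  · intro x hx
    refine ⟨⟨x, hBN hx⟩, fun hxU => ?_, rfl⟩
    exact disjoint_left.mp hU3 hxU hx

end Pool.Agent.Helper499.HD
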