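import Pool.Agent.Helper499.HD.Defs
import Pool.Agent.Helper499.HD.B01

set_option autoImplicit false

namespace Pool.Agent.Helper499.HD

open Set Metric Topology

variable {X : Type} [MetricSpace X]




/-- infinitely many foldings produce an indecomposable continuum -/
theorem lemmaK [CompactSpace X] (W A B : ℕ → Set X) (hW : ∀ k, IsClosed (W k))
    (hA : ∀ k, IsClosed (A k)) (hB : ∀ k, IsClosed (B k)) (hWW : ∀ k, W (k + 1) ⊆ W k)
    (hAA : ∀ k, A (k + 1) ⊆ A k) (hBA : ∀ k, B (k + 1) ⊆ A k)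
    (hS : ∀ k (E : Set X), CC E → E ⊆ W (k + 1) → (E ∩ A (k + 1)).Nonempty →
      (E ∩ B (k + 1)).Nonempty → (E ∩ B k).Nonempty)
    (h0 : Disjoint (A 0) (B 0)) (Y : Set X) (hY : CC Y) (hYW : ∀ k, Y ⊆ W k)
    (hYA : ∀ k, (Y ∩ A k).Nonempty) (hYB : ∀ k, (Y ∩ B k).Nonempty) :
    ∃ E, E ⊆ Y ∧ CC E ∧ E.Nontrivial ∧
      ∀ C D : Set X, CC C → CC D → C ⊂ E → D ⊂ E → C ∪ D ≠ E := by
  classical
  obtain ⟨O, hO⟩ : ∃ O : ℕ → Set X → Prop, ∀ k E, O k E ↔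
      (CC E ∧ E ⊆ W k ∧ (E ∩ A k).Nonempty ∧ (E ∩ B k).Nonempty) := ⟨_, fun _ _ => Iff.rfl⟩
  -- (1)
  have step : ∀ k E, O (k + 1) E → O k E := by
    intro k E h
    rw [hO] at h ⊢
    obtain ⟨h1, h2, h3, h4⟩ := h
    exact ⟨h1, h2.trans (hWW k), h3.mono (inter_subset_inter_right _ (hAA k)), hS k E h1 h2 h3 h4⟩
  have anti : ∀ k j E, k ≤ j → O j E → O k E := by
    intro k j E hkj
    induction j, hkj using Nat.le_induction with
    | base => exact id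
    | succ j _ ih => exact fun h => ih (step j E h)
  -- (2)
  have split1 : ∀ k (E C D : Set X), CC E → E ⊆ W (k + 1) → CC C → CC D → C ∪ D = E →
      ∀ a ∈ E ∩ A (k + 1), ∀ b ∈ E ∩ B (k + 1), ∀ c ∈ E ∩ B k, c ∈ C → O k C ∨ O k D := by
    intro k E C D hE hEW hC hD hCD a ha b hb c hc hcC
    have hCE : C ⊆ E := hCD ▸ subset_union_left
    have hDE : D ⊆ E := hCD ▸ subset_union_right
    by_cases haC : a ∈ C
    · left
      rw [hO]
      exact ⟨hC, (hCE.trans hEW).trans (hWW k), ⟨a, haC, hAA k ha.2⟩, ⟨c, hcC, hc.2⟩⟩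
    · by_cases hbC : b ∈ C
      · left
        rw [hO]
        exact ⟨hC, (hCE.trans hEW).trans (hWW k), ⟨b, hbC, hBA k hb.2⟩, ⟨c, hcC, hc.2⟩⟩
      · right
        have haD : a ∈ D := by
          have : a ∈ C ∪ D := hCD ▸ ha.1
          exact this.resolve_left haC
        have hbD : b ∈ D := by
          have : b ∈ C ∪ D := hCD ▸ hb.1
          exact this.resolve_left hbC
        apply step
        rw [hO]
        exact ⟨hD, hDE.trans hEW, ⟨a, haD, ha.2⟩, ⟨b, hbD, hb.2⟩⟩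
  have split : ∀ k (E C D : Set X), O (k + 1) E → CC C → CC D → C ∪ D = E → O k C ∨ O k D := by
    intro k E C D hE hC hD hCD
    have hE' := (hO _ _).1 hE
    obtain ⟨h1, h2, ⟨a, ha⟩, ⟨b, hb⟩⟩ := hE'
    obtain ⟨c, hc⟩ := hS k E h1 h2 ⟨a, ha⟩ ⟨b, hb⟩
    have hcCD : c ∈ C ∪ D := hCD ▸ hc.1
    rcases hcCD with h | h
    · exact split1 k E C D h1 h2 hC hD hCD a ha b hb c hc h
    · exact (split1 k E D C h1 h2 hD hC (by rw [union_comm]; exact hCD) a ha b hb c hc h).symm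
  -- (3)
  have hYO : ∀ k, O k Y := fun k => (hO _ _).2 ⟨hY, hYW k, hYA k, hYB k⟩
  obtain ⟨E, hEY, hmin⟩ := zorn_superset_nonempty {E : Set X | E ⊆ Y ∧ ∀ k, O k E} (by
    intro c hcP hc hne
    have hcc : ∀ K ∈ c, CC K := fun K hK => ((hO _ _).1 ((hcP hK).2 0)).1
    obtain ⟨h1, h2⟩ := chain_inter c hc hne hcc
    have hmeet : ∀ F : Set X, IsClosed F → (∀ K ∈ c, (K ∩ F).Nonempty) → (⋂₀ c ∩ F).Nonempty := by
      intro F hF hK
      by_contra hcon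
      have hsub : ⋂₀ c ⊆ Fᶜ := by
        intro x hx hxF
        exact hcon ⟨x, hx, hxF⟩
      obtain ⟨K, hKc, hKF⟩ := h2 _ hF.isOpen_compl hsub
      obtain ⟨x, hxK, hxF⟩ := hK K hKc
      exact hKF hxK hxF
    obtain ⟨K0, hK0⟩ := hne
    refine ⟨⋂₀ c, ⟨?_, fun k => (hO _ _).2 ⟨h1, ?_, ?_, ?_⟩⟩, fun s hs => sInter_subset_of_mem hs⟩
    · exact (sInter_subset_of_mem hK0).trans (hcP hK0).1
    · exact (sInter_subset_of_mem hK0).trans ((hO _ _).1 ((hcP hK0).2 k)).2.1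
    · exact hmeet _ (hA k) fun K hK => ((hO _ _).1 ((hcP hK).2 k)).2.2.1
    · exact hmeet _ (hB k) fun K hK => ((hO _ _).1 ((hcP hK).2 k)).2.2.2) Y ⟨Subset.rfl, hYO⟩
  have hEO : ∀ k, O k E := hmin.prop.2
  have hE0 := (hO _ _).1 (hEO 0)
  refine ⟨E, hEY, hE0.1, ?_, ?_⟩
  · obtain ⟨a, haE, haA⟩ := hE0.2.2.1
    obtain ⟨b, hbE, hbB⟩ := hE0.2.2.2
    refine ⟨a, haE, b, hbE, ?_⟩
    rintro rfl
    exact Set.disjoint_left.1 h0 haA hbB
  · intro C D hC hD hCE hDE hCD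
    have hnC : ¬ ∀ k, O k C := by
      intro h
      exact hCE.2 (hmin.le_of_le ⟨hCE.1.trans hEY, h⟩ hCE.1)
    have hnD : ¬ ∀ k, O k D := by
      intro h
      exact hDE.2 (hmin.le_of_le ⟨hDE.1.trans hEY, h⟩ hDE.1)
    push Not at hnC
    obtain ⟨k0, hk0⟩ := hnC
    apply hnD
    intro k
    rcases split (max k k0) E C D (hEO _) hC hD hCD with h | h
    · exact absurd (anti k0 _ C (le_max_right _ _) h) hk0
    · exact anti k _ D (le_max_left _ _) h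

end Pool.Agent.Helper499.HD
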