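import Pool.Agent.Helper499.HD.Defs
import Pool.Agent.Helper499.HD.B04
import Pool.Agent.Helper499.HD.B05

set_option autoImplicit false

namespace Pool.Agent.Helper499.HD

open Set Metric Topology

variable {X : Type} [MetricSpace X]





theorem cont_nbhd_step [CompactSpace X] {M A : Set X} (hM : CC M) (hA : CC A)
    (hAM : A ⊆ M)
    (hN : ∀ Ap, CC Ap → A ⊆ Ap → Ap ⊂ M → ∀ ρ > 0, ∃ x ∈ M, infDist x A ≤ ρ ∧ x ∉ Ap)
    (ρ : ℝ) (u : X) (t : ℝ) (hρ : 0 < ρ) (hu : u ∈ M) (ht : 0 < t)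
    (hd : ∀ x, infDist x A ≤ ρ → x ∉ closedBall u t) :
    ∃ (ρ1 : ℝ) (x : X) (t1 : ℝ), 0 < ρ1 ∧ x ∈ M ∧ 0 < t1 ∧
      (∀ z, infDist z A ≤ ρ1 → z ∉ closedBall x t1) ∧ ρ1 ≤ ρ ∧
      (∀ z, z ∈ closedBall x t1 → infDist z A ≤ ρ) ∧
      ∀ E : Set X, CC E → E ⊆ M → (∃ z ∈ E, infDist z A ≤ ρ1) → (∃ z ∈ E, z ∈ closedBall x t1) →
        ∃ z ∈ E, z ∈ closedBall u t := by
  obtain ⟨a, ha⟩ := hA.2.nonempty
  have hAρ : ∀ x ∈ A, infDist x A ≤ ρ := fun x hx => by
    rw [infDist_zero_of_mem hx]; exact hρ.le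
  set M1 : Set X := M \ ball u t with hM1
  have hM1c : IsClosed M1 := hM.1.sdiff isOpen_ball
  have hAM1 : A ⊆ M1 := fun x hx => ⟨hAM hx, fun h => hd x (hAρ x hx) (ball_subset_closedBall h)⟩
  set Ap : Set X := connectedComponentIn M1 a with hAp
  have hApcl : IsClosed Ap := by
    refine isClosed_of_closure_subset ?_
    refine (isPreconnected_connectedComponentIn (x := a) (F := M1)).closure.subset_connectedComponentIn
      (subset_closure (mem_connectedComponentIn (hAM1 ha))) ?_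
    exact closure_minimal (connectedComponentIn_subset _ _) hM1c
  have hApc : CC Ap :=
    ⟨hApcl, isConnected_connectedComponentIn_iff.2 (hAM1 ha)⟩
  have hAAp : A ⊆ Ap := hA.2.isPreconnected.subset_connectedComponentIn ha hAM1
  have hApM1 : Ap ⊆ M1 := connectedComponentIn_subset _ _
  have hApM : Ap ⊂ M := by
    refine ⟨fun x hx => (hApM1 hx).1, fun h => ?_⟩
    exact (hApM1 (h hu)).2 (mem_ball_self ht)
  obtain ⟨x, hxM, hxρ, hxAp⟩ := hN Ap hApc hAAp hApM (ρ / 2) (by positivity)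
  have hxM1 : x ∈ M1 :=
    ⟨hxM, fun h => hd x (by linarith) (ball_subset_closedBall h)⟩
  obtain ⟨U, V, hU, hV, hUV, hdis, hAU, hxV⟩ := cutwire hM1c hA.1 (isClosed_singleton (x := x))
    hAM1 (singleton_subset_iff.2 hxM1) (by
      intro C hC hCC hCA hCx
      apply hxAp
      have h1 : IsPreconnected (C ∪ A) :=
        IsPreconnected.union' hCA hCC.2.isPreconnected hA.2.isPreconnected
      have h2 : C ∪ A ⊆ M1 := union_subset hC hAM1
      have h3 : C ∪ A ⊆ Ap := h1.subset_connectedComponentIn (Or.inr ha) h2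
      obtain ⟨y, hy, hyx⟩ := hCx
      rw [mem_singleton_iff] at hyx
      rw [← hyx]
      exact h3 (Or.inl hy))
  rw [singleton_subset_iff] at hxV
  have hVA : ∀ y ∈ V, 0 < infDist y A := by
    intro y hy
    exact (hA.1.notMem_iff_infDist_pos hA.2.nonempty).1
      (fun h => Set.disjoint_left.1 hdis (hAU h) hy)
  obtain ⟨y, hyV, hymin⟩ := hV.isCompact.exists_isMinOn ⟨x, hxV⟩
    (continuous_infDist_pt A).continuousOn
  have hm := hVA y hyV
  have hmx : infDist y A ≤ infDist x A := hymin hxV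
  have hxU : x ∉ U := fun h => Set.disjoint_left.1 hdis h hxV
  obtain ⟨ε, hε, hεU⟩ := Metric.isOpen_iff.1 hU.isOpen_compl x hxU
  refine ⟨min (ρ / 2) (infDist y A / 3), x, min (ε / 2) (min (ρ / 2) (infDist y A / 3)),
    by positivity, hxM, by positivity, ?_, ?_, ?_, ?_⟩
  · intro z hz hzx
    rw [mem_closedBall] at hzx
    have h1 : infDist x A ≤ infDist z A + dist x z := infDist_le_infDist_add_dist
    have h2 : dist z x ≤ infDist y A / 3 := hzx.trans ((min_le_right _ _).trans (min_le_right _ _))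
    have h3 : infDist z A ≤ infDist y A / 3 := hz.trans (min_le_right _ _)
    rw [dist_comm] at h2
    linarith
  · exact (min_le_left _ _).trans (by linarith)
  · intro z hz
    rw [mem_closedBall] at hz
    have h1 : infDist z A ≤ infDist x A + dist z x := infDist_le_infDist_add_dist
    have h2 : dist z x ≤ ρ / 2 := hz.trans ((min_le_right _ _).trans (min_le_left _ _))
    linarith
  · intro E hE hEM hE1 hE2
    by_contra hcon
    push Not at hcon
    have hEM1 : E ⊆ M1 := fun z hz => ⟨hEM hz, fun h => hcon z hz (ball_subset_closedBall h)⟩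
    have h1 := isPreconnected_iff_subset_of_disjoint_closed.1 hE.2.isPreconnected U V hU hV
      (by rw [hUV]; exact hEM1) (by rw [Set.disjoint_iff_inter_eq_empty.1 hdis, inter_empty])
    rcases h1 with h1 | h1
    · obtain ⟨z, hz, hzx⟩ := hE2
      have h2 : z ∈ ball x ε := by
        rw [mem_ball]
        rw [mem_closedBall] at hzx
        have := hzx.trans (min_le_left _ _)
        linarith
      exact hεU h2 (h1 hz)
    · obtain ⟨z, hz, hzA⟩ := hE1
      have h2 : infDist y A ≤ infDist z A := hymin (h1 hz)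
      have h3 : infDist z A ≤ infDist y A / 3 := hzA.trans (min_le_right _ _)
      linarith

/-- in a hereditarily decomposable continuum, proper subcontinua have proper continuum
neighbourhoods -/
theorem cont_nbhd [CompactSpace X] (hD : HerDec X) {M A : Set X} (hM : CC M) (hA : CC A)
    (hAM : A ⊂ M) :
    ∃ Ap, CC Ap ∧ A ⊆ Ap ∧ Ap ⊂ M ∧ ∃ ρ > 0, ∀ x ∈ M, infDist x A ≤ ρ → x ∈ Ap := by
  by_contra hcon
  have hN : ∀ Ap, CC Ap → A ⊆ Ap → Ap ⊂ M → ∀ ρ > 0, ∃ x ∈ M, infDist x A ≤ ρ ∧ x ∉ Ap := by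
    intro Ap h1 h2 h3 ρ hρ
    by_contra h4
    push Not at h4
    exact hcon ⟨Ap, h1, h2, h3, ρ, hρ, h4⟩
  obtain ⟨q, hqM, hqA⟩ := Set.exists_of_ssubset hAM
  have hq : 0 < infDist q A := (hA.1.notMem_iff_infDist_pos hA.2.nonempty).1 hqA
  let St : Type := {s : ℝ × X × ℝ // 0 < s.1 ∧ s.2.1 ∈ M ∧ 0 < s.2.2 ∧
    ∀ x, infDist x A ≤ s.1 → x ∉ closedBall s.2.1 s.2.2}
  let s0 : St := ⟨(infDist q A / 3, q, infDist q A / 3), by
    refine ⟨by positivity, hqM, by positivity, fun z hz hzx => ?_⟩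
    rw [mem_closedBall] at hzx
    have h1 : infDist q A ≤ infDist z A + dist q z := infDist_le_infDist_add_dist
    rw [dist_comm] at hzx
    simp only at hz hzx
    linarith⟩
  have hstep : ∀ s : St, ∃ s' : St, s'.1.1 ≤ s.1.1 ∧
      (∀ z, z ∈ closedBall s'.1.2.1 s'.1.2.2 → infDist z A ≤ s.1.1) ∧
      ∀ E : Set X, CC E → E ⊆ M → (∃ z ∈ E, infDist z A ≤ s'.1.1) →
        (∃ z ∈ E, z ∈ closedBall s'.1.2.1 s'.1.2.2) → ∃ z ∈ E, z ∈ closedBall s.1.2.1 s.1.2.2 := by
    rintro ⟨⟨ρ, u, t⟩, hρ, hu, ht, hd⟩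
    obtain ⟨ρ1, x, t1, h1, h2, h3, h4, h5, h6, h7⟩ :=
      cont_nbhd_step hM hA hAM.1 hN ρ u t hρ hu ht hd
    exact ⟨⟨(ρ1, x, t1), h1, h2, h3, h4⟩, h5, h6, h7⟩
  choose f hf1 hf2 hf3 using hstep
  let sq : ℕ → St := fun k => f^[k] s0
  have hsq : ∀ k, sq (k + 1) = f (sq k) := fun k => Function.iterate_succ_apply' f k s0
  obtain ⟨a, ha⟩ := hA.2.nonempty
  obtain ⟨E, hEM, hE, hEn, hEd⟩ := lemmaK (fun _ => M) (fun k => {x | infDist x A ≤ (sq k).1.1})
    (fun k => closedBall (sq k).1.2.1 (sq k).1.2.2) (fun _ => hM.1)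
    (fun k => isClosed_le (continuous_infDist_pt A) continuous_const)
    (fun k => isClosed_closedBall) (fun _ => le_refl _)
    (fun k x hx => by
      have hx' : infDist x A ≤ (sq (k + 1)).1.1 := hx
      show infDist x A ≤ (sq k).1.1
      rw [hsq] at hx'
      exact hx'.trans (hf1 _))
    (fun k x hx => by
      have hx' : x ∈ closedBall (sq (k + 1)).1.2.1 (sq (k + 1)).1.2.2 := hx
      show infDist x A ≤ (sq k).1.1
      rw [hsq] at hx'
      exact hf2 _ x hx')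
    (fun k E hE hEM h1 h2 => by
      obtain ⟨z, hz, hz'⟩ := h1
      obtain ⟨w, hw, hw'⟩ := h2
      have hz2 : infDist z A ≤ (sq (k + 1)).1.1 := hz'
      have hw2 : w ∈ closedBall (sq (k + 1)).1.2.1 (sq (k + 1)).1.2.2 := hw'
      rw [hsq] at hz2 hw2
      obtain ⟨y, hy, hy'⟩ := hf3 (sq k) E hE hEM ⟨z, hz, hz2⟩ ⟨w, hw, hw2⟩
      exact ⟨y, hy, hy'⟩)
    (by
      rw [Set.disjoint_left]
      intro x hx hx'
      exact s0.2.2.2.2 x hx hx')
    M hM (fun _ => le_refl _)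
    (fun k => ⟨a, hAM.1 ha, by
      show infDist a A ≤ (sq k).1.1
      rw [infDist_zero_of_mem ha]
      exact (sq k).2.1.le⟩)
    (fun k => ⟨(sq k).1.2.1, (sq k).2.2.1, mem_closedBall_self (sq k).2.2.2.1.le⟩)
  obtain ⟨C, D, hC, hD', hCE, hDE, hCD⟩ := hD E hE hEn
  exact hEd C D hC hD' hCE hDE hCD


end Pool.Agent.Helper499.HD
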