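import Pool.Agent.Helper499.HD.Defs

set_option autoImplicit false

namespace Pool.Agent.Helper499.HD

open Set Metric Topology

variable {X : Type} [MetricSpace X]


theorem thin_of_not_ample [CompactSpace X] (hE : Eff X) {K : Set X} (hK : CC K)
    (hna : ¬ Ample K) :
    ∃ s > 0, ∀ C, C ⊆ nb s K → IsPreconnected C → K ⊆ C → interior C = ∅ := by
  unfold Ample at hna
  push Not at hna
  obtain ⟨U, hU, hKU, hL⟩ := hna
  have hKc : IsCompact K := hK.1.isCompact
  obtain ⟨s1, hs1, hsub⟩ := hKc.exists_cthickening_subset_open hU hKU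
  have hnb : nb s1 K ⊆ U := by
    intro x hx
    obtain ⟨z, hz, hxz⟩ := hKc.exists_infDist_eq_dist hK.2.nonempty x
    apply hsub
    apply Metric.mem_cthickening_of_dist_le x z s1 K hz
    rw [← hxz]
    exact hx
  refine ⟨s1 / 2, by positivity, ?_⟩
  intro C hC hCp hKC
  by_contra hne
  obtain ⟨y, hy⟩ := Set.nonempty_iff_ne_empty.2 hne
  obtain ⟨η, hη, hball⟩ := Metric.isOpen_iff.1 isOpen_interior y hy
  have hball2 : ball y η ⊆ C := hball.trans interior_subset
  have hyC : y ∈ C := interior_subset hy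
  have hε : 0 < min η (s1 / 2) := lt_min hη (by positivity)
  obtain ⟨δ, hδ, hE2⟩ := hE (min η (s1 / 2)) hε
  have hDp : IsPreconnected (⋃₀ {T : Set X | ∃ h : X ≃ₜ X, Cl (min η (s1 / 2)) h ∧
      T = C ∪ h '' C}) := by
    apply isPreconnected_sUnion y
    · rintro T ⟨h, hh, rfl⟩
      exact Or.inl hyC
    · rintro T ⟨h, hh, rfl⟩
      refine IsPreconnected.union (h y) ?_ ⟨y, hyC, rfl⟩ hCp
        (hCp.image h h.continuous.continuousOn)
      apply hball2
      exact lt_of_lt_of_le (hh y) (min_le_left _ _)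
  obtain ⟨D, hD⟩ : ∃ D, D = ⋃₀ {T : Set X | ∃ h : X ≃ₜ X, Cl (min η (s1 / 2)) h ∧
      T = C ∪ h '' C} := ⟨_, rfl⟩
  rw [← hD] at hDp
  have hmem : ∀ h : X ≃ₜ X, Cl (min η (s1 / 2)) h → C ∪ h '' C ⊆ D := by
    intro h hh x hx
    rw [hD]
    exact ⟨_, ⟨h, hh, rfl⟩, hx⟩
  have hDn : D ⊆ nb s1 K := by
    rw [hD]
    rintro x ⟨T, ⟨h, hh, rfl⟩, hx⟩
    rcases hx with hx | ⟨z, hz, rfl⟩
    · have h1 : infDist x K ≤ s1 / 2 := hC hx
      change infDist x K ≤ s1
      linarith
    · have h1 : infDist z K ≤ s1 / 2 := hC hz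
      have h2 : infDist (h z) K ≤ infDist z K + dist (h z) z := infDist_le_infDist_add_dist
      have h3 := hh z
      have h4 := min_le_right η (s1 / 2)
      change infDist (h z) K ≤ s1
      linarith
  have hrefl : Cl (min η (s1 / 2)) (Homeomorph.refl X) := by
    intro z
    simpa using hε
  have hyD : y ∈ D := hmem _ hrefl (Or.inl hyC)
  have hcl : IsClosed (nb s1 K) := isClosed_le (continuous_infDist_pt K) continuous_const
  have hLU : closure D ⊆ U := (closure_minimal hDn hcl).trans hnb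
  refine hL (closure D) hLU ⟨isClosed_closure, ⟨⟨y, subset_closure hyD⟩, hDp.closure⟩⟩ ?_
  intro k hk
  rw [mem_interior]
  refine ⟨ball k δ, ?_, isOpen_ball, mem_ball_self hδ⟩
  intro x hx
  apply subset_closure
  rw [mem_ball, dist_comm] at hx
  obtain ⟨h, hh, hhk⟩ := hE2 k x hx
  exact hmem h hh (Or.inr ⟨k, hKC hk, hhk⟩)

end Pool.Agent.Helper499.HD
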