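import Pool.Agent.Helper499.HD.Defs
import Pool.Agent.Helper499.HD.B01

set_option autoImplicit false

namespace Pool.Agent.Helper499.HD

open Set Metric Topology

variable {X : Type} [MetricSpace X]




theorem exists_min_ample [CompactSpace X] [ConnectedSpace X] :
    ∃ M : Set X, CC M ∧ Ample M ∧ ∀ N, N ⊆ M → CC N → Ample N → N = M := by
  have huniv : CC (univ : Set X) ∧ Ample (univ : Set X) := by
    have hcc : CC (univ : Set X) := ⟨isClosed_univ, isConnected_univ⟩
    refine ⟨hcc, ?_⟩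
    intro U _ hsub
    exact ⟨univ, hsub, hcc, by simp⟩
  obtain ⟨M, hM⟩ := zorn_superset {K : Set X | CC K ∧ Ample K} (by
    intro c hcS hc
    rcases c.eq_empty_or_nonempty with h0 | hne
    · exact ⟨univ, huniv, by intro s hs; rw [h0] at hs; exact absurd hs (by simp)⟩
    · obtain ⟨h1, h2⟩ := chain_inter c hc hne (fun K hK => (hcS hK).1)
      refine ⟨⋂₀ c, ⟨h1, ?_⟩, fun s hs => sInter_subset_of_mem hs⟩
      intro U hU hsub
      obtain ⟨K, hK, hKU⟩ := h2 U hU hsub
      obtain ⟨L, hL1, hL2, hL3⟩ := (hcS hK).2 U hU hKU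
      exact ⟨L, hL1, hL2, (sInter_subset_of_mem hK).trans hL3⟩)
  refine ⟨M, hM.prop.1, hM.prop.2, ?_⟩
  intro N hNM hN1 hN2
  exact subset_antisymm hNM (hM.le_of_le ⟨hN1, hN2⟩ hNM)

end Pool.Agent.Helper499.HD
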