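import Pool.Agent.Helper499.HD.Defs

set_option autoImplicit false

namespace Pool.Agent.Helper499.HD

open Set Metric Topology

variable {X : Type} [MetricSpace X]


theorem locConn_of_ample [CompactSpace X] (hom : ∀ x y : X, ∃ h : X ≃ₜ X, h x = y) (x : X)
    (h : Ample ({x} : Set X)) : LocallyConnectedSpace X := by
  rw [locallyConnectedSpace_iff_connected_subsets]
  intro y U hU
  obtain ⟨g, rfl⟩ := hom x y
  obtain ⟨W, hWU, hW, hyW⟩ := _root_.mem_nhds_iff.1 hU
  obtain ⟨L, hL, hLc, hxL⟩ := h (g ⁻¹' W) (hW.preimage g.continuous)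
    (singleton_subset_iff.2 hyW)
  have hx : x ∈ interior L := hxL (mem_singleton x)
  refine ⟨g '' L, ?_, hLc.2.isPreconnected.image _ g.continuous.continuousOn, ?_⟩
  · have : L ∈ 𝓝 x := mem_interior_iff_mem_nhds.1 hx
    exact g.isOpenMap.image_mem_nhds this
  · rintro _ ⟨z, hz, rfl⟩
    exact hWU (hL hz)


end Pool.Agent.Helper499.HD
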