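import Pool.Agent.Helper499.HD.Defs
import Pool.Agent.Helper499.HD.B06
import Pool.Agent.Helper499.HD.B07

set_option autoImplicit false

namespace Pool.Agent.Helper499.HD

open Set Metric Topology

variable {X : Type} [MetricSpace X]





theorem setup_exists [CompactSpace X] (hE : Eff X) (hD : HerDec X) {M : Set X} (hM : CC M)
    (hA : Ample M) (hmin : ∀ N, N ⊆ M → CC N → Ample N → N = M) (hnt : M.Nontrivial) :
    ∃ (S Sp : Bool → Set X) (r : ℝ), Setup M S Sp r := by
  obtain ⟨P, Q, hP, hQ, hPM, hQM, hPQ⟩ := hD M hM hnt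
  obtain ⟨Pp, hPp, hPPp, hPpM, ρP, hρP, hnP⟩ := cont_nbhd hD hM hP hPM
  obtain ⟨Qp, hQp, hQQp, hQpM, ρQ, hρQ, hnQ⟩ := cont_nbhd hD hM hQ hQM
  obtain ⟨sP, hsP, htP⟩ := thin_of_not_ample hE hPp
    (fun h => hPpM.ne (hmin Pp hPpM.subset hPp h))
  obtain ⟨sQ, hsQ, htQ⟩ := thin_of_not_ample hE hQp
    (fun h => hQpM.ne (hmin Qp hQpM.subset hQp h))
  have h1 : ¬ P ⊆ Q := fun h => hQM.ne (by rw [← hPQ]; exact (union_eq_right.mpr h).symm)
  have h2 : ¬ Q ⊆ P := fun h => hPM.ne (by rw [← hPQ]; exact (union_eq_left.mpr h).symm)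
  obtain ⟨x, hxP, hxQ⟩ := not_subset.mp h1
  obtain ⟨y, hyQ, hyP⟩ := not_subset.mp h2
  have hdx : 0 < infDist x Q := (hQ.1.notMem_iff_infDist_pos hQ.2.nonempty).mp hxQ
  have hdy : 0 < infDist y P := (hP.1.notMem_iff_infDist_pos hP.2.nonempty).mp hyP
  set m : ℝ := min (min (min ρP ρQ) (min sP sQ)) (min (infDist x Q) (infDist y P)) with hm
  have hm0 : 0 < m := lt_min (lt_min (lt_min hρP hρQ) (lt_min hsP hsQ)) (lt_min hdx hdy)
  have m1 : m ≤ ρP := (min_le_left _ _).trans ((min_le_left _ _).trans (min_le_left _ _))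
  have m2 : m ≤ ρQ := (min_le_left _ _).trans ((min_le_left _ _).trans (min_le_right _ _))
  have m3 : m ≤ sP := (min_le_left _ _).trans ((min_le_right _ _).trans (min_le_left _ _))
  have m4 : m ≤ sQ := (min_le_left _ _).trans ((min_le_right _ _).trans (min_le_right _ _))
  have m5 : m ≤ infDist x Q := (min_le_right _ _).trans (min_le_left _ _)
  have m6 : m ≤ infDist y P := (min_le_right _ _).trans (min_le_right _ _)
  have hr : 100 * (m / 100) = m := by ring
  refine ⟨fun b => cond b P Q, fun b => cond b Pp Qp, m / 100, ?_⟩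
  refine ⟨by positivity, hM, ?_, ?_, ?_, ?_, ?_, ?_, ?_, hA, ?_⟩
  · rintro (_ | _)
    · exact hQ
    · exact hP
  · rintro (_ | _)
    · exact hQp
    · exact hPp
  · rintro (_ | _)
    · show M = Q ∪ P
      rw [union_comm]; exact hPQ.symm
    · exact hPQ.symm
  · rintro (_ | _)
    · exact hQQp
    · exact hPPp
  · rintro (_ | _)
    · exact hQpM.subset
    · exact hPpM.subset
  · rw [hr]
    rintro (_ | _) z hz hz2
    · exact hnQ z hz (hz2.trans m2)
    · exact hnP z hz (hz2.trans m1)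
  · rw [hr]
    rintro (_ | _) C hC hC2 hC3
    · exact htQ C (fun z hz => (hC hz : infDist z Qp ≤ m).trans m4) hC2 hC3
    · exact htP C (fun z hz => (hC hz : infDist z Pp ≤ m).trans m3) hC2 hC3
  · rw [hr]
    rintro (_ | _)
    · exact ⟨y, hyQ, m6⟩
    · exact ⟨x, hxP, m5⟩

end Pool.Agent.Helper499.HD
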