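import Pool.Agent.Helper499.HD.Defs

set_option autoImplicit false

namespace Pool.Agent.Helper499.HD

open Set Metric Topology

variable {X : Type} [MetricSpace X]


/-- a point near `M` lies on a translate of `M` by a small homeomorphism -/
theorem fold_pt [CompactSpace X] {M : Set X} {S Sp : Bool → Set X} {r : ℝ}
    (hs : Setup M S Sp r) (b : Bool) (δ' t : ℝ) (ht : t ≤ r)
    (hE' : ∀ x y : X, dist x y ≤ t → ∃ h : X ≃ₜ X, Cl δ' h ∧ h x = y) (x : X)
    (hx : infDist x M ≤ t) :
    ∃ (h : X ≃ₜ X) (m : X), Cl δ' h ∧ h m = x ∧ m ∈ M ∧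
      (infDist x (S (!b)) ≤ 40 * r → m ∈ Sp (!b)) ∧ (40 * r ≤ infDist x (S (!b)) → m ∈ S b) := by
  have hMc : IsCompact M := hs.hM.1.isCompact
  obtain ⟨m, hm, hd⟩ := hMc.exists_infDist_eq_dist hs.hM.2.nonempty x
  have hr := hs.pos
  have hdm : dist m x ≤ t := by rw [dist_comm, ← hd]; exact hx
  obtain ⟨h, hh, he⟩ := hE' m x hdm
  refine ⟨h, m, hh, he, hm, ?_, ?_⟩
  · intro h1
    apply hs.nbd (!b) m hm
    have := infDist_le_infDist_add_dist (s := S (!b)) (x := m) (y := x)
    linarith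
  · intro h1
    have h2 := infDist_le_infDist_add_dist (s := S (!b)) (x := x) (y := m)
    rw [dist_comm] at h2
    have h3 : 0 < infDist m (S (!b)) := by linarith
    have h4 : m ∉ S (!b) := by
      intro h5
      rw [infDist_zero_of_mem h5] at h3
      exact lt_irrefl _ h3
    have h6 : m ∈ S b ∪ S (!b) := by rw [← hs.un b]; exact hm
    exact h6.resolve_right h4

end Pool.Agent.Helper499.HD
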