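import Pool.Agent.Helper499.HD.Defs
import Pool.Agent.Helper499.HD.B11

set_option autoImplicit false

namespace Pool.Agent.Helper499.HD

open Set Metric Topology

variable {X : Type} [MetricSpace X]




/-- if the fold lemma fails, the class on the side `!b` is constant on continua in `Out` -/
theorem fold_pair [CompactSpace X] {M : Set X} {S Sp : Bool → Set X} {r : ℝ}
    (hs : Setup M S Sp r) (b : Bool) (δ δ' t : ℝ) (hδ' : δ' ≤ r) (hδδ : 2 * δ' ≤ δ) (ht : t ≤ r)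
    (hE' : ∀ x y : X, dist x y ≤ t → ∃ h : X ≃ₜ X, Cl δ' h ∧ h x = y)
    (Hno : ∀ (k : X ≃ₜ X) (O : Set X), Cl δ k → CC O → (∀ x ∈ O, infDist x (S b) < δ) →
      (∀ x ∈ O, 20 * r < infDist x (S (!b))) → (O ∩ S b).Nonempty → (O ∩ k '' S b).Nonempty →
      Jn (nb (50 * r) (Sp (!b))) (Sp (!b)) (k '' Sp (!b)))
    (C : Set X) (hC : CC C) (hCM : ∀ x ∈ C, infDist x M ≤ t)
    (hCO : ∀ x ∈ C, 40 * r ≤ infDist x (S (!b))) (x y : X) (hx : x ∈ C) (hy : y ∈ C)
    (hx' : infDist x (S (!b)) ≤ 40 * r) (hy' : infDist y (S (!b)) ≤ 40 * r) :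
    ∃ D, D ⊆ nb (100 * r) (Sp (!b)) ∧ IsPreconnected D ∧ x ∈ D ∧ y ∈ D := by
  have hr := hs.pos
  obtain ⟨h, m, hh, hm, _, hm1, hm2⟩ := fold_pt hs b δ' t ht hE' x (hCM x hx)
  obtain ⟨g, m2, hg, hgm, _, hg1, hg2⟩ := fold_pt hs b δ' t ht hE' y (hCM y hy)
  have hmS := hm2 (hCO x hx)
  have hmSp := hm1 hx'
  have hgS := hg2 (hCO y hy)
  have hgSp := hg1 hy'
  have hsy : ∀ w, dist (h.symm w) w < δ' := fun w => by
    have := hh (h.symm w)
    rw [h.apply_symm_apply, dist_comm] at this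
    exact this
  have hkc : Cl δ (g.trans h.symm) := fun z => by
    have h1 : dist (h.symm (g z)) z ≤ dist (h.symm (g z)) (g z) + dist (g z) z := dist_triangle _ _ _
    have h2 := hsy (g z)
    have h3 := hg z
    show dist (h.symm (g z)) z < δ
    linarith
  have hOcc : CC (h.symm '' C) :=
    ⟨(h.symm.isClosed_image).2 hC.1, hC.2.image _ h.symm.continuous.continuousOn⟩
  have near : ∀ w ∈ C, infDist w (S b) < δ' := fun w hw => by
    obtain ⟨hw', mw, hhw, hmw, _, _, hw2⟩ := fold_pt hs b δ' t ht hE' w (hCM w hw)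
    have h1 := infDist_le_dist_of_mem (x := w) (hw2 (hCO w hw))
    have h2 := hhw mw
    rw [hmw] at h2
    linarith
  have hO1 : ∀ z ∈ h.symm '' C, infDist z (S b) < δ := by
    rintro _ ⟨w, hw, rfl⟩
    have h1 := infDist_le_infDist_add_dist (s := S b) (x := h.symm w) (y := w)
    have h2 := hsy w
    have h3 := near w hw
    linarith
  have hO2 : ∀ z ∈ h.symm '' C, 20 * r < infDist z (S (!b)) := by
    rintro _ ⟨w, hw, rfl⟩
    have h1 := infDist_le_infDist_add_dist (s := S (!b)) (x := w) (y := h.symm w)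
    have h2 := hsy w
    rw [dist_comm] at h2
    have h3 := hCO w hw
    linarith
  have hO3 : ((h.symm '' C) ∩ S b).Nonempty := by
    refine ⟨m, ⟨x, hx, ?_⟩, hmS⟩
    rw [← hm]; exact h.symm_apply_apply m
  have hO4 : ((h.symm '' C) ∩ (g.trans h.symm) '' S b).Nonempty := by
    refine ⟨h.symm y, ⟨y, hy, rfl⟩, m2, hgS, ?_⟩
    show h.symm (g m2) = h.symm y
    rw [hgm]
  obtain ⟨D0, d1, d2, d3, d4⟩ := Hno _ _ hkc hOcc hO1 hO2 hO3 hO4
  refine ⟨h '' D0, ?_, d2.image _ h.continuous.continuousOn, ⟨m, d3 hmSp, hm⟩, ?_⟩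
  · rintro _ ⟨z, hz, rfl⟩
    have h0 : infDist z (Sp (!b)) ≤ 50 * r := d1 hz
    have h1 := infDist_le_infDist_add_dist (s := Sp (!b)) (x := h z) (y := z)
    have h2 := hh z
    show infDist (h z) (Sp (!b)) ≤ 100 * r
    linarith
  · refine ⟨h.symm y, d4 ⟨m2, hgSp, ?_⟩, h.apply_symm_apply y⟩
    show h.symm (g m2) = h.symm y
    rw [hgm]

end Pool.Agent.Helper499.HD
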