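import Pool.Agent.Helper499.HD.Defs
import Pool.Agent.Helper499.HD.B04
import Pool.Agent.Helper499.HD.B11
import Pool.Agent.Helper499.HD.B12

set_option autoImplicit false

namespace Pool.Agent.Helper499.HD

open Set Metric Topology

variable {X : Type} [MetricSpace X]






/-- the fold lemma at the identity -/
theorem fold0 [CompactSpace X] (hE : Eff X) {M : Set X} {S Sp : Bool → Set X} {r : ℝ}
    (hs : Setup M S Sp r) (b : Bool) (δ : ℝ) (hδ : 0 < δ) :
    ∃ (k : X ≃ₜ X) (O : Set X), Cl δ k ∧ CC O ∧ (∀ x ∈ O, infDist x (S b) < δ) ∧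
      (∀ x ∈ O, 20 * r < infDist x (S (!b))) ∧ (O ∩ S b).Nonempty ∧ (O ∩ k '' S b).Nonempty ∧
      ¬ Jn (nb (50 * r) (Sp (!b))) (Sp (!b)) (k '' Sp (!b)) := by
  by_contra hcon
  have Hno : ∀ (k : X ≃ₜ X) (O : Set X), Cl δ k → CC O → (∀ x ∈ O, infDist x (S b) < δ) →
      (∀ x ∈ O, 20 * r < infDist x (S (!b))) → (O ∩ S b).Nonempty → (O ∩ k '' S b).Nonempty →
      Jn (nb (50 * r) (Sp (!b))) (Sp (!b)) (k '' Sp (!b)) := by
    intro k O h1 h2 h3 h4 h5 h6
    by_contra h7
    exact hcon ⟨k, O, h1, h2, h3, h4, h5, h6, h7⟩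
  have hr := hs.pos
  set δ1 : ℝ := min (δ / 2) r with hδ1
  have hδ1pos : 0 < δ1 := lt_min (by linarith) hr
  have hδ1r : δ1 ≤ r := min_le_right _ _
  have hδ1δ : 2 * δ1 ≤ δ := by
    have := min_le_left (δ / 2) r
    linarith
  obtain ⟨η, hη, heff⟩ := hE δ1 hδ1pos
  set t : ℝ := min (η / 2) r with ht
  have htpos : 0 < t := lt_min (by linarith) hr
  have htr : t ≤ r := min_le_right _ _
  have htη : t < η := by
    have := min_le_left (η / 2) r
    linarith
  have hE' : ∀ x y : X, dist x y ≤ t → ∃ h : X ≃ₜ X, Cl δ1 h ∧ h x = y :=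
    fun x y hxy => heff x y (lt_of_le_of_lt hxy htη)
  set In : Set X := {x | infDist x M ≤ t ∧ infDist x (S (!b)) ≤ 40 * r} with hIn
  set Out : Set X := {x | infDist x M ≤ t ∧ 40 * r ≤ infDist x (S (!b))} with hOut
  have hInc : IsClosed In :=
    (isClosed_le (continuous_infDist_pt M) continuous_const).inter
      (isClosed_le (continuous_infDist_pt _) continuous_const)
  have hOutc : IsClosed Out :=
    (isClosed_le (continuous_infDist_pt M) continuous_const).inter
      (isClosed_le continuous_const (continuous_infDist_pt _))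
  set N0 : Set X := nb (100 * r) (Sp (!b)) with hN0
  have hN0c : IsClosed N0 := isClosed_le (continuous_infDist_pt _) continuous_const
  have hInN : In ⊆ N0 := by
    intro x hx
    obtain ⟨h, m, h1, h2, h3, h4, h5⟩ := fold_pt hs b δ1 t htr hE' x hx.1
    have hm := h4 hx.2
    show infDist x (Sp (!b)) ≤ 100 * r
    have h6 : infDist x (Sp (!b)) ≤ dist x m := infDist_le_dist_of_mem hm
    have h7 : dist (h m) m < δ1 := h1 m
    rw [h2] at h7
    linarith
  obtain ⟨p, hp⟩ := (hs.hS (!b)).2.nonempty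
  have hpSp : p ∈ Sp (!b) := hs.sub _ hp
  have hpM : p ∈ M := hs.subM _ hpSp
  have hSpN0 : Sp (!b) ⊆ N0 := by
    intro x hx
    show infDist x (Sp (!b)) ≤ 100 * r
    rw [infDist_zero_of_mem hx]
    positivity
  have hpIn : p ∈ In := by
    refine ⟨?_, ?_⟩
    · rw [infDist_zero_of_mem hpM]; exact htpos.le
    · rw [infDist_zero_of_mem hp]; positivity
  have hUo : IsOpen {x : X | infDist x M < t} :=
    isOpen_lt (continuous_infDist_pt M) continuous_const
  have hMU : M ⊆ {x : X | infDist x M < t} := by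
    intro x hx
    show infDist x M < t
    rw [infDist_zero_of_mem hx]; exact htpos
  obtain ⟨L, hLU, hLC, hML⟩ := hs.amp _ hUo hMU
  have hLt : ∀ x ∈ L, infDist x M ≤ t := fun x hx => le_of_lt (hLU hx)
  have hpL : p ∈ L := interior_subset (hML hpM)
  set D0 : Set X := connectedComponentIn N0 p with hD0
  have hSpD0 : Sp (!b) ⊆ D0 :=
    (hs.hSp (!b)).2.isPreconnected.subset_connectedComponentIn hpSp hSpN0
  have claim : L ∩ In ⊆ D0 := by
    rintro x0 ⟨hx0L, hx0In⟩
    by_contra hx0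
    have hcw := cutwire (N := N0) (A := Sp (!b)) (B := {x0}) hN0c (hs.hSp (!b)).1
      isClosed_singleton hSpN0 (by rintro y rfl; exact hInN hx0In) (by
        intro C hCN hCC hCA hCB
        obtain ⟨z, hzC, hzS⟩ := hCA
        obtain ⟨y, hyC, hyx⟩ := hCB
        have hyx' : y = x0 := hyx
        subst hyx'
        apply hx0
        have hun : IsPreconnected (C ∪ Sp (!b)) :=
          hCC.2.isPreconnected.union z hzC hzS (hs.hSp (!b)).2.isPreconnected
        have hsub : C ∪ Sp (!b) ⊆ D0 :=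
          hun.subset_connectedComponentIn (Or.inr hpSp) (union_subset hCN hSpN0)
        exact hsub (Or.inl hyC))
    obtain ⟨U, V, hU, hV, hUV, hdis, hAU, hBV⟩ := hcw
    have hx0V : x0 ∈ V := hBV rfl
    have hcw2 := cutwire (N := Out) (A := In ∩ Out ∩ U) (B := In ∩ Out ∩ V) hOutc
      ((hInc.inter hOutc).inter hU) ((hInc.inter hOutc).inter hV)
      (fun x hx => hx.1.2) (fun x hx => hx.1.2) (by
        intro C hCO hCC hCA hCB
        obtain ⟨x, hxC, ⟨hxIn, hxOut⟩, hxU⟩ := hCA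
        obtain ⟨y, hyC, ⟨hyIn, hyOut⟩, hyV⟩ := hCB
        obtain ⟨D, hDN, hDp, hxD, hyD⟩ := fold_pair hs b δ δ1 t hδ1r hδ1δ htr hE' Hno C hCC
          (fun z hz => (hCO hz).1) (fun z hz => (hCO hz).2) x y hxC hyC hxIn.2 hyIn.2
        obtain ⟨w, hwD, hwU, hwV⟩ := isPreconnected_closed_iff.1 hDp U V hU hV
          (by rw [hUV]; exact hDN) ⟨x, hxD, hxU⟩ ⟨y, hyD, hyV⟩
        exact Set.disjoint_left.1 hdis hwU hwV)
    obtain ⟨EU, EV, hEU, hEV, hEUV, hEdis, hAE, hBE⟩ := hcw2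
    have hEUO : EU ⊆ Out := by rw [← hEUV]; exact subset_union_left
    have hEVO : EV ⊆ Out := by rw [← hEUV]; exact subset_union_right
    have hZU : IsClosed ((In ∩ U) ∪ EU) := (hInc.inter hU).union hEU
    have hZV : IsClosed ((In ∩ V) ∪ EV) := (hInc.inter hV).union hEV
    have hcov : L ⊆ ((In ∩ U) ∪ EU) ∪ ((In ∩ V) ∪ EV) := by
      intro x hx
      rcases le_total (infDist x (S (!b))) (40 * r) with h | h
      · have hxIn : x ∈ In := ⟨hLt x hx, h⟩
        have hxN : x ∈ U ∪ V := by rw [hUV]; exact hInN hxIn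
        rcases hxN with h1 | h1
        · exact Or.inl (Or.inl ⟨hxIn, h1⟩)
        · exact Or.inr (Or.inl ⟨hxIn, h1⟩)
      · have hxO : x ∈ EU ∪ EV := by rw [hEUV]; exact ⟨hLt x hx, h⟩
        rcases hxO with h1 | h1
        · exact Or.inl (Or.inr h1)
        · exact Or.inr (Or.inr h1)
    obtain ⟨z, hzL, hz1, hz2⟩ := isPreconnected_closed_iff.1 hLC.2.isPreconnected _ _ hZU hZV hcov
      ⟨p, hpL, Or.inl ⟨hpIn, hAU hpSp⟩⟩ ⟨x0, hx0L, Or.inl ⟨hx0In, hx0V⟩⟩
    rcases hz1 with ⟨hzI, hzU⟩ | hzE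
    · rcases hz2 with ⟨_, hzV⟩ | hzE'
      · exact Set.disjoint_left.1 hdis hzU hzV
      · exact Set.disjoint_left.1 hEdis (hAE ⟨⟨hzI, hEVO hzE'⟩, hzU⟩) hzE'
    · rcases hz2 with ⟨hzI, hzV⟩ | hzE'
      · exact Set.disjoint_left.1 hEdis hzE (hBE ⟨⟨hzI, hEUO hzE⟩, hzV⟩)
      · exact Set.disjoint_left.1 hEdis hzE hzE'
  have hthin := hs.thin (!b) D0 (connectedComponentIn_subset _ _)
    isPreconnected_connectedComponentIn hSpD0
  have hW : IsOpen (interior L ∩ {x : X | infDist x (S (!b)) < 40 * r}) :=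
    isOpen_interior.inter (isOpen_lt (continuous_infDist_pt _) continuous_const)
  have hWsub : interior L ∩ {x : X | infDist x (S (!b)) < 40 * r} ⊆ D0 := by
    rintro x ⟨hx1, hx2⟩
    exact claim ⟨interior_subset hx1, hLt x (interior_subset hx1), le_of_lt hx2⟩
  have hpW : p ∈ interior L ∩ {x : X | infDist x (S (!b)) < 40 * r} := by
    refine ⟨hML hpM, ?_⟩
    show infDist p (S (!b)) < 40 * r
    rw [infDist_zero_of_mem hp]; positivity
  have : p ∈ interior D0 := interior_maximal hWsub hW hpW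
  rw [hthin] at this
  exact this

end Pool.Agent.Helper499.HD
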