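import Pool.Agent.Helper499.HD.Defs
import Pool.Agent.Helper499.HD.B13

set_option autoImplicit false

namespace Pool.Agent.Helper499.HD

open Set Metric Topology

variable {X : Type} [MetricSpace X]




/-- the fold lemma at a strand `g` -/
theorem fold [CompactSpace X] (hE : Eff X) {M : Set X} {S Sp : Bool → Set X} {r : ℝ}
    (hs : Setup M S Sp r) (b : Bool) (g : X ≃ₜ X) (hg : Cl r g) (δ : ℝ) (hδ : 0 < δ) :
    ∃ (k : X ≃ₜ X) (O : Set X), Cl δ k ∧ CC O ∧ (∀ x ∈ O, infDist x (g '' S b) < δ) ∧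
      (∀ x ∈ O, infDist x (S b) < 5 * r) ∧ (∀ x ∈ O, 10 * r < infDist x (S (!b))) ∧
      (O ∩ g '' S b).Nonempty ∧ (O ∩ g.trans k '' S b).Nonempty ∧
      ¬ EE Sp r (!b) g (g.trans k) := by
  have hr : 0 < r := hs.pos
  obtain ⟨d1, hd1, hu⟩ := Metric.uniformContinuous_iff.mp
    (CompactSpace.uniformContinuous_of_continuous g.continuous) δ hδ
  obtain ⟨k0, O0, hk0, hO0, hnear, hfar, ⟨z1, hz1, hz1'⟩, ⟨z2, hz2, ⟨s2, hs2, hs2'⟩⟩, hJ⟩ :=
    fold0 hE hs b (min d1 r) (lt_min hd1 hr)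
  have hk : ∀ z, ((g.symm.trans k0).trans g) (g z) = g (k0 z) := by
    intro z
    simp
  have hkt : ∀ z, (g.trans ((g.symm.trans k0).trans g)) z = g (k0 z) := by
    intro z
    simp
  refine ⟨(g.symm.trans k0).trans g, g '' O0, ?_, ⟨g.isClosed_image.mpr hO0.1,
    hO0.2.image g g.continuous.continuousOn⟩, ?_, ?_, ?_, ⟨g z1, ⟨z1, hz1, rfl⟩, ⟨z1, hz1', rfl⟩⟩,
    ⟨g z2, ⟨z2, hz2, rfl⟩, ⟨s2, hs2, ?_⟩⟩, ?_⟩
  · intro w
    obtain ⟨z, rfl⟩ := g.surjective w
    rw [hk]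
    exact hu ((hk0 z).trans_le (min_le_left _ _))
  · rintro x ⟨z, hz, rfl⟩
    have h1 := hnear z hz
    rw [infDist_lt_iff (hs.hS b).2.nonempty] at h1
    obtain ⟨s, hsb, hzs⟩ := h1
    have h4 : g s ∈ g '' S b := ⟨s, hsb, rfl⟩
    exact (infDist_le_dist_of_mem h4).trans_lt (hu (hzs.trans_le (min_le_left _ _)))
  · rintro x ⟨z, hz, rfl⟩
    have h1 := (hnear z hz).trans_le (min_le_right _ _)
    have h2 : infDist (g z) (S b) ≤ infDist z (S b) + dist (g z) z := infDist_le_infDist_add_dist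
    have h3 := hg z
    linarith
  · rintro x ⟨z, hz, rfl⟩
    have h1 := hfar z hz
    have h2 : infDist z (S !b) ≤ infDist (g z) (S !b) + dist z (g z) := infDist_le_infDist_add_dist
    have h3 := hg z
    rw [dist_comm] at h3
    linarith
  · rw [hkt, hs2']
  · rintro ⟨C, hC1, hC2, hC3, hC4⟩
    apply hJ
    refine ⟨g.symm '' C, ?_, hC2.image g.symm g.symm.continuous.continuousOn, ?_, ?_⟩
    · rintro _ ⟨w, hw, rfl⟩
      have h1 : infDist w (Sp !b) ≤ 10 * r := hC1 hw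
      have h2 : infDist (g.symm w) (Sp !b) ≤ infDist w (Sp !b) + dist (g.symm w) w :=
        infDist_le_infDist_add_dist
      have h3 := hg (g.symm w)
      rw [g.apply_symm_apply, dist_comm] at h3
      show infDist (g.symm w) (Sp !b) ≤ 50 * r
      linarith
    · intro z hz
      exact ⟨g z, hC3 ⟨z, hz, rfl⟩, g.symm_apply_apply z⟩
    · rintro _ ⟨z, hz, rfl⟩
      refine ⟨g (k0 z), ?_, g.symm_apply_apply _⟩
      have := hC4 ⟨z, hz, rfl⟩
      rwa [hkt] at this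

end Pool.Agent.Helper499.HD
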