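import Pool.Agent.Helper499.HD.Defs

set_option autoImplicit false

namespace Pool.Agent.Helper499.HD

open Set Metric Topology

variable {X : Type} [MetricSpace X]


theorem strand_nb {S Sp : Bool → Set X} {r : ℝ} (hr : 0 < r) (b : Bool)
    (g : X ≃ₜ X) (hg : Cl r g) : g '' Sp b ⊆ nb (10 * r) (Sp b) := by
  rintro _ ⟨z, hz, rfl⟩
  have h1 := infDist_le_dist_of_mem (x := g z) hz
  have h2 := hg z
  show infDist (g z) (Sp b) ≤ 10 * r
  linarith

theorem ee_refl {M : Set X} {S Sp : Bool → Set X} {r : ℝ} (hs : Setup M S Sp r) (b : Bool)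
    (g : X ≃ₜ X) (hg : Cl r g) : EE Sp r b g g := by
  exact ⟨g '' Sp b, strand_nb (S := S) hs.pos b g hg, ((hs.hSp b).2.image _ g.continuous.continuousOn).isPreconnected,
    subset_rfl, subset_rfl⟩

theorem ee_join [CompactSpace X] {M : Set X} {S Sp : Bool → Set X} {r : ℝ}
    (hs : Setup M S Sp r) (b : Bool) (g h : X ≃ₜ X) (hg : Cl r g) (hh : Cl r h) (O : Set X)
    (hO : IsPreconnected O) (hn : ∀ x ∈ O, infDist x (S b) < 5 * r)
    (h1 : (O ∩ g '' S b).Nonempty) (h2 : (O ∩ h '' S b).Nonempty) : EE Sp r b g h := by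
  have hr := hs.pos
  obtain ⟨p, hpO, hpg⟩ := h1
  obtain ⟨q, hqO, hqh⟩ := h2
  have hpg' : p ∈ g '' Sp b := image_mono (hs.sub b) hpg
  have hqh' : q ∈ h '' Sp b := image_mono (hs.sub b) hqh
  have c1 : IsPreconnected (g '' Sp b) := ((hs.hSp b).2.image _ g.continuous.continuousOn).isPreconnected
  have c2 : IsPreconnected (h '' Sp b) := ((hs.hSp b).2.image _ h.continuous.continuousOn).isPreconnected
  have c3 : IsPreconnected (g '' Sp b ∪ O) := c1.union p hpg' hpO hO
  have c4 : IsPreconnected ((g '' Sp b ∪ O) ∪ h '' Sp b) := c3.union q (Or.inr hqO) hqh' c2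
  refine ⟨(g '' Sp b ∪ O) ∪ h '' Sp b, ?_, c4, fun x hx => Or.inl (Or.inl hx), fun x hx => Or.inr hx⟩
  rintro x ((hx | hx) | hx)
  · exact strand_nb (S := S) hr b g hg hx
  · have h3 := hn x hx
    have h4 := infDist_le_infDist_of_subset (x := x) (hs.sub b) (hs.hS b).2.nonempty
    show infDist x (Sp b) ≤ 10 * r
    linarith
  · exact strand_nb (S := S) hr b h hh hx

theorem ee_same [CompactSpace X] {M : Set X} {S Sp : Bool → Set X} {r : ℝ}
    (hs : Setup M S Sp r) (b : Bool) (g h : X ≃ₜ X) (hg : Cl r g) (hh : Cl r h)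
    (h1 : (g '' S b ∩ h '' S b).Nonempty) : EE Sp r b g h := by
  have hr := hs.pos
  obtain ⟨p, hpg, hph⟩ := h1
  refine ee_join hs b g h hg hh {p} isPreconnected_singleton ?_ ⟨p, rfl, hpg⟩ ⟨p, rfl, hph⟩
  rintro x rfl
  have := strand_near hs b g hg x hpg
  linarith

end Pool.Agent.Helper499.HD
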