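import Pool.Agent.Helper499.HD.Defs

set_option autoImplicit false

namespace Pool.Agent.Helper499.HD

open Set Metric Topology

variable {X : Type} [MetricSpace X]

theorem eeo_mk {S Sp : Bool → Set X} {M : Set X} {r : ℝ} (hs : Setup M S Sp r) (b : Bool)
    (g h : X ≃ₜ X) (hg : Cl r g) (hh : Cl r h) (x : X) (h1 : x ∈ g '' Sp b)
    (h2 : x ∈ h '' Sp b) : EE Sp r b g h := by
  have hr := hs.pos
  refine ⟨g '' Sp b ∪ h '' Sp b, ?_, ?_, subset_union_left, subset_union_right⟩
  · rintro y (⟨z, hz, rfl⟩ | ⟨z, hz, rfl⟩)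
    · have h3 := infDist_le_dist_of_mem (x := g z) hz
      have h4 := hg z
      change infDist (g z) (Sp b) ≤ 10 * r
      linarith
    · have h3 := infDist_le_dist_of_mem (x := h z) hz
      have h4 := hh z
      change infDist (h z) (Sp b) ≤ 10 * r
      linarith
  · exact IsPreconnected.union x h1 h2
      ((hs.hSp b).2.isPreconnected.image g g.continuous.continuousOn)
      ((hs.hSp b).2.isPreconnected.image h h.continuous.continuousOn)


theorem ee_opp [CompactSpace X] {M : Set X} {S Sp : Bool → Set X} {r : ℝ}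
    (hs : Setup M S Sp r) (b : Bool) (g h : X ≃ₜ X) (hg : Cl r g) (hh : Cl r h)
    (h1 : (g '' S b ∩ h '' S (!b)).Nonempty) : EE Sp r b g h ∧ EE Sp r (!b) g h := by
  obtain ⟨x, ⟨u, hu, hux⟩, ⟨v, hv, hvx⟩⟩ := h1
  have hr := hs.pos
  have huM : u ∈ M := by rw [hs.un b]; exact Or.inl hu
  have hvM : v ∈ M := by rw [hs.un b]; exact Or.inr hv
  have h3 : dist u v < 2 * r := by
    have h4 := dist_triangle u (g u) v
    have h5 := hg u
    have h6 := hh v
    rw [dist_comm] at h5
    rw [hux] at h4 h5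
    rw [hvx] at h6
    linarith
  have h4 : infDist v (S b) ≤ 100 * r := by
    have := infDist_le_dist_of_mem (x := v) hu
    rw [dist_comm] at this
    linarith
  have h5 : infDist u (S (!b)) ≤ 100 * r := by
    have := infDist_le_dist_of_mem (x := u) hv
    linarith
  constructor
  · exact eeo_mk hs b g h hg hh x ⟨u, hs.sub b hu, hux⟩ ⟨v, hs.nbd b v hvM h4, hvx⟩
  · exact eeo_mk hs (!b) g h hg hh x ⟨u, hs.nbd (!b) u huM h5, hux⟩ ⟨v, hs.sub (!b) hv, hvx⟩

theorem ee_cross [CompactSpace X] {M : Set X} {S Sp : Bool → Set X} {r : ℝ}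
    (hs : Setup M S Sp r) (g h : X ≃ₜ X) (hg : Cl r g) (hh : Cl r h) (x : X)
    (h1 : x ∈ g '' S false) (h2 : x ∈ h '' S false) (h3 : infDist x (S true) < 10 * r) :
    EE Sp r true g h := by
  obtain ⟨u, hu, hux⟩ := h1
  obtain ⟨v, hv, hvx⟩ := h2
  have hr := hs.pos
  have huM : u ∈ M := by rw [hs.un false]; exact Or.inl hu
  have hvM : v ∈ M := by rw [hs.un false]; exact Or.inl hv
  have h4 : infDist u (S true) ≤ 100 * r := by
    have h5 := infDist_le_infDist_add_dist (s := S true) (x := u) (y := x)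
    have h6 := hg u
    rw [hux, dist_comm] at h6
    linarith
  have h5 : infDist v (S true) ≤ 100 * r := by
    have h5 := infDist_le_infDist_add_dist (s := S true) (x := v) (y := x)
    have h6 := hh v
    rw [hvx, dist_comm] at h6
    linarith
  exact eeo_mk hs true g h hg hh x ⟨u, hs.nbd true u huM h4, hux⟩ ⟨v, hs.nbd true v hvM h5, hvx⟩

end Pool.Agent.Helper499.HD
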