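import Pool.Agent.Helper499.HD.Defs
import Pool.Agent.Helper499.HD.B04

set_option autoImplicit false

namespace Pool.Agent.Helper499.HD

open Set Metric Topology

variable {X : Type} [MetricSpace X]




theorem img_sub352 {Sp : Bool → Set X} {r : ℝ} (hr : 0 < r) (b : Bool) (g : X ≃ₜ X)
    (hg : Cl r g) : g '' Sp b ⊆ nb (10 * r) (Sp b) := by
  rintro _ ⟨z, hz, rfl⟩
  have h1 : infDist (g z) (Sp b) ≤ dist (g z) z := infDist_le_dist_of_mem hz
  have h2 := hg z
  show infDist (g z) (Sp b) ≤ 10 * r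
  linarith

theorem ee_open [CompactSpace X] {M : Set X} {S Sp : Bool → Set X} {r : ℝ}
    (hs : Setup M S Sp r) (b : Bool) (g h : X ≃ₜ X) (hg : Cl r g) (hh : Cl r h)
    (H : ¬ EE Sp r b g h) :
    ∃ η > 0, ∀ k k' : X ≃ₜ X, Cl η k → Cl η k' → ¬ EE Sp r b (g.trans k) (h.trans k') := by
  have hr := hs.pos
  have hNc : IsClosed (nb (10 * r) (Sp b)) :=
    isClosed_le (continuous_infDist_pt _) continuous_const
  have hAc : IsClosed (g '' Sp b) := g.isClosedMap _ (hs.hSp b).1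
  have hBc : IsClosed (h '' Sp b) := h.isClosedMap _ (hs.hSp b).1
  have hAN := img_sub352 (Sp := Sp) hr b g hg
  have hBN := img_sub352 (Sp := Sp) hr b h hh
  obtain ⟨z, hz⟩ := (hs.hSp b).2.nonempty
  have hAp : IsPreconnected (g '' Sp b) :=
    (hs.hSp b).2.isPreconnected.image g g.continuous.continuousOn
  have hBp : IsPreconnected (h '' Sp b) :=
    (hs.hSp b).2.isPreconnected.image h h.continuous.continuousOn
  obtain ⟨U, V, hU, hV, hUV, hd, hAU, hBV⟩ := cutwire hNc hAc hBc hAN hBN (by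
    rintro C hC hCC ⟨x, hxC, hxA⟩ ⟨y, hyC, hyB⟩
    refine H ⟨(C ∪ g '' Sp b) ∪ h '' Sp b, union_subset (union_subset hC hAN) hBN,
      ?_, subset_union_right.trans subset_union_left, subset_union_right⟩
    exact (hCC.2.isPreconnected.union x hxC hxA hAp).union y (Or.inl hyC) hyB hBp)
  obtain ⟨δ, hδ, hdis⟩ := hd.exists_thickenings hU.isCompact hV
  have hfar : ∀ u ∈ U, ∀ v ∈ V, dist v u < δ → False := by
    intro u hu v hv huv
    refine Set.disjoint_left.1 hdis (mem_thickening_iff.2 ⟨u, hu, huv⟩)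
      (self_subset_thickening hδ _ hv)
  refine ⟨δ, hδ, ?_⟩
  rintro k k' hk hk' ⟨C, hCN, hCp, hC1, hC2⟩
  have h1 : k (g z) ∈ C := hC1 ⟨z, hz, rfl⟩
  have h2 : k' (h z) ∈ C := hC2 ⟨z, hz, rfl⟩
  have hCUV : C ⊆ U ∪ V := by rw [hUV]; exact hCN
  have h3 : k (g z) ∈ U := by
    rcases hCUV h1 with h | h
    · exact h
    · exact (hfar (g z) (hAU ⟨z, hz, rfl⟩) _ h (hk _)).elim
  have h4 : k' (h z) ∈ V := by
    rcases hCUV h2 with h' | h'
    · refine (hfar _ h' (h z) (hBV ⟨z, hz, rfl⟩) ?_).elim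
      rw [dist_comm]
      exact hk' _
    · exact h'
  obtain ⟨w, -, hw1, hw2⟩ := isPreconnected_closed_iff.1 hCp U V hU hV hCUV ⟨_, h1, h3⟩ ⟨_, h2, h4⟩
  exact Set.disjoint_left.1 hd hw1 hw2

end Pool.Agent.Helper499.HD
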