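import Pool.Agent.Helper499.HD.Defs

set_option autoImplicit false

namespace Pool.Agent.Helper499.HD

open Set Metric Topology

variable {X : Type} [MetricSpace X]


theorem cl_slack [CompactSpace X] (δ : ℝ) (g : X ≃ₜ X) (hg : Cl δ g) :
    ∃ η > 0, ∀ k : X ≃ₜ X, Cl η k → Cl δ (g.trans k) := by
  rcases isEmpty_or_nonempty X with hX | hX
  · exact ⟨1, one_pos, fun k _ z => (hX.false z).elim⟩
  · have hcont : Continuous fun z => dist (g z) z := g.continuous.dist continuous_id
    obtain ⟨m, -, hm⟩ := isCompact_univ.exists_isMaxOn univ_nonempty hcont.continuousOn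
    refine ⟨δ - dist (g m) m, sub_pos.2 (hg m), fun k hk z => ?_⟩
    have h1 : dist (g z) z ≤ dist (g m) m := hm (mem_univ z)
    have h2 := hk (g z)
    have h3 := dist_triangle (k (g z)) (g z) z
    show dist (k (g z)) z < δ
    linarith

end Pool.Agent.Helper499.HD
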