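import Pool.Agent.Helper499.HD.Defs
import Pool.Agent.Helper499.HD.B17
import Pool.Agent.Helper499.HD.B18

set_option autoImplicit false

namespace Pool.Agent.Helper499.HD

open Set Metric Topology

variable {X : Type} [MetricSpace X]





theorem copy_delta_ev (P : ℝ → Prop) (η : ℝ) (hη : 0 < η) (hP : P η)
    (hmono : ∀ a b : ℝ, a ≤ b → P b → P a) : ∀ᶠ x in 𝓝[>] (0:ℝ), P x := by
  filter_upwards [Ioc_mem_nhdsGT hη] with x hx
  exact hmono x η hx.2 hP

theorem copy_delta_cl {a b : ℝ} (hab : a ≤ b) {k : X ≃ₜ X} (h : Cl a k) : Cl b k :=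
  fun z => lt_of_lt_of_le (h z) hab

/-- the choice of `δ` for a parallel copy -/
theorem copy_delta [CompactSpace X] {M : Set X} {S Sp : Bool → Set X} {r : ℝ}
    (hs : Setup M S Sp r) {n : ℕ} {g : ℕ → X ≃ₜ X} {O : ℕ → Set X} {σ : ℕ → Bool}
    (hp : PathS S Sp r n g O σ) (δ0 : ℝ) (hδ0 : 0 < δ0) :
    ∃ δ > 0, δ ≤ δ0 ∧ (∀ j ≤ n, ∀ k : X ≃ₜ X, Cl δ k → Cl r ((g j).trans k)) ∧
      (∀ i < n, ∀ k : X ≃ₜ X, Cl δ k → ∀ x ∈ O i, infDist (k x) (S (σ i)) < 5 * r ∧
        10 * r < infDist (k x) (S (!(σ i)))) ∧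
      (∀ b, ∀ i ≤ n, ∀ j ≤ n, ¬ EE Sp r b (g i) (g j) → ∀ k k' : X ≃ₜ X, Cl δ k → Cl δ k' →
        ¬ EE Sp r b ((g i).trans k) ((g j).trans k')) := by
  have h1 : ∀ᶠ δ in 𝓝[>] (0:ℝ), ∀ j ∈ Finset.range (n + 1), ∀ k : X ≃ₜ X, Cl δ k →
      Cl r ((g j).trans k) := by
    rw [Filter.eventually_all_finset]
    intro j hj
    obtain ⟨η, hη, h⟩ := cl_slack r (g j) (hp.small j (by simpa [Nat.lt_succ_iff] using hj))
    exact copy_delta_ev _ η hη h (fun a b hab H k hk => H k (copy_delta_cl hab hk))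
  have h2 : ∀ᶠ δ in 𝓝[>] (0:ℝ), ∀ i ∈ Finset.range n, ∀ k : X ≃ₜ X, Cl δ k → ∀ x ∈ O i,
      infDist (k x) (S (σ i)) < 5 * r ∧ 10 * r < infDist (k x) (S (!(σ i))) := by
    rw [Filter.eventually_all_finset]
    intro i hi
    have hi' : i < n := Finset.mem_range.1 hi
    have hcomp : IsCompact (O i) := (hp.cc i hi').1.isCompact
    have hne : (O i).Nonempty := (hp.cc i hi').2.nonempty
    obtain ⟨x1, hx1, hmax⟩ := hcomp.exists_isMaxOn hne
      (continuous_infDist_pt (S (σ i))).continuousOn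
    obtain ⟨x2, hx2, hmin⟩ := hcomp.exists_isMinOn hne
      (continuous_infDist_pt (S (!(σ i)))).continuousOn
    have a1 := hp.near i hi' x1 hx1
    have a2 := hp.far i hi' x2 hx2
    have hη : 0 < min (5 * r - infDist x1 (S (σ i))) (infDist x2 (S (!(σ i))) - 10 * r) :=
      lt_min (by linarith) (by linarith)
    refine copy_delta_ev _ _ hη ?_ (fun a b hab H k hk => H k (copy_delta_cl hab hk))
    intro k hk x hx
    have b1 : infDist x (S (σ i)) ≤ infDist x1 (S (σ i)) := hmax hx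
    have b2 : infDist x2 (S (!(σ i))) ≤ infDist x (S (!(σ i))) := hmin hx
    have b3 := hk x
    have b4 := lt_of_lt_of_le b3 (min_le_left _ _)
    have b5 := lt_of_lt_of_le b3 (min_le_right _ _)
    have b6 : infDist (k x) (S (σ i)) ≤ infDist x (S (σ i)) + dist (k x) x :=
      infDist_le_infDist_add_dist
    have b7 : infDist x (S (!(σ i))) ≤ infDist (k x) (S (!(σ i))) + dist x (k x) :=
      infDist_le_infDist_add_dist
    rw [dist_comm x (k x)] at b7
    constructor <;> linarith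
  have h3 : ∀ᶠ δ in 𝓝[>] (0:ℝ), ∀ b : Bool, ∀ i ∈ Finset.range (n + 1), ∀ j ∈ Finset.range (n + 1),
      ¬ EE Sp r b (g i) (g j) → ∀ k k' : X ≃ₜ X, Cl δ k → Cl δ k' →
        ¬ EE Sp r b ((g i).trans k) ((g j).trans k') := by
    rw [Filter.eventually_all]
    intro b
    rw [Filter.eventually_all_finset]
    intro i hi
    rw [Filter.eventually_all_finset]
    intro j hj
    by_cases H : EE Sp r b (g i) (g j)
    · exact Filter.Eventually.of_forall (fun δ h => absurd H h)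
    · obtain ⟨η, hη, h⟩ := ee_open hs b (g i) (g j)
        (hp.small i (by simpa [Nat.lt_succ_iff] using hi))
        (hp.small j (by simpa [Nat.lt_succ_iff] using hj)) H
      exact copy_delta_ev _ η hη (fun _ => h) (fun a b hab H hh k k' hk hk' =>
        H hh k k' (copy_delta_cl hab hk) (copy_delta_cl hab hk'))
  have h4 : ∀ᶠ δ in 𝓝[>] (0:ℝ), 0 < δ ∧ δ ≤ δ0 := Ioc_mem_nhdsGT hδ0
  obtain ⟨δ, ⟨hδ, hδ'⟩, c1, c2, c3⟩ := (h4.and (h1.and (h2.and h3))).exists
  refine ⟨δ, hδ, hδ', ?_, ?_, ?_⟩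
  · intro j hj
    exact c1 j (by simpa [Nat.lt_succ_iff] using hj)
  · intro i hi
    exact c2 i (Finset.mem_range.2 hi)
  · intro b i hi j hj
    exact c3 b i (by simpa [Nat.lt_succ_iff] using hi) j (by simpa [Nat.lt_succ_iff] using hj)

end Pool.Agent.Helper499.HD
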