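import Pool.Agent.Helper499.HD.Defs
import Pool.Agent.Helper499.HD.B14
import Pool.Agent.Helper499.HD.B17
import Pool.Agent.Helper499.HD.B18

set_option autoImplicit false

namespace Pool.Agent.Helper499.HD

open Set Metric Topology

variable {X : Type} [MetricSpace X]






/-- one adjustment step -/
theorem copy_step [CompactSpace X] (hE : Eff X) {M : Set X} {S Sp : Bool → Set X} {r : ℝ}
    (hs : Setup M S Sp r) (b : Bool) (g κ : X ≃ₜ X) (δ : ℝ) (hδ : 0 < δ) (hg : Cl r g)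
    (hκ : Cl δ κ) (hgκ : Cl r (g.trans κ)) :
    ∃ (k : X ≃ₜ X) (O : Set X), Cl δ (κ.trans k) ∧ CC O ∧
      (∀ x ∈ O, infDist x (g.trans κ '' S b) < δ) ∧ (∀ x ∈ O, infDist x (S b) < 5 * r) ∧
      (∀ x ∈ O, 10 * r < infDist x (S (!b))) ∧ (O ∩ g.trans κ '' S b).Nonempty ∧
      (O ∩ g.trans (κ.trans k) '' S b).Nonempty ∧
      ¬ EE Sp r (!b) (g.trans κ) (g.trans (κ.trans k)) ∧
      ¬ EE Sp r (!b) g (g.trans (κ.trans k)) := by
  have mono : ∀ {a c : ℝ} {k : X ≃ₜ X}, Cl a k → a ≤ c → Cl c k :=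
    fun h hac z => lt_of_lt_of_le (h z) hac
  have assoc : ∀ k : X ≃ₜ X, (g.trans κ).trans k = g.trans (κ.trans k) := fun k => rfl
  have grefl : g.trans (Homeomorph.refl X) = g := by
    ext x
    rfl
  obtain ⟨η1, hη1, hs1⟩ := cl_slack δ κ hκ
  by_cases H : EE Sp r (!b) g (g.trans κ)
  · obtain ⟨k, O, hk, hO, h1, h2, h3, h4, h5, h6⟩ :=
      fold hE hs b (g.trans κ) hgκ (min δ η1) (lt_min hδ hη1)
    refine ⟨k, O, hs1 k (mono hk (min_le_right _ _)), hO,
      fun x hx => lt_of_lt_of_le (h1 x hx) (min_le_left _ _), h2, h3, h4, ?_, ?_, ?_⟩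
    · rw [← assoc]; exact h5
    · rw [← assoc]; exact h6
    · rw [← assoc]
      intro H'
      exact h6 (ee_trans hs (ee_symm H) H')
  · obtain ⟨η2, hη2, ho⟩ := ee_open hs (!b) g (g.trans κ) hg hgκ H
    obtain ⟨k, O, hk, hO, h1, h2, h3, h4, h5, h6⟩ :=
      fold hE hs b (g.trans κ) hgκ (min (min δ η1) η2) (lt_min (lt_min hδ hη1) hη2)
    refine ⟨k, O, hs1 k (mono hk ((min_le_left _ _).trans (min_le_right _ _))), hO,
      fun x hx => lt_of_lt_of_le (h1 x hx) ((min_le_left _ _).trans (min_le_left _ _)), h2, h3,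
      h4, ?_, ?_, ?_⟩
    · rw [← assoc]; exact h5
    · rw [← assoc]; exact h6
    · rw [← assoc]
      have h7 := ho (Homeomorph.refl X) k (fun z => by simpa using hη2)
        (mono hk (min_le_right _ _))
      rw [grefl] at h7
      exact h7

end Pool.Agent.Helper499.HD
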