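import Pool.Agent.Helper499.HD.Defs
import Pool.Agent.Helper499.HD.B14
import Pool.Agent.Helper499.HD.B19
import Pool.Agent.Helper499.HD.B20

set_option autoImplicit false

namespace Pool.Agent.Helper499.HD

open Set Metric Topology

variable {X : Type} [MetricSpace X]

theorem copy_exists [CompactSpace X] (hE : Eff X) {M : Set X} {S Sp : Bool → Set X} {r : ℝ}
    (hs : Setup M S Sp r) {n : ℕ} {g : ℕ → X ≃ₜ X} {O : ℕ → Set X} {σ : ℕ → Bool}
    (hp : PathS S Sp r n g O σ) (δ0 : ℝ) (hδ0 : 0 < δ0) :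
    ∃ δ > 0, δ ≤ δ0 ∧ ∃ (κ : ℕ → X ≃ₜ X) (Oc : ℕ → Set X) (Of : Set X),
      Copy S Sp r n g O σ δ κ Oc Of := by
  obtain ⟨δ, hδ, hδle, ha, hb, hc⟩ := copy_delta hs hp δ0 hδ0
  refine ⟨δ, hδ, hδle, ?_⟩
  obtain ⟨κ0, Of, h0, h1, h2, h3, h4, h5, h6, h7⟩ :=
    fold hE hs false (g 0) (hp.small 0 (Nat.zero_le _)) δ hδ
  have step : ∀ (i : ℕ) (κ : {κ : X ≃ₜ X // Cl δ κ}), ∃ (κ' : {κ : X ≃ₜ X // Cl δ κ})
      (O' : Set X), i < n → (CC O' ∧
      (∀ x ∈ O', infDist x ((g (i + 1)).trans κ.1 '' S (σ i)) < δ) ∧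
      (∀ x ∈ O', infDist x (S (σ i)) < 5 * r) ∧
      (∀ x ∈ O', 10 * r < infDist x (S (!(σ i)))) ∧
      (O' ∩ (g (i + 1)).trans κ.1 '' S (σ i)).Nonempty ∧
      (O' ∩ (g (i + 1)).trans κ'.1 '' S (σ i)).Nonempty ∧
      ¬ EE Sp r (!(σ i)) ((g (i + 1)).trans κ.1) ((g (i + 1)).trans κ'.1) ∧
      ¬ EE Sp r (!(σ i)) (g (i + 1)) ((g (i + 1)).trans κ'.1)) := by
    intro i κ
    by_cases hi : i < n
    · obtain ⟨k, O', k1, k2, k3, k4, k5, k6, k7, k8, k9⟩ :=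
        copy_step hE hs (σ i) (g (i + 1)) κ.1 δ hδ (hp.small (i + 1) hi) κ.2
          (ha (i + 1) hi κ.1 κ.2)
      exact ⟨⟨κ.1.trans k, k1⟩, O', fun _ => ⟨k2, k3, k4, k5, k6, k7, k8, k9⟩⟩
    · exact ⟨κ, ∅, fun h => absurd h hi⟩
  choose nx Oc' hst using step
  let κs : ℕ → {κ : X ≃ₜ X // Cl δ κ} := fun i => Nat.rec ⟨κ0, h0⟩ (fun i κ => nx i κ) i
  have hκ0 : (κs 0).1 = κ0 := rfl
  have hκs : ∀ i, κs (i + 1) = nx i (κs i) := fun i => rfl
  refine ⟨fun i => (κs i).1, fun i => Oc' i (κs i), Of, ?_⟩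
  exact
    { kc := fun i _ => (κs i).2
      kg := fun i _ j hj => ha j hj _ (κs i).2
      f_cc := h1
      f_near := h2
      f_near' := h3
      f_far := by simpa using h4
      f_l := h5
      f_r := h6
      c_cc := fun i hi => (hst i (κs i) hi).1
      c_near := fun i hi => (hst i (κs i) hi).2.1
      c_near' := fun i hi => (hst i (κs i) hi).2.2.1
      c_far := fun i hi => (hst i (κs i) hi).2.2.2.1
      c_l := fun i hi => (hst i (κs i) hi).2.2.2.2.1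
      c_r := fun i hi => (hst i (κs i) hi).2.2.2.2.2.1
      o_near := fun i hi x hx => (hb i hi _ (κs i).2 x hx).1
      o_far := fun i hi x hx => (hb i hi _ (κs i).2 x hx).2
      k0 := h7
      ka := fun i hi => (hst i (κs i) hi).2.2.2.2.2.2.2
      kd := fun i hi => (hst i (κs i) hi).2.2.2.2.2.2.1
      opn := hc }

end Pool.Agent.Helper499.HD
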