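import Pool.Agent.Helper499.HD.Defs
import Pool.Agent.Helper499.HD.B15

set_option autoImplicit false

namespace Pool.Agent.Helper499.HD

open Set Metric Topology

variable {X : Type} [MetricSpace X]




/-- consecutive strands are in the same class -/
theorem copy_ee [CompactSpace X] {M : Set X} {S Sp : Bool → Set X} {r : ℝ}
    (hs : Setup M S Sp r) {n : ℕ} {g : ℕ → X ≃ₜ X} {O : ℕ → Set X} {σ : ℕ → Bool}
    (hp : PathS S Sp r n g O σ) {δ : ℝ} {κ : ℕ → X ≃ₜ X} {Oc : ℕ → Set X} {Of : Set X}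
    (hc : Copy S Sp r n g O σ δ κ Oc Of) :
    EE Sp r false (g 0) ((g 0).trans (κ 0)) ∧ ∀ i < n, EE Sp r (σ i) (g i) (g (i + 1)) ∧
      EE Sp r (σ i) ((g i).trans (κ i)) ((g (i + 1)).trans (κ i)) ∧
      EE Sp r (σ i) ((g (i + 1)).trans (κ i)) ((g (i + 1)).trans (κ (i + 1))) := by
  refine ⟨?_, ?_⟩
  · exact ee_join hs false (g 0) ((g 0).trans (κ 0)) (hp.small 0 (Nat.zero_le n))
      (hc.kg 0 (Nat.zero_le n) 0 (Nat.zero_le n)) Of hc.f_cc.2.isPreconnected hc.f_near' hc.f_l hc.f_r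
  · intro i hi
    refine ⟨?_, ?_, ?_⟩
    · exact ee_join hs (σ i) (g i) (g (i + 1)) (hp.small i hi.le) (hp.small (i + 1) hi) (O i)
        (hp.cc i hi).2.isPreconnected (hp.near i hi) (hp.left i hi) (hp.right i hi)
    · apply ee_join hs (σ i) ((g i).trans (κ i)) ((g (i + 1)).trans (κ i)) (hc.kg i hi.le i hi.le)
        (hc.kg i hi.le (i + 1) hi) (κ i '' O i)
      · exact (hp.cc i hi).2.isPreconnected.image _ (κ i).continuous.continuousOn
      · rintro _ ⟨x, hx, rfl⟩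
        exact hc.o_near i hi x hx
      · obtain ⟨x, hx, z, hz, hzx⟩ := hp.left i hi
        refine ⟨κ i x, ⟨x, hx, rfl⟩, z, hz, ?_⟩
        rw [← hzx]
        rfl
      · obtain ⟨x, hx, z, hz, hzx⟩ := hp.right i hi
        refine ⟨κ i x, ⟨x, hx, rfl⟩, z, hz, ?_⟩
        rw [← hzx]
        rfl
    · exact ee_join hs (σ i) ((g (i + 1)).trans (κ i)) ((g (i + 1)).trans (κ (i + 1)))
        (hc.kg i hi.le (i + 1) hi) (hc.kg (i + 1) hi (i + 1) hi) (Oc i)
        (hc.c_cc i hi).2.isPreconnected (hc.c_near' i hi) (hc.c_l i hi) (hc.c_r i hi)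

end Pool.Agent.Helper499.HD
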