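import Pool.Agent.Helper499.HD.Defs
import Pool.Agent.Helper499.HD.B15
import Pool.Agent.Helper499.HD.B22

set_option autoImplicit false

namespace Pool.Agent.Helper499.HD

open Set Metric Topology

variable {X : Type} [MetricSpace X]





/-- separation of the classes of a path and of its parallel copy -/
theorem copy_sep [CompactSpace X] {M : Set X} {S Sp : Bool → Set X} {r : ℝ}
    (hs : Setup M S Sp r) {n : ℕ} {g : ℕ → X ≃ₜ X} {O : ℕ → Set X} {σ : ℕ → Bool}
    (hp : PathS S Sp r n g O σ) {δ : ℝ} (hδ : 0 < δ) {κ : ℕ → X ≃ₜ X} {Oc : ℕ → Set X}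
    {Of : Set X} (hc : Copy S Sp r n g O σ δ κ Oc Of) :
    (∀ i < n, ∀ j ≤ n, ¬ EE Sp r (σ i) (g j) ((g i).trans (κ i)) ∧
      ¬ EE Sp r (σ i) (g j) ((g (i + 1)).trans (κ i)) ∧
      ¬ EE Sp r (σ i) (g j) ((g (i + 1)).trans (κ (i + 1)))) ∧
    (∀ j ≤ n, ¬ EE Sp r false (g j) ((g n).trans (κ n))) ∧
    (∀ j < n, σ j = false → ¬ EE Sp r false (g j) ((g 0).trans (κ 0))) ∧
    ¬ EE Sp r false (g n) ((g 0).trans (κ 0)) := by
  obtain ⟨h0, hee⟩ := copy_ee hs hp hc
  have hrefl : Cl δ (Homeomorph.refl X) := by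
    intro z
    simpa using hδ
  have htr : ∀ f : X ≃ₜ X, f.trans (Homeomorph.refl X) = f := by
    intro f
    ext x
    rfl
  have sep : ∀ (b : Bool) (j l : ℕ), j ≤ n → l ≤ n → ∀ k : X ≃ₜ X, Cl δ k →
      ¬ EE Sp r b (g l) ((g l).trans k) → ¬ EE Sp r b (g j) ((g l).trans k) := by
    intro b j l hj hl k hk hne he
    by_cases hjl : EE Sp r b (g j) (g l)
    · exact hne (ee_trans hs (ee_symm hjl) he)
    · have := hc.opn b j hj l hl hjl (Homeomorph.refl X) k hrefl hk
      rw [htr] at this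
      exact this he
  have hQ : ∀ i < n, ¬ EE Sp r (σ i) (g i) ((g i).trans (κ i)) →
      ¬ EE Sp r (σ i) (g (i + 1)) ((g (i + 1)).trans (κ (i + 1))) := by
    intro i hi hP he
    obtain ⟨c1, c2, c3⟩ := hee i hi
    exact hP (ee_trans hs (ee_trans hs (ee_trans hs c1 he) (ee_symm c3)) (ee_symm c2))
  have hQ0 : ∀ i < n, ¬ EE Sp r (σ i) (g i) ((g i).trans (κ i)) →
      ¬ EE Sp r (σ i) (g (i + 1)) ((g (i + 1)).trans (κ i)) := by
    intro i hi hP he
    obtain ⟨c1, c2, c3⟩ := hee i hi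
    exact hP (ee_trans hs (ee_trans hs c1 he) (ee_symm c2))
  have hboth : ∀ i < n, ¬ EE Sp r (σ i) (g i) ((g i).trans (κ i)) → ∀ b,
      ¬ EE Sp r b (g (i + 1)) ((g (i + 1)).trans (κ (i + 1))) := by
    intro i hi hP b
    by_cases hb : b = σ i
    · rw [hb]; exact hQ i hi hP
    · have hb' : b = !(σ i) := by
        cases b <;> cases hσ : σ i <;> simp_all
      rw [hb']
      exact hc.ka i hi
  have hP : ∀ i, i < n → ¬ EE Sp r (σ i) (g i) ((g i).trans (κ i)) := by
    intro i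
    induction i with
    | zero =>
      intro hi
      have hσ : σ 0 = true := by
        by_contra hne
        have hf : σ 0 = false := by simpa using hne
        exact hp.r0 0 hi hf (ee_refl hs false (g 0) (hp.small 0 (Nat.zero_le _)))
      rw [hσ]
      exact hc.k0
    | succ i ih =>
      intro hi
      exact hboth i (by omega) (ih (by omega)) _
  refine ⟨?_, ?_, ?_, ?_⟩
  · intro i hi j hj
    refine ⟨sep _ j i hj hi.le _ (hc.kc i hi.le) (hP i hi), ?_, ?_⟩
    · exact sep _ j (i + 1) hj hi _ (hc.kc i hi.le) (hQ0 i hi (hP i hi))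
    · exact sep _ j (i + 1) hj hi _ (hc.kc (i + 1) hi) (hQ i hi (hP i hi))
  · intro j hj
    obtain ⟨i, rfl⟩ : ∃ i, n = i + 1 := ⟨n - 1, by have := hp.pos; omega⟩
    exact sep false j (i + 1) hj le_rfl _ (hc.kc (i + 1) le_rfl)
      (hboth i (by omega) (hP i (by omega)) false)
  · intro j hj hσ he
    exact hp.r0 j hj hσ (ee_trans hs h0 (ee_symm he))
  · intro he
    exact hp.rr (ee_trans hs h0 (ee_symm he))

end Pool.Agent.Helper499.HD
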