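import Pool.Agent.Helper499.HD.Defs

set_option autoImplicit false

namespace Pool.Agent.Helper499.HD

open Set Metric Topology

variable {X : Type} [MetricSpace X]


theorem np_joins_G1 (n : ℕ) (g κ : ℕ → X ≃ₜ X) (m : ℕ) (h : m ≤ n) :
    nG n g κ m = g (n - m) := if_pos h

theorem np_joins_G2 (n : ℕ) (g κ : ℕ → X ≃ₜ X) (q : ℕ) :
    nG n g κ (n + 1 + 2 * q) = (g q).trans (κ q) := by
  unfold nG
  rw [if_neg (by omega)]
  have h1 : (n + 1 + 2 * q - n) / 2 = q := by omega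
  have h2 : (n + 1 + 2 * q - n - 1) / 2 = q := by omega
  rw [h1, h2]

theorem np_joins_G3 (n : ℕ) (g κ : ℕ → X ≃ₜ X) (q : ℕ) :
    nG n g κ (n + 2 + 2 * q) = (g (q + 1)).trans (κ q) := by
  unfold nG
  rw [if_neg (by omega)]
  have h1 : (n + 2 + 2 * q - n) / 2 = q + 1 := by omega
  have h2 : (n + 2 + 2 * q - n - 1) / 2 = q := by omega
  rw [h1, h2]

theorem np_joins_O1 (n : ℕ) (O : ℕ → Set X) (κ : ℕ → X ≃ₜ X) (Oc : ℕ → Set X) (Of : Set X) (m : ℕ)
    (h : m < n) : nO n O κ Oc Of m = O (n - 1 - m) := if_pos h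

theorem np_joins_O0 (n : ℕ) (O : ℕ → Set X) (κ : ℕ → X ≃ₜ X) (Oc : ℕ → Set X) (Of : Set X) :
    nO n O κ Oc Of n = Of := by
  unfold nO
  rw [if_neg (lt_irrefl n), if_pos rfl]

theorem np_joins_O2 (n : ℕ) (O : ℕ → Set X) (κ : ℕ → X ≃ₜ X) (Oc : ℕ → Set X) (Of : Set X)
    (q : ℕ) : nO n O κ Oc Of (n + 1 + 2 * q) = κ q '' O q := by
  unfold nO
  rw [if_neg (by omega), if_neg (by omega), if_pos (by omega)]
  have h2 : (n + 1 + 2 * q - n - 1) / 2 = q := by omega
  rw [h2]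

theorem np_joins_O3 (n : ℕ) (O : ℕ → Set X) (κ : ℕ → X ≃ₜ X) (Oc : ℕ → Set X) (Of : Set X)
    (q : ℕ) : nO n O κ Oc Of (n + 2 + 2 * q) = Oc q := by
  unfold nO
  rw [if_neg (by omega), if_neg (by omega), if_neg (by omega)]
  have h2 : (n + 2 + 2 * q - n - 1) / 2 = q := by omega
  rw [h2]

theorem np_joins_S1 (n : ℕ) (σ : ℕ → Bool) (m : ℕ) (h : m < n) :
    nS n σ m = σ (n - 1 - m) := if_pos h

theorem np_joins_S0 (n : ℕ) (σ : ℕ → Bool) : nS n σ n = false := by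
  unfold nS
  rw [if_neg (lt_irrefl n), if_pos rfl]

theorem np_joins_S2 (n : ℕ) (σ : ℕ → Bool) (q : ℕ) : nS n σ (n + 1 + 2 * q) = σ q := by
  unfold nS
  rw [if_neg (by omega), if_neg (by omega)]
  have h2 : (n + 1 + 2 * q - n - 1) / 2 = q := by omega
  rw [h2]

theorem np_joins_S3 (n : ℕ) (σ : ℕ → Bool) (q : ℕ) : nS n σ (n + 2 + 2 * q) = σ q := by
  unfold nS
  rw [if_neg (by omega), if_neg (by omega)]
  have h2 : (n + 2 + 2 * q - n - 1) / 2 = q := by omega
  rw [h2]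

theorem np_joins_im (k g : X ≃ₜ X) (A B : Set X) (h : (A ∩ g '' B).Nonempty) :
    (k '' A ∩ g.trans k '' B).Nonempty := by
  obtain ⟨_, ha, ⟨b, hb, rfl⟩⟩ := h
  exact ⟨k (g b), ⟨_, ha, rfl⟩, ⟨b, hb, rfl⟩⟩

/-- the doubled path: joins -/
theorem np_joins [CompactSpace X] {M : Set X} {S Sp : Bool → Set X} {r : ℝ}
    (hs : Setup M S Sp r) {n : ℕ} {g : ℕ → X ≃ₜ X} {O : ℕ → Set X} {σ : ℕ → Bool}
    (hp : PathS S Sp r n g O σ) {δ : ℝ} {κ : ℕ → X ≃ₜ X} {Oc : ℕ → Set X} {Of : Set X}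
    (hc : Copy S Sp r n g O σ δ κ Oc Of) :
    (∀ i ≤ 3 * n + 1, Cl r (nG n g κ i)) ∧
    (∀ i < 3 * n + 1, CC (nO n O κ Oc Of i) ∧
      (∀ x ∈ nO n O κ Oc Of i, infDist x (S (nS n σ i)) < 5 * r) ∧
      (∀ x ∈ nO n O κ Oc Of i, 10 * r < infDist x (S (!(nS n σ i)))) ∧
      (nO n O κ Oc Of i ∩ nG n g κ i '' S (nS n σ i)).Nonempty ∧
      (nO n O κ Oc Of i ∩ nG n g κ (i + 1) '' S (nS n σ i)).Nonempty) := by
  constructor
  · intro i hi
    unfold nG
    split_ifs with h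
    · exact hp.small _ (by omega)
    · exact hc.kg _ (by omega) _ (by omega)
  · intro i hi
    rcases lt_trichotomy i n with h | h | h
    · obtain ⟨m, hm⟩ : ∃ m, m = n - 1 - i := ⟨_, rfl⟩
      have hmn : m < n := by omega
      have e1 : nG n g κ i = g (m + 1) := by
        rw [np_joins_G1 n g κ i h.le]
        congr 1
        omega
      have e2 : nG n g κ (i + 1) = g m := by
        rw [np_joins_G1 n g κ (i + 1) h]
        congr 1
        omega
      rw [np_joins_O1 n O κ Oc Of i h, np_joins_S1 n σ i h, e1, e2, ← hm]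
      exact ⟨hp.cc m hmn, hp.near m hmn, hp.far m hmn, hp.right m hmn, hp.left m hmn⟩
    · subst h
      have e1 : nG i g κ i = g 0 := by
        rw [np_joins_G1 i g κ i le_rfl, Nat.sub_self]
      have e2 : nG i g κ (i + 1) = (g 0).trans (κ 0) := np_joins_G2 i g κ 0
      rw [np_joins_O0, np_joins_S0, e1, e2]
      exact ⟨hc.f_cc, hc.f_near', hc.f_far, hc.f_l, hc.f_r⟩
    · rcases Nat.even_or_odd' (i - n - 1) with ⟨q, hq | hq⟩
      · have hi' : i = n + 1 + 2 * q := by omega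
        have hqn : q < n := by omega
        subst hi'
        have e2 : nG n g κ (n + 1 + 2 * q + 1) = (g (q + 1)).trans (κ q) := by
          rw [← np_joins_G3 n g κ q]
          congr 1
          omega
        rw [np_joins_O2, np_joins_S2, np_joins_G2, e2]
        refine ⟨⟨(κ q).isClosedMap _ (hp.cc q hqn).1,
          (hp.cc q hqn).2.image _ (κ q).continuous.continuousOn⟩, ?_, ?_, ?_, ?_⟩
        · rintro _ ⟨x, hx, rfl⟩
          exact hc.o_near q hqn x hx
        · rintro _ ⟨x, hx, rfl⟩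
          exact hc.o_far q hqn x hx
        · exact np_joins_im _ _ _ _ (hp.left q hqn)
        · exact np_joins_im _ _ _ _ (hp.right q hqn)
      · have hi' : i = n + 2 + 2 * q := by omega
        have hqn : q < n := by omega
        subst hi'
        have e2 : nG n g κ (n + 2 + 2 * q + 1) = (g (q + 1)).trans (κ (q + 1)) := by
          rw [← np_joins_G2 n g κ (q + 1)]
          congr 1
          omega
        rw [np_joins_O3, np_joins_S3, np_joins_G3, e2]
        exact ⟨hc.c_cc q hqn, hc.c_near' q hqn, hc.c_far q hqn, hc.c_l q hqn, hc.c_r q hqn⟩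

end Pool.Agent.Helper499.HD
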