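import Pool.Agent.Helper499.HD.Defs
import Pool.Agent.Helper499.HD.B22
import Pool.Agent.Helper499.HD.B23

set_option autoImplicit false

namespace Pool.Agent.Helper499.HD

open Set Metric Topology

variable {X : Type} [MetricSpace X]





theorem np_r0_idx (n m : ℕ) (g κ : ℕ → X ≃ₜ X) (σ : ℕ → Bool) (h : n < m) (h' : m < 3 * n + 1) :
    ∃ q < n, nS n σ m = σ q ∧ (nG n g κ m = (g q).trans (κ q) ∨
      nG n g κ m = (g (q + 1)).trans (κ q)) := by
  refine ⟨(m - n - 1) / 2, by omega, ?_, ?_⟩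
  · unfold nS
    rw [if_neg (by omega), if_neg (by omega)]
  · unfold nG
    rw [if_neg (by omega)]
    rcases Nat.even_or_odd' (m - n) with ⟨c, hc | hc⟩
    · right
      have h1 : (m - n) / 2 = (m - n - 1) / 2 + 1 := by omega
      rw [h1]
    · left
      have h1 : (m - n) / 2 = (m - n - 1) / 2 := by omega
      rw [h1]

theorem np_r0_last (n : ℕ) (g κ : ℕ → X ≃ₜ X) : nG n g κ (3 * n + 1) = (g n).trans (κ n) := by
  unfold nG
  rw [if_neg (by omega)]
  have h1 : (3 * n + 1 - n) / 2 = n := by omega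
  have h2 : (3 * n + 1 - n - 1) / 2 = n := by omega
  rw [h1, h2]

theorem np_r0_le (n m : ℕ) (g κ : ℕ → X ≃ₜ X) (h : m ≤ n) : nG n g κ m = g (n - m) := by
  unfold nG
  rw [if_pos h]

/-- the doubled path: the end `g n` is simple -/
theorem np_r0 [CompactSpace X] {M : Set X} {S Sp : Bool → Set X} {r : ℝ}
    (hs : Setup M S Sp r) {n : ℕ} {g : ℕ → X ≃ₜ X} {O : ℕ → Set X} {σ : ℕ → Bool}
    (hp : PathS S Sp r n g O σ) {δ : ℝ} (hδ : 0 < δ) {κ : ℕ → X ≃ₜ X} {Oc : ℕ → Set X}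
    {Of : Set X} (hc : Copy S Sp r n g O σ δ κ Oc Of) :
    ∀ i < 3 * n + 1, nS n σ i = false →
      ¬ EE Sp r false (nG n g κ 0) (nG n g κ i) := by
  intro i hi hS hE
  have hee := copy_ee hs hp hc
  have hsep := copy_sep hs hp hδ hc
  rw [np_r0_le n 0 g κ (Nat.zero_le _), Nat.sub_zero] at hE
  rcases lt_trichotomy i n with h | h | h
  · rw [np_r0_le n i g κ h.le] at hE
    have h1 : nS n σ i = σ (n - 1 - i) := by unfold nS; rw [if_pos h]
    rw [h1] at hS
    have h2 : n - i = (n - 1 - i) + 1 := by omega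
    rw [h2] at hE
    have h3 := (hee.2 (n - 1 - i) (by omega)).1
    rw [hS] at h3
    exact hp.rn (n - 1 - i) (by omega) hS (ee_trans hs hE (ee_symm h3))
  · subst h
    rw [np_r0_le i i g κ le_rfl, Nat.sub_self] at hE
    exact hp.rr (ee_symm hE)
  · obtain ⟨q, hq, h1, h2⟩ := np_r0_idx n i g κ σ h hi
    rw [h1] at hS
    have h3 := hsep.1 q hq n le_rfl
    rw [hS] at h3
    rcases h2 with h2 | h2
    · rw [h2] at hE
      exact h3.1 hE
    · rw [h2] at hE
      exact h3.2.1 hE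

/-- the doubled path: the end `κ n g n` is simple -/
theorem np_rn [CompactSpace X] {M : Set X} {S Sp : Bool → Set X} {r : ℝ}
    (hs : Setup M S Sp r) {n : ℕ} {g : ℕ → X ≃ₜ X} {O : ℕ → Set X} {σ : ℕ → Bool}
    (hp : PathS S Sp r n g O σ) {δ : ℝ} (hδ : 0 < δ) {κ : ℕ → X ≃ₜ X} {Oc : ℕ → Set X}
    {Of : Set X} (hc : Copy S Sp r n g O σ δ κ Oc Of) :
    (∀ i < 3 * n + 1, nS n σ i = false →
      ¬ EE Sp r false (nG n g κ (3 * n + 1)) (nG n g κ i)) ∧
    ¬ EE Sp r false (nG n g κ 0) (nG n g κ (3 * n + 1)) := by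
  have hee := copy_ee hs hp hc
  have hsep := copy_sep hs hp hδ hc
  rw [np_r0_last]
  constructor
  · intro i hi hS hE
    rcases le_or_gt i n with h | h
    · rw [np_r0_le n i g κ h] at hE
      exact hsep.2.1 (n - i) (Nat.sub_le _ _) (ee_symm hE)
    · obtain ⟨q, hq, h1, h2⟩ := np_r0_idx n i g κ σ h hi
      rw [h1] at hS
      have h3 : ¬ EE Sp r false (g n) (g q) := hp.rn q hq hS
      have h4 := (hee.2 q hq).1
      rw [hS] at h4
      rcases h2 with h2 | h2
      · rw [h2] at hE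
        exact hc.opn false n le_rfl q hq.le h3 (κ n) (κ q) (hc.kc n le_rfl) (hc.kc q hq.le) hE
      · rw [h2] at hE
        exact hc.opn false n le_rfl (q + 1) hq (fun h5 => h3 (ee_trans hs h5 (ee_symm h4)))
          (κ n) (κ q) (hc.kc n le_rfl) (hc.kc q hq.le) hE
  · rw [np_r0_le n 0 g κ (Nat.zero_le _), Nat.sub_zero]
    exact hsep.2.1 n le_rfl

end Pool.Agent.Helper499.HD
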