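import Pool.Agent.Helper499.HD.Defs
import Pool.Agent.Helper499.HD.B22
import Pool.Agent.Helper499.HD.B23

set_option autoImplicit false

namespace Pool.Agent.Helper499.HD

open Set Metric Topology

variable {X : Type} [MetricSpace X]





/-- the doubled path: different strands are different -/
theorem np_dd [CompactSpace X] {M : Set X} {S Sp : Bool → Set X} {r : ℝ}
    (hs : Setup M S Sp r) {n : ℕ} {g : ℕ → X ≃ₜ X} {O : ℕ → Set X} {σ : ℕ → Bool}
    (hp : PathS S Sp r n g O σ) {δ : ℝ} (hδ : 0 < δ) {κ : ℕ → X ≃ₜ X} {Oc : ℕ → Set X}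
    {Of : Set X} (hc : Copy S Sp r n g O σ δ κ Oc Of) :
    ∀ i j, i < j → j ≤ 3 * n + 1 →
      ¬ (EE Sp r true (nG n g κ i) (nG n g κ j) ∧ EE Sp r false (nG n g κ i) (nG n g κ j)) := by
  intro i j hij hj
  obtain ⟨hsep, hsn, -, -⟩ := copy_sep hs hp hδ hc
  by_cases hjn : j ≤ n
  · have hin : i ≤ n := by omega
    have e1 : nG n g κ i = g (n - i) := by simp [nG, hin]
    have e2 : nG n g κ j = g (n - j) := by simp [nG, hjn]
    rw [e1, e2]
    rintro ⟨h1, h2⟩
    exact hp.dd (n - j) (n - i) (by omega) (by omega) ⟨ee_symm h1, ee_symm h2⟩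
  · have e2 : nG n g κ j = (g ((j - n) / 2)).trans (κ ((j - n - 1) / 2)) := by simp [nG, hjn]
    rw [e2]
    by_cases hin : i ≤ n
    · have e1 : nG n g κ i = g (n - i) := by simp [nG, hin]
      rw [e1]
      by_cases hk : (j - n - 1) / 2 < n
      · obtain ⟨s1, s2, -⟩ := hsep ((j - n - 1) / 2) hk (n - i) (by omega)
        have key : ¬ EE Sp r (σ ((j - n - 1) / 2)) (g (n - i))
            ((g ((j - n) / 2)).trans (κ ((j - n - 1) / 2))) := by
          have : (j - n) / 2 = (j - n - 1) / 2 ∨ (j - n) / 2 = (j - n - 1) / 2 + 1 := by omega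
          rcases this with h | h
          · rw [h]; exact s1
          · rw [h]; exact s2
        rintro ⟨h1, h2⟩
        cases hσ : σ ((j - n - 1) / 2) with
        | true => rw [hσ] at key; exact key h1
        | false => rw [hσ] at key; exact key h2
      · have h1 : (j - n - 1) / 2 = n := by omega
        have h2 : (j - n) / 2 = n := by omega
        rw [h1, h2]
        rintro ⟨-, h⟩
        exact hsn (n - i) (by omega) h
    · have e1 : nG n g κ i = (g ((i - n) / 2)).trans (κ ((i - n - 1) / 2)) := by simp [nG, hin]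
      rw [e1]
      by_cases hab : (i - n) / 2 < (j - n) / 2
      · have hdd := hp.dd ((i - n) / 2) ((j - n) / 2) hab (by omega)
        rintro ⟨h1, h2⟩
        apply hdd
        constructor
        · by_contra hh
          exact hc.opn true _ (by omega) _ (by omega) hh _ _ (hc.kc _ (by omega))
            (hc.kc _ (by omega)) h1
        · by_contra hh
          exact hc.opn false _ (by omega) _ (by omega) hh _ _ (hc.kc _ (by omega))
            (hc.kc _ (by omega)) h2
      · have hk := hc.kd ((i - n - 1) / 2) (by omega)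
        have h1 : (i - n) / 2 = (i - n - 1) / 2 + 1 := by omega
        have h2 : (j - n) / 2 = (i - n - 1) / 2 + 1 := by omega
        have h3 : (j - n - 1) / 2 = (i - n - 1) / 2 + 1 := by omega
        rw [h1, h2, h3]
        rintro ⟨k1, k2⟩
        cases hσ : σ ((i - n - 1) / 2) with
        | true => rw [hσ] at hk; exact hk k2
        | false => rw [hσ] at hk; exact hk k1

end Pool.Agent.Helper499.HD
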