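import Pool.Agent.Helper499.HD.Defs

set_option autoImplicit false

namespace Pool.Agent.Helper499.HD

open Set Metric Topology

variable {X : Type} [MetricSpace X]


theorem nG_lo_28376 (n : ℕ) (g κ : ℕ → X ≃ₜ X) (m : ℕ) (h : m ≤ n) :
    nG n g κ m = g (n - m) := by
  unfold nG
  rw [if_pos h]

theorem nG_a_28376 (n : ℕ) (g κ : ℕ → X ≃ₜ X) (q : ℕ) :
    nG n g κ (n + 1 + 2 * q) = (g q).trans (κ q) := by
  unfold nG
  rw [if_neg (by omega)]
  have e1 : (n + 1 + 2 * q - n) / 2 = q := by omega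
  have e2 : (n + 1 + 2 * q - n - 1) / 2 = q := by omega
  rw [e1, e2]

theorem nG_b_28376 (n : ℕ) (g κ : ℕ → X ≃ₜ X) (q : ℕ) :
    nG n g κ (n + 2 + 2 * q) = (g (q + 1)).trans (κ q) := by
  unfold nG
  rw [if_neg (by omega)]
  have e1 : (n + 2 + 2 * q - n) / 2 = q + 1 := by omega
  have e2 : (n + 2 + 2 * q - n - 1) / 2 = q := by omega
  rw [e1, e2]

theorem tt_lo_28376 (S : Bool → Set X) {n : ℕ} (g : ℕ → X ≃ₜ X) (O : ℕ → Set X)
    (σ : ℕ → Bool) (κ : ℕ → X ≃ₜ X) (Oc : ℕ → Set X) (Of : Set X) (i : ℕ) (hi : i < n) :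
    TT S (nG n g κ) (nO n O κ Oc Of) (nS n σ) (n - 1 - i) = TT S g O σ i := by
  unfold TT
  rw [nG_lo_28376 n g κ _ (by omega), nG_lo_28376 n g κ _ (by omega)]
  have e1 : n - (n - 1 - i) = i + 1 := by omega
  have e2 : n - (n - 1 - i + 1) = i := by omega
  have e3 : nO n O κ Oc Of (n - 1 - i) = O i := by
    unfold nO
    rw [if_pos (by omega)]
    have e : n - 1 - (n - 1 - i) = i := by omega
    rw [e]
  have e4 : nS n σ (n - 1 - i) = σ i := by
    unfold nS
    rw [if_pos (by omega)]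
    have e : n - 1 - (n - 1 - i) = i := by omega
    rw [e]
  rw [e1, e2, e3, e4, union_comm _ (g i '' S (σ i)), ← union_assoc, union_right_comm]

theorem tt_mid_28376 (S : Bool → Set X) {n : ℕ} (g : ℕ → X ≃ₜ X) (O : ℕ → Set X)
    (σ : ℕ → Bool) (κ : ℕ → X ≃ₜ X) (Oc : ℕ → Set X) (Of : Set X) :
    TT S (nG n g κ) (nO n O κ Oc Of) (nS n σ) n =
      g 0 '' S false ∪ Of ∪ (g 0).trans (κ 0) '' S false := by
  unfold TT
  have e0 : nG n g κ (n + 1) = (g 0).trans (κ 0) := nG_a_28376 n g κ 0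
  have e3 : nO n O κ Oc Of n = Of := by
    unfold nO
    rw [if_neg (by omega), if_pos rfl]
  have e4 : nS n σ n = false := by
    unfold nS
    rw [if_neg (by omega), if_pos rfl]
  rw [nG_lo_28376 n g κ _ le_rfl, e0, e3, e4, Nat.sub_self]

theorem tt_a_28376 (S : Bool → Set X) {n : ℕ} (g : ℕ → X ≃ₜ X) (O : ℕ → Set X)
    (σ : ℕ → Bool) (κ : ℕ → X ≃ₜ X) (Oc : ℕ → Set X) (Of : Set X) (q : ℕ) :
    TT S (nG n g κ) (nO n O κ Oc Of) (nS n σ) (n + 1 + 2 * q) =
      (g q).trans (κ q) '' S (σ q) ∪ κ q '' O q ∪ (g (q + 1)).trans (κ q) '' S (σ q) := by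
  unfold TT
  have e0 : nG n g κ (n + 1 + 2 * q + 1) = (g (q + 1)).trans (κ q) := by
    have : n + 1 + 2 * q + 1 = n + 2 + 2 * q := by omega
    rw [this, nG_b_28376]
  have e1 : (n + 1 + 2 * q - n - 1) / 2 = q := by omega
  have e3 : nO n O κ Oc Of (n + 1 + 2 * q) = κ q '' O q := by
    unfold nO
    rw [if_neg (by omega), if_neg (by omega), if_pos (by omega), e1]
  have e4 : nS n σ (n + 1 + 2 * q) = σ q := by
    unfold nS
    rw [if_neg (by omega), if_neg (by omega), e1]
  rw [nG_a_28376, e0, e3, e4]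

theorem tt_b_28376 (S : Bool → Set X) {n : ℕ} (g : ℕ → X ≃ₜ X) (O : ℕ → Set X)
    (σ : ℕ → Bool) (κ : ℕ → X ≃ₜ X) (Oc : ℕ → Set X) (Of : Set X) (q : ℕ) :
    TT S (nG n g κ) (nO n O κ Oc Of) (nS n σ) (n + 2 + 2 * q) =
      (g (q + 1)).trans (κ q) '' S (σ q) ∪ Oc q ∪ (g (q + 1)).trans (κ (q + 1)) '' S (σ q) := by
  unfold TT
  have e0 : nG n g κ (n + 2 + 2 * q + 1) = (g (q + 1)).trans (κ (q + 1)) := by
    have : n + 2 + 2 * q + 1 = n + 1 + 2 * (q + 1) := by omega
    rw [this, nG_a_28376]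
  have e1 : (n + 2 + 2 * q - n - 1) / 2 = q := by omega
  have e3 : nO n O κ Oc Of (n + 2 + 2 * q) = Oc q := by
    unfold nO
    rw [if_neg (by omega), if_neg (by omega), if_neg (by omega), e1]
  have e4 : nS n σ (n + 2 + 2 * q) = σ q := by
    unfold nS
    rw [if_neg (by omega), if_neg (by omega), e1]
  rw [nG_b_28376, e0, e3, e4]

theorem ff_new (S : Bool → Set X) {n : ℕ} (hn : 0 < n) (g : ℕ → X ≃ₜ X) (O : ℕ → Set X)
    (σ : ℕ → Bool) (κ : ℕ → X ≃ₜ X) (Oc : ℕ → Set X) (Of : Set X) :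
    FF S (3 * n + 1) (nG n g κ) (nO n O κ Oc Of) (nS n σ) =
      FF S n g O σ ∪ F2 S n g O σ κ Oc Of := by
  have hlo := fun i hi => tt_lo_28376 S (n := n) g O σ κ Oc Of i hi
  have hmid := tt_mid_28376 S (n := n) g O σ κ Oc Of
  have ha := tt_a_28376 S (n := n) g O σ κ Oc Of
  have hb := tt_b_28376 S (n := n) g O σ κ Oc Of
  have h0 : nG n g κ 0 = g n := nG_lo_28376 n g κ 0 (Nat.zero_le _)
  have hl : nG n g κ (3 * n + 1) = (g n).trans (κ n) := by
    have : 3 * n + 1 = n + 1 + 2 * n := by omega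
    rw [this, nG_a_28376]
  unfold FF
  rw [h0, hl]
  apply Subset.antisymm
  · intro x hx
    rcases hx with (hx | hx) | hx
    · obtain ⟨m, hm, hx⟩ := mem_iUnion₂.1 hx
      have hm' : m < 3 * n + 1 := hm
      rcases lt_trichotomy m n with h | h | h
      · left
        left
        left
        have e := hlo (n - 1 - m) (by omega)
        have e2 : n - 1 - (n - 1 - m) = m := by omega
        rw [e2] at e
        rw [e] at hx
        exact mem_iUnion₂.2 ⟨n - 1 - m, (by show n - 1 - m < n; omega), hx⟩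
      · subst h
        rw [hmid] at hx
        rcases hx with (hx | hx) | hx
        · left
          left
          right
          exact hx
        · right
          exact Or.inl (Or.inl (Or.inl hx))
        · right
          exact Or.inl (Or.inl (Or.inr hx))
      · right
        right
        rcases Nat.even_or_odd' (m - n - 1) with ⟨q, hq | hq⟩
        · have e : m = n + 1 + 2 * q := by omega
          rw [e, ha] at hx
          refine mem_iUnion₂.2 ⟨q, (by show q < n; omega), ?_⟩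
          rcases hx with (hx | hx) | hx
          · exact Or.inl (Or.inl (Or.inl (Or.inl hx)))
          · exact Or.inl (Or.inl (Or.inl (Or.inr hx)))
          · exact Or.inl (Or.inl (Or.inr hx))
        · have e : m = n + 2 + 2 * q := by omega
          rw [e, hb] at hx
          refine mem_iUnion₂.2 ⟨q, (by show q < n; omega), ?_⟩
          rcases hx with (hx | hx) | hx
          · exact Or.inl (Or.inl (Or.inr hx))
          · exact Or.inl (Or.inr hx)
          · exact Or.inr hx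
    · exact Or.inl (Or.inr hx)
    · exact Or.inr (Or.inl (Or.inr hx))
  · intro x hx
    rcases hx with ((hx | hx) | hx) | hx
    · obtain ⟨i, hi, hx⟩ := mem_iUnion₂.1 hx
      have hi' : i < n := hi
      rw [← hlo i hi'] at hx
      exact Or.inl (Or.inl (mem_iUnion₂.2 ⟨n - 1 - i, (by show n - 1 - i < 3 * n + 1; omega), hx⟩))
    · refine Or.inl (Or.inl (mem_iUnion₂.2 ⟨n, (by show n < 3 * n + 1; omega), ?_⟩))
      rw [hmid]
      exact Or.inl (Or.inl hx)
    · exact Or.inl (Or.inr hx)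
    · rcases hx with ((hx | hx) | hx) | hx
      · refine Or.inl (Or.inl (mem_iUnion₂.2 ⟨n, (by show n < 3 * n + 1; omega), ?_⟩))
        rw [hmid]
        exact Or.inl (Or.inr hx)
      · refine Or.inl (Or.inl (mem_iUnion₂.2 ⟨n, (by show n < 3 * n + 1; omega), ?_⟩))
        rw [hmid]
        exact Or.inr hx
      · exact Or.inr hx
      · obtain ⟨q, hq, hx⟩ := mem_iUnion₂.1 hx
        have hq' : q < n := hq
        left
        left
        rcases hx with (((hx | hx) | hx) | hx) | hx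
        · refine mem_iUnion₂.2 ⟨n + 1 + 2 * q, (by show n + 1 + 2 * q < 3 * n + 1; omega), ?_⟩
          rw [ha]
          exact Or.inl (Or.inl hx)
        · refine mem_iUnion₂.2 ⟨n + 1 + 2 * q, (by show n + 1 + 2 * q < 3 * n + 1; omega), ?_⟩
          rw [ha]
          exact Or.inl (Or.inr hx)
        · refine mem_iUnion₂.2 ⟨n + 1 + 2 * q, (by show n + 1 + 2 * q < 3 * n + 1; omega), ?_⟩
          rw [ha]
          exact Or.inr hx
        · refine mem_iUnion₂.2 ⟨n + 2 + 2 * q, (by show n + 2 + 2 * q < 3 * n + 1; omega), ?_⟩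
          rw [hb]
          exact Or.inl (Or.inr hx)
        · refine mem_iUnion₂.2 ⟨n + 2 + 2 * q, (by show n + 2 + 2 * q < 3 * n + 1; omega), ?_⟩
          rw [hb]
          exact Or.inr hx

end Pool.Agent.Helper499.HD
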