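import Pool.Agent.Helper499.HD.Defs
import Pool.Agent.Helper499.HD.B15
import Pool.Agent.Helper499.HD.B16
import Pool.Agent.Helper499.HD.B22
import Pool.Agent.Helper499.HD.B23

set_option autoImplicit false

namespace Pool.Agent.Helper499.HD

open Set Metric Topology

variable {X : Type} [MetricSpace X]









/-- the path and its parallel copy meet only at the fold gate -/
theorem ff_inter [CompactSpace X] {M : Set X} {S Sp : Bool → Set X} {r : ℝ}
    (hs : Setup M S Sp r) {n : ℕ} {g : ℕ → X ≃ₜ X} {O : ℕ → Set X} {σ : ℕ → Bool}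
    (hp : PathS S Sp r n g O σ) {δ : ℝ} (hδ : 0 < δ) {κ : ℕ → X ≃ₜ X} {Oc : ℕ → Set X}
    {Of : Set X} (hc : Copy S Sp r n g O σ δ κ Oc Of) :
    FF S n g O σ ∩ F2 S n g O σ κ Oc Of ⊆
      {x | x ∈ g 0 '' S false ∧ 10 * r ≤ infDist x (S true)} := by
  have hr : 0 < r := hs.pos
  have hsm : ∀ l ≤ n, Cl r (g l) := hp.small
  have bool_ne : ∀ b c : Bool, ¬ b = c → b = !c := by decide
  -- strand against strand
  have LA : ∀ (b : Bool) (h : X ≃ₜ X), Cl r h → (∀ l ≤ n, ¬ EE Sp r b (g l) h) →
      ∀ x ∈ h '' S b, ∀ l ≤ n, ∀ β, x ∉ g l '' S β := by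
    intro b h hh H x hx l hl β hx'
    by_cases hβ : β = b
    · subst hβ
      exact H l hl (ee_same hs β (g l) h (hsm l hl) hh ⟨x, hx', hx⟩)
    · have hβ' : β = !b := bool_ne _ _ hβ
      subst hβ'
      exact H l hl (ee_symm (ee_opp hs b h (g l) hh (hsm l hl) ⟨x, hx, hx'⟩).1)
  -- strand against join
  have LB : ∀ (b : Bool) (h : X ≃ₜ X), Cl r h → (∀ l ≤ n, ¬ EE Sp r b (g l) h) →
      ∀ x ∈ h '' S b, ∀ j < n, x ∉ O j := by
    intro b h hh H x hx j hj hx'
    by_cases hβ : σ j = b
    · refine H j hj.le (ee_join hs b (g j) h (hsm j hj.le) hh (O j)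
        (hp.cc j hj).2.isPreconnected ?_ ?_ ⟨x, hx', hx⟩)
      · intro y hy
        rw [← hβ]
        exact hp.near j hj y hy
      · rw [← hβ]
        exact hp.left j hj
    · have hβ' : σ j = !b := bool_ne _ _ hβ
      have h1 := hp.far j hj x hx'
      rw [hβ', Bool.not_not] at h1
      have h2 := strand_near hs b h hh x hx
      linarith
  -- join against strand
  have LC : ∀ (b : Bool) (h : X ≃ₜ X), Cl r h → (∀ l ≤ n, ¬ EE Sp r b (g l) h) →
      ∀ J : Set X, IsPreconnected J → (∀ x ∈ J, infDist x (S b) < 5 * r) →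
      (∀ x ∈ J, 10 * r < infDist x (S (!b))) → (J ∩ h '' S b).Nonempty →
      ∀ x ∈ J, ∀ l ≤ n, ∀ β, x ∉ g l '' S β := by
    intro b h hh H J hJ hJn hJf hJh x hx l hl β hx'
    by_cases hβ : β = b
    · subst hβ
      exact H l hl (ee_join hs β (g l) h (hsm l hl) hh J hJ hJn ⟨x, hx, hx'⟩ hJh)
    · have hβ' : β = !b := bool_ne _ _ hβ
      subst hβ'
      have h1 := hJf x hx
      have h2 := strand_near hs (!b) (g l) (hsm l hl) x hx'
      linarith
  -- join against join
  have LD : ∀ (b : Bool) (h : X ≃ₜ X), Cl r h → (∀ l ≤ n, ¬ EE Sp r b (g l) h) →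
      ∀ J : Set X, IsPreconnected J → (∀ x ∈ J, infDist x (S b) < 5 * r) →
      (∀ x ∈ J, 10 * r < infDist x (S (!b))) → (J ∩ h '' S b).Nonempty →
      ∀ x ∈ J, ∀ j < n, x ∉ O j := by
    intro b h hh H J hJ hJn hJf hJh x hx j hj hx'
    by_cases hβ : σ j = b
    · refine H j hj.le (ee_join hs b (g j) h (hsm j hj.le) hh (J ∪ O j)
        (hJ.union x hx hx' (hp.cc j hj).2.isPreconnected) ?_ ?_ ?_)
      · rintro y (hy | hy)
        · exact hJn y hy
        · rw [← hβ]
          exact hp.near j hj y hy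
      · obtain ⟨y, hy1, hy2⟩ := hp.left j hj
        rw [hβ] at hy2
        exact ⟨y, Or.inr hy1, hy2⟩
      · obtain ⟨y, hy1, hy2⟩ := hJh
        exact ⟨y, Or.inl hy1, hy2⟩
    · have hβ' : σ j = !b := bool_ne _ _ hβ
      have h1 := hp.near j hj x hx'
      rw [hβ'] at h1
      have h2 := hJf x hx
      linarith
  obtain ⟨cee0, cee⟩ := copy_ee hs hp hc
  obtain ⟨cs1, cs2, cs3, cs4⟩ := copy_sep hs hp hδ hc
  have hσ0 : σ 0 = true := by
    by_contra h
    have h' : σ 0 = false := by simpa using h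
    obtain ⟨z, hz⟩ := (hs.hS false).2.nonempty
    exact hp.r0 0 hp.pos h' (ee_same hs false (g 0) (g 0) (hsm 0 (Nat.zero_le _))
      (hsm 0 (Nat.zero_le _)) ⟨g 0 z, ⟨z, hz, rfl⟩, ⟨z, hz, rfl⟩⟩)
  rintro x ⟨hF, hF2⟩
  have full : (∀ l ≤ n, ∀ β, x ∉ g l '' S β) → (∀ j < n, x ∉ O j) → False := by
    intro h1 h2
    rcases hF with (hF | hF) | hF
    · obtain ⟨j, hj, hx⟩ := mem_iUnion₂.1 hF
      rcases hx with (hx | hx) | hx
      · exact h1 j (le_of_lt hj) _ hx
      · exact h2 j hj hx
      · exact h1 (j + 1) hj _ hx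
    · exact h1 0 (Nat.zero_le _) _ hF
    · exact h1 n le_rfl _ hF
  rcases hF2 with ((hF2 | hF2) | hF2) | hF2
  · -- the fold join
    rcases hF with (hF | hF) | hF
    · exfalso
      obtain ⟨j, hj, hx⟩ := mem_iUnion₂.1 hF
      have hj' : j < n := hj
      have hstr : ∀ l, l ≤ n → (σ j = false → EE Sp r false (g l) (g j)) →
          x ∈ g l '' S (σ j) → False := by
        intro l hl hl' hx
        by_cases hb : σ j = false
        · rw [hb] at hx
          have h1 := ee_join hs false (g 0) (g l) (hsm 0 (Nat.zero_le _)) (hsm l hl) Of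
            hc.f_cc.2.isPreconnected hc.f_near' hc.f_l ⟨x, hF2, hx⟩
          exact hp.r0 j hj' hb (ee_trans hs h1 (hl' hb))
        · have hb' : σ j = true := by simpa using hb
          rw [hb'] at hx
          have h1 := strand_near hs true (g l) (hsm l hl) x hx
          have h2 := hc.f_far x hF2
          linarith
      rcases hx with (hx | hx) | hx
      · refine hstr j hj'.le (fun hb => ?_) hx
        obtain ⟨z, hz⟩ := (hs.hS false).2.nonempty
        exact ee_same hs false (g j) (g j) (hsm j hj'.le) (hsm j hj'.le)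
          ⟨g j z, ⟨z, hz, rfl⟩, ⟨z, hz, rfl⟩⟩
      · by_cases hb : σ j = false
        · refine hp.r0 j hj' hb (ee_join hs false (g 0) (g j) (hsm 0 (Nat.zero_le _))
            (hsm j hj'.le) (Of ∪ O j)
            (hc.f_cc.2.isPreconnected.union x hF2 hx (hp.cc j hj').2.isPreconnected) ?_ ?_ ?_)
          · rintro y (hy | hy)
            · exact hc.f_near' y hy
            · rw [← hb]
              exact hp.near j hj' y hy
          · obtain ⟨y, hy1, hy2⟩ := hc.f_l
            exact ⟨y, Or.inl hy1, hy2⟩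
          · obtain ⟨y, hy1, hy2⟩ := hp.left j hj'
            rw [hb] at hy2
            exact ⟨y, Or.inr hy1, hy2⟩
        · have hb' : σ j = true := by simpa using hb
          have h1 := hp.near j hj' x hx
          rw [hb'] at h1
          have h2 := hc.f_far x hF2
          linarith
      · refine hstr (j + 1) hj' (fun hb => ?_) hx
        have h1 := (cee j hj').1
        rw [hb] at h1
        exact ee_symm h1
    · exact ⟨hF, (hc.f_far x hF2).le⟩
    · exfalso
      exact hp.rr (ee_join hs false (g 0) (g n) (hsm 0 (Nat.zero_le _)) (hsm n le_rfl) Of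
        hc.f_cc.2.isPreconnected hc.f_near' hc.f_l ⟨x, hF2, hF⟩)
  · -- the first strand of the copy
    have hk0 : Cl r ((g 0).trans (κ 0)) := hc.kg 0 (Nat.zero_le _) 0 (Nat.zero_le _)
    rcases hF with (hF | hF) | hF
    · exfalso
      obtain ⟨j, hj, hx⟩ := mem_iUnion₂.1 hF
      have hj' : j < n := hj
      have hstr : ∀ l, l ≤ n → (σ j = false → EE Sp r false (g j) (g l)) →
          x ∈ g l '' S (σ j) → False := by
        intro l hl hl' hx
        by_cases hb : σ j = false
        · rw [hb] at hx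
          have h1 := ee_same hs false (g l) ((g 0).trans (κ 0)) (hsm l hl) hk0 ⟨x, hx, hF2⟩
          exact cs3 j hj' hb (ee_trans hs (hl' hb) h1)
        · have hb' : σ j = true := by simpa using hb
          rw [hb'] at hx
          have h1 := (ee_opp hs true (g l) ((g 0).trans (κ 0)) (hsm l hl) hk0
            ⟨x, hx, hF2⟩).1
          have h2 := (cs1 0 hp.pos l hl).1
          rw [hσ0] at h2
          exact h2 h1
      rcases hx with (hx | hx) | hx
      · refine hstr j hj'.le (fun hb => ?_) hx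
        obtain ⟨z, hz⟩ := (hs.hS false).2.nonempty
        exact ee_same hs false (g j) (g j) (hsm j hj'.le) (hsm j hj'.le)
          ⟨g j z, ⟨z, hz, rfl⟩, ⟨z, hz, rfl⟩⟩
      · by_cases hb : σ j = false
        · refine cs3 j hj' hb (ee_join hs false (g j) ((g 0).trans (κ 0))
            (hsm j hj'.le) hk0 (O j) (hp.cc j hj').2.isPreconnected ?_ ?_ ⟨x, hx, hF2⟩)
          · intro y hy
            rw [← hb]
            exact hp.near j hj' y hy
          · rw [← hb]
            exact hp.left j hj'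
        · have hb' : σ j = true := by simpa using hb
          have h1 := hp.far j hj' x hx
          rw [hb'] at h1
          have h2 := strand_near hs false _ hk0 x hF2
          have h3 : 10 * r < infDist x (S false) := h1
          linarith
      · refine hstr (j + 1) hj' (fun hb => ?_) hx
        have h1 := (cee j hj').1
        rw [hb] at h1
        exact h1
    · refine ⟨hF, ?_⟩
      by_contra h
      push Not at h
      exact hc.k0 (ee_cross hs (g 0) ((g 0).trans (κ 0)) (hsm 0 (Nat.zero_le _)) hk0 x hF hF2 h)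
    · exfalso
      exact cs4 (ee_same hs false (g n) ((g 0).trans (κ 0)) (hsm n le_rfl) hk0 ⟨x, hF, hF2⟩)
  · -- the last strand of the copy
    exfalso
    have hkn : Cl r ((g n).trans (κ n)) := hc.kg n le_rfl n le_rfl
    exact full (LA false _ hkn cs2 x hF2) (LB false _ hkn cs2 x hF2)
  · exfalso
    obtain ⟨i, hi, hx⟩ := mem_iUnion₂.1 hF2
    have hi' : i < n := hi
    have k1 : Cl r ((g i).trans (κ i)) := hc.kg i hi'.le i hi'.le
    have k2 : Cl r ((g (i + 1)).trans (κ i)) := hc.kg i hi'.le (i + 1) hi'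
    have k3 : Cl r ((g (i + 1)).trans (κ (i + 1))) := hc.kg (i + 1) hi' (i + 1) hi'
    have H1 : ∀ l ≤ n, ¬ EE Sp r (σ i) (g l) ((g i).trans (κ i)) := fun l hl => (cs1 i hi' l hl).1
    have H2 : ∀ l ≤ n, ¬ EE Sp r (σ i) (g l) ((g (i + 1)).trans (κ i)) :=
      fun l hl => (cs1 i hi' l hl).2.1
    have H3 : ∀ l ≤ n, ¬ EE Sp r (σ i) (g l) ((g (i + 1)).trans (κ (i + 1))) :=
      fun l hl => (cs1 i hi' l hl).2.2
    rcases hx with (((hx | hx) | hx) | hx) | hx
    · exact full (LA _ _ k1 H1 x hx) (LB _ _ k1 H1 x hx)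
    · have hJ : IsPreconnected (κ i '' O i) :=
        (hp.cc i hi').2.isPreconnected.image _ (κ i).continuous.continuousOn
      have hJn : ∀ x ∈ κ i '' O i, infDist x (S (σ i)) < 5 * r := by
        rintro _ ⟨y, hy, rfl⟩
        exact hc.o_near i hi' y hy
      have hJf : ∀ x ∈ κ i '' O i, 10 * r < infDist x (S (!(σ i))) := by
        rintro _ ⟨y, hy, rfl⟩
        exact hc.o_far i hi' y hy
      have hJh : (κ i '' O i ∩ (g i).trans (κ i) '' S (σ i)).Nonempty := by
        obtain ⟨y, hy1, z, hz, rfl⟩ := hp.left i hi'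
        exact ⟨κ i (g i z), ⟨_, hy1, rfl⟩, ⟨z, hz, rfl⟩⟩
      exact full (LC _ _ k1 H1 _ hJ hJn hJf hJh x hx) (LD _ _ k1 H1 _ hJ hJn hJf hJh x hx)
    · exact full (LA _ _ k2 H2 x hx) (LB _ _ k2 H2 x hx)
    · exact full
        (LC _ _ k2 H2 _ (hc.c_cc i hi').2.isPreconnected (hc.c_near' i hi') (hc.c_far i hi')
          (hc.c_l i hi') x hx)
        (LD _ _ k2 H2 _ (hc.c_cc i hi').2.isPreconnected (hc.c_near' i hi') (hc.c_far i hi')
          (hc.c_l i hi') x hx)
    · exact full (LA _ _ k3 H3 x hx) (LB _ _ k3 H3 x hx)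

end Pool.Agent.Helper499.HD
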