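import Pool.Agent.Helper499.HD.Defs

set_option autoImplicit false

namespace Pool.Agent.Helper499.HD

open Set Metric Topology

variable {X : Type} [MetricSpace X]


theorem ss_ne {M : Set X} {S Sp : Bool → Set X} {r : ℝ} (hs : Setup M S Sp r) (b : Bool) :
    (S b ∩ S (!b)).Nonempty := by
  have h1 := isPreconnected_closed_iff.1 hs.hM.2.isPreconnected (S b) (S (!b)) (hs.hS b).1
    (hs.hS (!b)).1 (hs.un b).subset
  obtain ⟨x, hx⟩ := (hs.hS b).2.nonempty
  obtain ⟨y, hy⟩ := (hs.hS (!b)).2.nonempty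
  obtain ⟨z, -, hz⟩ := h1 ⟨x, by rw [hs.un b]; exact Or.inl hx, hx⟩
    ⟨y, by rw [hs.un b]; exact Or.inr hy, hy⟩
  exact ⟨z, hz⟩

theorem gs_ne {M : Set X} {S Sp : Bool → Set X} {r : ℝ} (hs : Setup M S Sp r) (b b' : Bool)
    (h : X ≃ₜ X) : (h '' S b ∩ h '' S b').Nonempty := by
  by_cases hb : b' = b
  · subst hb
    rw [inter_self]
    exact (hs.hS b').2.nonempty.image h
  · have : b' = !b := by cases b <;> cases b' <;> simp_all
    subst this
    obtain ⟨z, hz1, hz2⟩ := ss_ne hs b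
    exact ⟨h z, ⟨z, hz1, rfl⟩, ⟨z, hz2, rfl⟩⟩

theorem gs_pre {M : Set X} {S Sp : Bool → Set X} {r : ℝ} (hs : Setup M S Sp r) (b : Bool)
    (h : X ≃ₜ X) : IsPreconnected (h '' S b) :=
  (hs.hS b).2.isPreconnected.image _ h.continuous.continuousOn

theorem gs_closed {M : Set X} {S Sp : Bool → Set X} {r : ℝ} (hs : Setup M S Sp r) (b : Bool)
    (h : X ≃ₜ X) : IsClosed (h '' S b) := h.isClosedMap _ (hs.hS b).1

theorem tt_pre {M : Set X} {S Sp : Bool → Set X} {r : ℝ}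
    (hs : Setup M S Sp r) {n : ℕ} {g : ℕ → X ≃ₜ X} {O : ℕ → Set X} {σ : ℕ → Bool}
    (hp : PathS S Sp r n g O σ) {i : ℕ} (hi : i < n) : IsPreconnected (TT S g O σ i) := by
  unfold TT
  have h1 : IsPreconnected (g i '' S (σ i) ∪ O i) := by
    refine IsPreconnected.union' ?_ (gs_pre hs _ _) (hp.cc i hi).2.isPreconnected
    rw [inter_comm]
    exact hp.left i hi
  refine IsPreconnected.union' ?_ h1 (gs_pre hs _ _)
  obtain ⟨z, hz1, hz2⟩ := hp.right i hi
  exact ⟨z, Or.inr hz1, hz2⟩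

theorem tt_closed {M : Set X} {S Sp : Bool → Set X} {r : ℝ}
    (hs : Setup M S Sp r) {n : ℕ} {g : ℕ → X ≃ₜ X} {O : ℕ → Set X} {σ : ℕ → Bool}
    (hp : PathS S Sp r n g O σ) {i : ℕ} (hi : i < n) : IsClosed (TT S g O σ i) := by
  unfold TT
  exact ((gs_closed hs _ _).union (hp.cc i hi).1).union (gs_closed hs _ _)

theorem part_pre {M : Set X} {S Sp : Bool → Set X} {r : ℝ}
    (hs : Setup M S Sp r) {n : ℕ} {g : ℕ → X ≃ₜ X} {O : ℕ → Set X} {σ : ℕ → Bool}
    (hp : PathS S Sp r n g O σ) (m : ℕ) (hm : m ≤ n) :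
    IsPreconnected ((⋃ i ∈ Iio m, TT S g O σ i) ∪ g 0 '' S false) ∧
      ∃ b, g m '' S b ⊆ (⋃ i ∈ Iio m, TT S g O σ i) ∪ g 0 '' S false := by
  induction m with
  | zero =>
    refine ⟨?_, false, subset_union_right⟩
    have : (⋃ i ∈ Iio 0, TT S g O σ i) = ∅ := by simp
    rw [this, empty_union]
    exact gs_pre hs _ _
  | succ m ih =>
    obtain ⟨h1, b, hb⟩ := ih (by omega)
    have hmn : m < n := by omega
    have e1 : (⋃ i ∈ Iio (m + 1), TT S g O σ i) ∪ g 0 '' S false =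
        ((⋃ i ∈ Iio m, TT S g O σ i) ∪ g 0 '' S false) ∪ TT S g O σ m := by
      ext x
      simp only [mem_union, mem_iUnion, mem_Iio, exists_prop]
      constructor
      · rintro (⟨i, hi, hx⟩ | hx)
        · rcases Nat.lt_succ_iff_lt_or_eq.1 hi with h | h
          · exact Or.inl (Or.inl ⟨i, h, hx⟩)
          · subst h; exact Or.inr hx
        · exact Or.inl (Or.inr hx)
      · rintro ((⟨i, hi, hx⟩ | hx) | hx)
        · exact Or.inl ⟨i, by omega, hx⟩
        · exact Or.inr hx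
        · exact Or.inl ⟨m, by omega, hx⟩
    rw [e1]
    refine ⟨?_, σ m, ?_⟩
    · refine IsPreconnected.union' ?_ h1 (tt_pre hs hp hmn)
      obtain ⟨z, hz1, hz2⟩ := gs_ne hs b (σ m) (g m)
      exact ⟨z, hb hz1, Or.inl (Or.inl hz2)⟩
    · intro x hx
      exact Or.inr (Or.inr hx)

theorem ff_cc [CompactSpace X] {M : Set X} {S Sp : Bool → Set X} {r : ℝ}
    (hs : Setup M S Sp r) {n : ℕ} {g : ℕ → X ≃ₜ X} {O : ℕ → Set X} {σ : ℕ → Bool}
    (hp : PathS S Sp r n g O σ) : CC (FF S n g O σ) := by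
  unfold FF
  refine ⟨?_, ?_, ?_⟩
  · refine (IsClosed.union ?_ (gs_closed hs _ _)).union (gs_closed hs _ _)
    exact (finite_Iio n).isClosed_biUnion fun i hi => tt_closed hs hp hi
  · obtain ⟨x, hx⟩ := (hs.hS false).2.nonempty
    exact ⟨g n x, Or.inr ⟨x, hx, rfl⟩⟩
  · obtain ⟨h1, b, hb⟩ := part_pre hs hp n le_rfl
    refine IsPreconnected.union' ?_ h1 (gs_pre hs _ _)
    obtain ⟨z, hz1, hz2⟩ := gs_ne hs b false (g n)
    exact ⟨z, hb hz1, hz2⟩

end Pool.Agent.Helper499.HD
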