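import Pool.Agent.Helper499.HD.Defs

set_option autoImplicit false

namespace Pool.Agent.Helper499.HD

open Set Metric Topology

variable {X : Type} [MetricSpace X]


theorem f2_closed [CompactSpace X] {M : Set X} {S Sp : Bool → Set X} {r : ℝ}
    (hs : Setup M S Sp r) {n : ℕ} {g : ℕ → X ≃ₜ X} {O : ℕ → Set X} {σ : ℕ → Bool}
    (hp : PathS S Sp r n g O σ) {δ : ℝ} {κ : ℕ → X ≃ₜ X} {Oc : ℕ → Set X} {Of : Set X}
    (hc : Copy S Sp r n g O σ δ κ Oc Of) :
    IsClosed (F2 S n g O σ κ Oc Of) ∧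
      ∀ x ∈ F2 S n g O σ κ Oc Of, infDist x (FF S n g O σ) < 3 * δ := by
  have hTT : ∀ i, i < n → TT S g O σ i ⊆ FF S n g O σ := by
    intro i hi x hx
    exact Or.inl (Or.inl (mem_iUnion₂.2 ⟨i, hi, hx⟩))
  have hmem : ∀ p ∈ FF S n g O σ, ∀ l ≤ n, infDist (κ l p) (FF S n g O σ) < δ := fun p hp l hl =>
    lt_of_le_of_lt (infDist_le_dist_of_mem hp) (hc.kc l hl p)
  have hcl : ∀ (h : X ≃ₜ X) (b : Bool), IsClosed (h '' S b) := fun h b =>
    h.isClosed_image.2 (hs.hS b).1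
  constructor
  · unfold F2
    refine ((hc.f_cc.1.union (hcl _ _)).union (hcl _ _)).union ?_
    refine Set.Finite.isClosed_biUnion (finite_Iio n) (fun i hi => ?_)
    have hi' : i < n := hi
    exact ((((hcl _ _).union ((κ i).isClosed_image.2 (hp.cc i hi').1)).union (hcl _ _)).union
      (hc.c_cc i hi').1).union (hcl _ _)
  · intro x hx
    have hδ : 0 < δ := lt_of_le_of_lt dist_nonneg (hc.kc 0 (Nat.zero_le n) x)
    have h3 : δ < 3 * δ := by linarith
    rcases hx with ((hx | hx) | hx) | hx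
    · have h1 := hc.f_near x hx
      have h2 : g 0 '' S false ⊆ FF S n g O σ := fun y hy => Or.inl (Or.inr hy)
      have h4 : (g 0 '' S false).Nonempty := (hs.hS false).2.nonempty.image _
      exact (infDist_le_infDist_of_subset h2 h4).trans_lt (h1.trans h3)
    · obtain ⟨z, hz, rfl⟩ := hx
      exact (hmem (g 0 z) (Or.inl (Or.inr ⟨z, hz, rfl⟩)) 0 (Nat.zero_le n)).trans h3
    · obtain ⟨z, hz, rfl⟩ := hx
      exact (hmem (g n z) (Or.inr ⟨z, hz, rfl⟩) n le_rfl).trans h3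
    · obtain ⟨i, hi, hx⟩ := mem_iUnion₂.1 hx
      have hi' : i < n := hi
      rcases hx with (((hx | hx) | hx) | hx) | hx
      · obtain ⟨z, hz, rfl⟩ := hx
        exact (hmem (g i z) (hTT i hi' (Or.inl (Or.inl ⟨z, hz, rfl⟩))) i hi'.le).trans h3
      · obtain ⟨z, hz, rfl⟩ := hx
        exact (hmem z (hTT i hi' (Or.inl (Or.inr hz))) i hi'.le).trans h3
      · obtain ⟨z, hz, rfl⟩ := hx
        exact (hmem (g (i + 1) z) (hTT i hi' (Or.inr ⟨z, hz, rfl⟩)) i hi'.le).trans h3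
      · have h1 := hc.c_near i hi' x hx
        have h4 : ((g (i + 1)).trans (κ i) '' S (σ i)).Nonempty :=
          (hs.hS (σ i)).2.nonempty.image _
        obtain ⟨y, ⟨z, hz, rfl⟩, hy⟩ := (infDist_lt_iff h4).1 h1
        have h5 : g (i + 1) z ∈ FF S n g O σ := hTT i hi' (Or.inr ⟨z, hz, rfl⟩)
        have h6 : dist (((g (i + 1)).trans (κ i)) z) (g (i + 1) z) < δ :=
          hc.kc i hi'.le (g (i + 1) z)
        have h7 := infDist_le_dist_of_mem (x := x) h5
        have h8 := dist_triangle x (((g (i + 1)).trans (κ i)) z) (g (i + 1) z)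
        linarith
      · obtain ⟨z, hz, rfl⟩ := hx
        exact (hmem (g (i + 1) z) (hTT i hi' (Or.inr ⟨z, hz, rfl⟩)) (i + 1) hi').trans h3

end Pool.Agent.Helper499.HD
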