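import Pool.Agent.Helper499.HD.Defs

set_option autoImplicit false

namespace Pool.Agent.Helper499.HD

open Set Metric Topology

variable {X : Type} [MetricSpace X]


/-- separation at the fold gate -/
theorem gate_sep [CompactSpace X] {M : Set X} {S Sp : Bool → Set X} {r : ℝ}
    (hs : Setup M S Sp r) (F F' : Set X) (hF : IsClosed F) (hF' : IsClosed F')
    (g0 gn gN : X ≃ₜ X)
    (hI : F ∩ F' ⊆ {x | x ∈ g0 '' S false ∧ 10 * r ≤ infDist x (S true)})
    (hn : gn '' S false ⊆ F) (hN : gN '' S false ⊆ F') (τ : ℝ) (hτ : 0 < τ)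
    (hd : Disjoint (gate S r τ g0) (gate S r τ gn)) :
    ∃ ε > 0, ∀ t, 0 < t → t ≤ ε → gate S r t gN ⊆ gate S r τ gn →
      ∀ E : Set X, CC E → E ⊆ nb t (F ∪ F') → (E ∩ gate S r t gn).Nonempty →
        (E ∩ gate S r t gN).Nonempty → (E ∩ gate S r τ g0).Nonempty := by
  set V : Set X := {x | 7 * r < infDist x (S true) ∧ infDist x (g0 '' S false) < τ / 2} with hV
  have hr := hs.pos
  have hVo : IsOpen V := by
    apply IsOpen.inter
    · exact isOpen_lt continuous_const (continuous_infDist_pt _)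
    · exact isOpen_lt (continuous_infDist_pt _) continuous_const
  have hFF : F ∩ F' ⊆ V := by
    intro x hx
    obtain ⟨h1, h2⟩ := hI hx
    refine ⟨by linarith, ?_⟩
    rw [infDist_zero_of_mem h1]
    linarith
  have hC1 : IsClosed (F \ V) := hF.sdiff hVo
  have hC2 : IsClosed (F' \ V) := hF'.sdiff hVo
  have hdis : Disjoint (F \ V) (F' \ V) := by
    rw [Set.disjoint_left]
    rintro x ⟨h1, h2⟩ ⟨h3, _⟩
    exact h2 (hFF ⟨h1, h3⟩)
  obtain ⟨δ, hδ, hdd⟩ := hdis.exists_cthickenings hC1.isCompact hC2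
  refine ⟨min (2 * r) (min (τ / 2) δ), by positivity, ?_⟩
  intro t ht hte hgt E hE hEF hE1 hE2
  have ht1 : t ≤ 2 * r := hte.trans (min_le_left _ _)
  have ht2 : t ≤ τ / 2 := hte.trans ((min_le_right _ _).trans (min_le_left _ _))
  have ht3 : t ≤ δ := hte.trans ((min_le_right _ _).trans (min_le_right _ _))
  by_contra hcon
  have hmiss : ∀ x ∈ E, x ∉ gate S r τ g0 := fun x hx hg => hcon ⟨x, hx, hg⟩
  have key : ∀ x ∈ E, ∀ f, dist x f ≤ t → f ∉ V := by
    intro x hx f hxf hf
    apply hmiss x hx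
    obtain ⟨h1, h2⟩ := hf
    constructor
    · have := infDist_le_infDist_add_dist (s := S true) (x := f) (y := x)
      rw [dist_comm] at this
      show 5 * r ≤ infDist x (S true)
      linarith
    · have := infDist_le_infDist_add_dist (s := g0 '' S false) (x := x) (y := f)
      show infDist x (g0 '' S false) ≤ τ
      linarith
  have hne : (S false).Nonempty := (hs.hS false).2.nonempty
  have hcpt : ∀ g : X ≃ₜ X, IsCompact (g '' S false) := fun g =>
    (hs.hS false).1.isCompact.image g.continuous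
  have hcov : E ⊆ cthickening δ (F \ V) ∪ cthickening δ (F' \ V) := by
    intro x hx
    have h1 := hEF hx
    have hne2 : (F ∪ F').Nonempty := (hne.image gn).mono (hn.trans subset_union_left)
    obtain ⟨f, hf, hfe⟩ := (hF.union hF').isCompact.exists_infDist_eq_dist hne2 x
    have h2 : dist x f ≤ t := by
      rw [← hfe]; exact h1
    have h3 := key x hx f h2
    rcases hf with hf | hf
    · left
      exact mem_cthickening_of_dist_le x f δ _ ⟨hf, h3⟩ (h2.trans ht3)
    · right
      exact mem_cthickening_of_dist_le x f δ _ ⟨hf, h3⟩ (h2.trans ht3)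
  have hm1 : (E ∩ cthickening δ (F \ V)).Nonempty := by
    obtain ⟨x, hx, hxg⟩ := hE1
    obtain ⟨f, hf, hfe⟩ := (hcpt gn).exists_infDist_eq_dist (hne.image gn) x
    have h2 : dist x f ≤ t := by
      rw [← hfe]; exact hxg.2
    exact ⟨x, hx, mem_cthickening_of_dist_le x f δ _ ⟨hn hf, key x hx f h2⟩ (h2.trans ht3)⟩
  have hm2 : (E ∩ cthickening δ (F' \ V)).Nonempty := by
    obtain ⟨x, hx, hxg⟩ := hE2
    obtain ⟨f, hf, hfe⟩ := (hcpt gN).exists_infDist_eq_dist (hne.image gN) x
    have h2 : dist x f ≤ t := by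
      rw [← hfe]; exact hxg.2
    exact ⟨x, hx, mem_cthickening_of_dist_le x f δ _ ⟨hN hf, key x hx f h2⟩ (h2.trans ht3)⟩
  obtain ⟨x, _, hx1, hx2⟩ := isPreconnected_closed_iff.1 hE.2.isPreconnected _ _
    isClosed_cthickening isClosed_cthickening hcov hm1 hm2
  exact Set.disjoint_left.1 hdd hx1 hx2


end Pool.Agent.Helper499.HD
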