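import Pool.Agent.Helper499.HD.Defs
import Pool.Agent.Helper499.HD.B15

set_option autoImplicit false

namespace Pool.Agent.Helper499.HD

open Set Metric Topology

variable {X : Type} [MetricSpace X]




theorem gate_disj [CompactSpace X] {M : Set X} {S Sp : Bool → Set X} {r : ℝ}
    (hs : Setup M S Sp r) (g h : X ≃ₜ X) (hg : Cl r g) (hh : Cl r h)
    (H : ¬ EE Sp r false g h) :
    ∃ ε > 0, ∀ t ≤ ε, Disjoint (gate S r t g) (gate S r t h) := by
  have hSc : IsCompact (S false) := (hs.hS false).1.isCompact
  have hSn : (S false).Nonempty := (hs.hS false).2.nonempty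
  have hA : IsCompact (g '' S false) := hSc.image g.continuous
  have hB : IsCompact (h '' S false) := hSc.image h.continuous
  have hAn : (g '' S false).Nonempty := hSn.image _
  have hBn : (h '' S false).Nonempty := hSn.image _
  have hdis : ∀ x ∈ g '' S false, x ∉ h '' S false := by
    intro x hx hx'
    exact H (ee_same hs false g h hg hh ⟨x, hx, hx'⟩)
  obtain ⟨a0, ha0, hmin⟩ := hA.exists_isMinOn hAn
    (continuous_infDist_pt (h '' S false)).continuousOn
  have hpos : 0 < infDist a0 (h '' S false) :=
    (hB.isClosed.notMem_iff_infDist_pos hBn).1 (hdis a0 ha0)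
  refine ⟨infDist a0 (h '' S false) / 3, by positivity, ?_⟩
  intro t ht
  rw [Set.disjoint_left]
  rintro x ⟨-, hx1⟩ ⟨-, hx2⟩
  obtain ⟨a, ha, hxa⟩ := hA.exists_infDist_eq_dist hAn x
  obtain ⟨b, hb, hxb⟩ := hB.exists_infDist_eq_dist hBn x
  have h1 : infDist a0 (h '' S false) ≤ infDist a (h '' S false) := hmin ha
  have h2 : infDist a (h '' S false) ≤ dist a b := infDist_le_dist_of_mem hb
  have h3 : dist a b ≤ dist x a + dist x b := by
    have := dist_triangle a x b
    rw [dist_comm a x] at this
    exact this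
  rw [hxa] at hx1
  rw [hxb] at hx2
  linarith

end Pool.Agent.Helper499.HD
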