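import Pool.Agent.Helper499.HD.B24
import Pool.Agent.Helper499.HD.B25
import Pool.Agent.Helper499.HD.B26

set_option autoImplicit false

namespace Pool.Agent.Helper499.HD

open Set Metric Topology

variable {X : Type} [MetricSpace X]

theorem newpath [CompactSpace X] {M : Set X} {S Sp : Bool → Set X} {r : ℝ}
    (hs : Setup M S Sp r) {n : ℕ} {g : ℕ → X ≃ₜ X} {O : ℕ → Set X} {σ : ℕ → Bool}
    (hp : PathS S Sp r n g O σ) {δ : ℝ} (hδ : 0 < δ) {κ : ℕ → X ≃ₜ X} {Oc : ℕ → Set X}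
    {Of : Set X} (hc : Copy S Sp r n g O σ δ κ Oc Of) :
    PathS S Sp r (3 * n + 1) (nG n g κ) (nO n O κ Oc Of) (nS n σ) where
  pos := Nat.succ_pos _
  small := (np_joins hs hp hc).1
  cc := fun i hi => ((np_joins hs hp hc).2 i hi).1
  near := fun i hi => ((np_joins hs hp hc).2 i hi).2.1
  far := fun i hi => ((np_joins hs hp hc).2 i hi).2.2.1
  left := fun i hi => ((np_joins hs hp hc).2 i hi).2.2.2.1
  right := fun i hi => ((np_joins hs hp hc).2 i hi).2.2.2.2
  r0 := np_r0 hs hp hδ hc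
  rn := (np_rn hs hp hδ hc).1
  rr := (np_rn hs hp hδ hc).2
  dd := np_dd hs hp hδ hc

end Pool.Agent.Helper499.HD
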