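import Pool.Agent.Helper499.HD.Defs
import Pool.Agent.Helper499.HD.B21
import Pool.Agent.Helper499.HD.B24
import Pool.Agent.Helper499.HD.B25
import Pool.Agent.Helper499.HD.B26
import Pool.Agent.Helper499.HD.B27
import Pool.Agent.Helper499.HD.B28
import Pool.Agent.Helper499.HD.B29
import Pool.Agent.Helper499.HD.B30
import Pool.Agent.Helper499.HD.B31
import Pool.Agent.Helper499.HD.B32
import Pool.Agent.Helper499.HD.NP

set_option autoImplicit false

namespace Pool.Agent.Helper499.HD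

open Set Metric Topology

variable {X : Type} [MetricSpace X]















/-- the doubling step -/
theorem double [CompactSpace X] (hE : Eff X) {M : Set X} {S Sp : Bool → Set X} {r : ℝ}
    (hs : Setup M S Sp r) (n : ℕ) (g : ℕ → X ≃ₜ X) (O : ℕ → Set X) (σ : ℕ → Bool)
    (hp : PathS S Sp r n g O σ) (τ t : ℝ) (hτ : 0 < τ) (ht : 0 < t)
    (hd : Disjoint (gate S r τ (g 0)) (gate S r τ (g n))) :
    ∃ (n' : ℕ) (g' : ℕ → X ≃ₜ X) (O' : ℕ → Set X) (σ' : ℕ → Bool) (τ' t' : ℝ),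
      PathS S Sp r n' g' O' σ' ∧ 0 < τ' ∧ 0 < t' ∧
      Disjoint (gate S r τ' (g' 0)) (gate S r τ' (g' n')) ∧
      FF S n g O σ ⊆ FF S n' g' O' σ' ∧
      nb t' (FF S n' g' O' σ') ⊆ nb t (FF S n g O σ) ∧
      gate S r τ' (g' 0) ⊆ gate S r τ (g n) ∧ gate S r τ' (g' n') ⊆ gate S r τ (g n) ∧
      ∀ E : Set X, CC E → E ⊆ nb t' (FF S n' g' O' σ') → (E ∩ gate S r τ' (g' n')).Nonempty →
        (E ∩ gate S r τ' (g' 0)).Nonempty → (E ∩ gate S r τ (g 0)).Nonempty := by
  obtain ⟨δ, hδ, hδ0, κ, Oc, Of, hc⟩ := copy_exists hE hs hp (min (t / 6) (τ / 2))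
    (lt_min (by linarith) (by linarith))
  have hδt : δ ≤ t / 6 := hδ0.trans (min_le_left _ _)
  have hδτ : δ ≤ τ / 2 := hδ0.trans (min_le_right _ _)
  have hnp := newpath hs hp hδ hc
  have e0 : nG n g κ 0 = g n := by simp [nG]
  have eN : nG n g κ (3 * n + 1) = (g n).trans (κ n) := by
    unfold nG
    rw [if_neg (by omega)]
    have h1 : (3 * n + 1 - n) / 2 = n := by omega
    have h2 : (3 * n + 1 - n - 1) / 2 = n := by omega
    rw [h1, h2]
  have hcl0 : Cl r (g n) := hp.small n le_rfl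
  have hclN : Cl r ((g n).trans (κ n)) := hc.kg n le_rfl n le_rfl
  have hsub0 : g n '' S false ⊆ FF S n g O σ := subset_union_right
  have hsubN : (g n).trans (κ n) '' S false ⊆ F2 S n g O σ κ Oc Of := fun x hx =>
    Or.inl (Or.inr hx)
  obtain ⟨ε1, hε1, hsep⟩ := gate_sep hs (FF S n g O σ) (F2 S n g O σ κ Oc Of) (ff_cc hs hp).1
    (f2_closed hs hp hc).1 (g 0) (g n) ((g n).trans (κ n)) (ff_inter hs hp hδ hc) hsub0 hsubN τ hτ hd
  obtain ⟨ε2, hε2, hdis⟩ := gate_disj hs (g n) ((g n).trans (κ n)) hcl0 hclN (by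
    have h := hnp.rr
    rw [e0, eN] at h
    exact h)
  obtain ⟨t', ht'⟩ : ∃ t' : ℝ, t' = min (min ε1 ε2) (min (t / 2) (τ / 2)) := ⟨_, rfl⟩
  have ht'0 : 0 < t' := by
    rw [ht']
    exact lt_min (lt_min hε1 hε2) (lt_min (by linarith) (by linarith))
  have ht'1 : t' ≤ ε1 := by rw [ht']; exact (min_le_left _ _).trans (min_le_left _ _)
  have ht'2 : t' ≤ ε2 := by rw [ht']; exact (min_le_left _ _).trans (min_le_right _ _)
  have ht't : t' ≤ t / 2 := by rw [ht']; exact (min_le_right _ _).trans (min_le_left _ _)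
  have ht'τ : t' ≤ τ / 2 := by rw [ht']; exact (min_le_right _ _).trans (min_le_right _ _)
  have hff := ff_new S hp.pos g O σ κ Oc Of
  obtain ⟨s0, hs0⟩ := (hs.hS false).2.nonempty
  have hgate : gate S r t' ((g n).trans (κ n)) ⊆ gate S r τ (g n) := by
    rintro x ⟨hx1, hx2⟩
    refine ⟨hx1, ?_⟩
    have hcomp : IsCompact ((g n).trans (κ n) '' S false) :=
      ((hs.hS false).1.isCompact).image ((g n).trans (κ n)).continuous
    obtain ⟨y, hy, hxy⟩ := hcomp.exists_infDist_eq_dist ⟨_, s0, hs0, rfl⟩ x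
    obtain ⟨z, hz, rfl⟩ := hy
    have h1 : infDist x (g n '' S false) ≤ dist x (g n z) := infDist_le_dist_of_mem ⟨z, hz, rfl⟩
    have h2 : dist x (g n z) ≤ dist x (((g n).trans (κ n)) z) + dist (((g n).trans (κ n)) z) (g n z) :=
      dist_triangle _ _ _
    have h3 : dist (((g n).trans (κ n)) z) (g n z) < δ := hc.kc n le_rfl (g n z)
    rw [hxy] at hx2
    linarith
  have hnb : nb t' (FF S n g O σ ∪ F2 S n g O σ κ Oc Of) ⊆ nb t (FF S n g O σ) := by
    intro x hx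
    have hx' : infDist x (FF S n g O σ ∪ F2 S n g O σ κ Oc Of) ≤ t' := hx
    show infDist x (FF S n g O σ) ≤ t
    have hne : (FF S n g O σ ∪ F2 S n g O σ κ Oc Of).Nonempty :=
      ⟨_, Or.inl (ff_cc hs hp).2.nonempty.some_mem⟩
    have hcomp : IsCompact (FF S n g O σ ∪ F2 S n g O σ κ Oc Of) :=
      ((ff_cc hs hp).1.union (f2_closed hs hp hc).1).isCompact
    obtain ⟨y, hy, hxy⟩ := hcomp.exists_infDist_eq_dist hne x
    have h1 : infDist y (FF S n g O σ) ≤ 3 * δ := by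
      rcases hy with hy | hy
      · rw [infDist_zero_of_mem hy]
        linarith
      · exact ((f2_closed hs hp hc).2 y hy).le
    have h2 : infDist x (FF S n g O σ) ≤ infDist y (FF S n g O σ) + dist x y :=
      infDist_le_infDist_add_dist
    rw [hxy] at hx'
    linarith
  refine ⟨3 * n + 1, nG n g κ, nO n O κ Oc Of, nS n σ, t', t', hnp, ht'0, ht'0, ?_, ?_, ?_, ?_, ?_, ?_⟩
  · rw [e0, eN]
    exact hdis t' ht'2
  · rw [hff]
    exact subset_union_left
  · rw [hff]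
    exact hnb
  · rw [e0]
    rintro x ⟨hx1, hx2⟩
    exact ⟨hx1, hx2.trans (by linarith)⟩
  · rw [eN]
    exact hgate
  · intro E hE1 hE2 hE3 hE4
    rw [hff] at hE2
    rw [eN] at hE3
    rw [e0] at hE4
    exact hsep t' ht'0 ht'1 hgate E hE1 hE2 hE4 hE3

end Pool.Agent.Helper499.HD
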