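import Pool.Agent.Helper499.HD.Defs
import Pool.Agent.Helper499.HD.B14
import Pool.Agent.Helper499.HD.B32

set_option autoImplicit false

namespace Pool.Agent.Helper499.HD

open Set Metric Topology

variable {X : Type} [MetricSpace X]





theorem base_path [CompactSpace X] (hE : Eff X) {M : Set X} {S Sp : Bool → Set X} {r : ℝ}
    (hs : Setup M S Sp r) :
    ∃ (n : ℕ) (g : ℕ → X ≃ₜ X) (O : ℕ → Set X) (σ : ℕ → Bool) (τ : ℝ),
      PathS S Sp r n g O σ ∧ 0 < τ ∧ Disjoint (gate S r τ (g 0)) (gate S r τ (g n)) := by
  have hrefl : Cl r (Homeomorph.refl X) := by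
    intro z
    show dist z z < r
    rw [dist_self]
    exact hs.pos
  obtain ⟨k, O, hk, hO, _, h5, h6, h7, h8, h9⟩ :=
    fold hE hs true (Homeomorph.refl X) hrefl r hs.pos
  have hk' : Cl r ((Homeomorph.refl X).trans k) := fun z => hk z
  obtain ⟨ε, hε, hd⟩ := gate_disj hs _ _ hrefl hk' h9
  let g : ℕ → X ≃ₜ X := fun i => if i = 0 then Homeomorph.refl X else (Homeomorph.refl X).trans k
  have g0 : g 0 = Homeomorph.refl X := rfl
  have g1 : g 1 = (Homeomorph.refl X).trans k := rfl
  refine ⟨1, g, fun _ => O, fun _ => true, ε, ?_, hε, hd ε le_rfl⟩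
  exact
    { pos := one_pos
      small := by
        intro i hi
        interval_cases i
        · exact hrefl
        · exact hk'
      cc := fun i hi => hO
      near := fun i hi x hx => h5 x hx
      far := fun i hi x hx => h6 x hx
      left := by
        intro i hi
        interval_cases i
        exact h7
      right := by
        intro i hi
        interval_cases i
        exact h8
      r0 := by intro i hi h; cases h
      rn := by intro i hi h; cases h
      rr := h9
      dd := by
        intro i j hij hj
        obtain rfl : i = 0 := by omega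
        obtain rfl : j = 1 := by omega
        exact fun h => h9 h.2 }

end Pool.Agent.Helper499.HD
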