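import Pool.Agent.Helper499.HD.Defs
import Pool.Agent.Helper499.HD.B05
import Pool.Agent.Helper499.HD.B29
import Pool.Agent.Helper499.HD.B33
import Pool.Agent.Helper499.HD.B34

set_option autoImplicit false

namespace Pool.Agent.Helper499.HD

open Set Metric Topology

variable {X : Type} [MetricSpace X]







/-- states of the iteration -/
structure setup_false_St (S Sp : Bool → Set X) (r : ℝ) where
  n : ℕ
  g : ℕ → X ≃ₜ X
  O : ℕ → Set X
  σ : ℕ → Bool
  τ : ℝ
  t : ℝ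
  hp : PathS S Sp r n g O σ
  hτ : 0 < τ
  ht : 0 < t
  hd : Disjoint (gate S r τ (g 0)) (gate S r τ (g n))

theorem setup_false_closed_nb (s : ℝ) (K : Set X) : IsClosed (nb s K) :=
  isClosed_le (continuous_infDist_pt K) continuous_const

theorem setup_false_closed_gate (S : Bool → Set X) (r τ : ℝ) (g : X ≃ₜ X) :
    IsClosed (gate S r τ g) :=
  (isClosed_le continuous_const (continuous_infDist_pt _)).inter
    (isClosed_le (continuous_infDist_pt _) continuous_const)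

theorem setup_false_sub_nb {s : ℝ} (hs : 0 ≤ s) (K : Set X) : K ⊆ nb s K := fun x hx => by
  show infDist x K ≤ s
  rw [infDist_zero_of_mem hx]
  exact hs

theorem setup_false_pt {M : Set X} {S Sp : Bool → Set X} {r : ℝ} (hs : Setup M S Sp r)
    (g : X ≃ₜ X) (hg : Cl r g) {τ : ℝ} (hτ : 0 < τ) :
    ∃ y, y ∈ g '' S false ∧ y ∈ gate S r τ g := by
  obtain ⟨x, hx, hfar⟩ := hs.far false
  have hfar' : 100 * r ≤ infDist x (S true) := hfar
  refine ⟨g x, ⟨x, hx, rfl⟩, ?_, ?_⟩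
  · have h1 := infDist_le_infDist_add_dist (s := S true) (x := x) (y := g x)
    have h2 := hg x
    rw [dist_comm] at h2
    have h3 := hs.pos
    linarith
  · show infDist (g x) (g '' S false) ≤ τ
    rw [infDist_zero_of_mem (show g x ∈ g '' S false from ⟨x, hx, rfl⟩)]
    exact hτ.le

theorem setup_false [CompactSpace X] (hE : Eff X) (hD : HerDec X) {M : Set X}
    {S Sp : Bool → Set X} {r : ℝ} (hs : Setup M S Sp r) : False := by
  classical
  have hnext : ∀ a : setup_false_St S Sp r, ∃ b : setup_false_St S Sp r,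
      FF S a.n a.g a.O a.σ ⊆ FF S b.n b.g b.O b.σ ∧
      nb b.t (FF S b.n b.g b.O b.σ) ⊆ nb a.t (FF S a.n a.g a.O a.σ) ∧
      gate S r b.τ (b.g 0) ⊆ gate S r a.τ (a.g a.n) ∧
      gate S r b.τ (b.g b.n) ⊆ gate S r a.τ (a.g a.n) ∧
      ∀ E : Set X, CC E → E ⊆ nb b.t (FF S b.n b.g b.O b.σ) →
        (E ∩ gate S r b.τ (b.g b.n)).Nonempty →
        (E ∩ gate S r b.τ (b.g 0)).Nonempty → (E ∩ gate S r a.τ (a.g 0)).Nonempty := by
    intro a
    obtain ⟨n', g', O', σ', τ', t', h1, h2, h3, h4, h5, h6, h7, h8, h9⟩ :=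
      double hE hs a.n a.g a.O a.σ a.hp a.τ a.t a.hτ a.ht a.hd
    exact ⟨⟨n', g', O', σ', τ', t', h1, h2, h3, h4⟩, h5, h6, h7, h8, h9⟩
  choose nx hnx using hnext
  obtain ⟨n₀, g₀, O₀, σ₀, τ₀, k1, k2, k3⟩ := base_path hE hs
  let a₀ : setup_false_St S Sp r := ⟨n₀, g₀, O₀, σ₀, τ₀, 1, k1, k2, one_pos, k3⟩
  let q : ℕ → setup_false_St S Sp r := fun k => Nat.rec a₀ (fun _ s => nx s) k
  have hq : ∀ k, q (k + 1) = nx (q k) := fun k => rfl
  let F : ℕ → Set X := fun k => FF S (q k).n (q k).g (q k).O (q k).σ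
  let W : ℕ → Set X := fun k => nb (q k).t (F k)
  let A : ℕ → Set X := fun k => gate S r (q k).τ ((q k).g (q k).n)
  let B : ℕ → Set X := fun k => gate S r (q k).τ ((q k).g 0)
  have hFF : ∀ k, F k ⊆ F (k + 1) := fun k => (hnx (q k)).1
  have hWW : ∀ k, W (k + 1) ⊆ W k := fun k => (hnx (q k)).2.1
  have hBA : ∀ k, B (k + 1) ⊆ A k := fun k => (hnx (q k)).2.2.1
  have hAA : ∀ k, A (k + 1) ⊆ A k := fun k => (hnx (q k)).2.2.2.1
  have hSS : ∀ k (E : Set X), CC E → E ⊆ W (k + 1) → (E ∩ A (k + 1)).Nonempty →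
      (E ∩ B (k + 1)).Nonempty → (E ∩ B k).Nonempty := fun k => (hnx (q k)).2.2.2.2
  have hFm : Monotone F := monotone_nat_of_le_succ hFF
  have hWm : Antitone W := antitone_nat_of_succ_le hWW
  have hFW : ∀ k, F k ⊆ W k := fun k => setup_false_sub_nb (q k).ht.le _
  have hFc : ∀ k, CC (F k) := fun k => ff_cc hs (q k).hp
  have hY : CC (closure (⋃ k, F k)) := by
    refine ⟨isClosed_closure, IsConnected.closure ?_⟩
    obtain ⟨x, hx⟩ := (hFc 0).2.nonempty
    refine ⟨⟨x, mem_iUnion.2 ⟨0, hx⟩⟩, ?_⟩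
    exact isPreconnected_iUnion ⟨x, mem_iInter.2 fun k => hFm (Nat.zero_le k) hx⟩
      fun k => (hFc k).2.isPreconnected
  have hYW : ∀ k, closure (⋃ k, F k) ⊆ W k := by
    intro k
    refine closure_minimal ?_ (setup_false_closed_nb _ _)
    refine iUnion_subset fun j => ?_
    rcases le_total j k with h | h
    · exact (hFm h).trans (hFW k)
    · exact (hFW j).trans (hWm h)
  have hYA : ∀ k, (closure (⋃ k, F k) ∩ A k).Nonempty := by
    intro k
    obtain ⟨y, hy1, hy2⟩ := setup_false_pt hs ((q k).g (q k).n) ((q k).hp.small _ le_rfl) (q k).hτ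
    exact ⟨y, subset_closure (mem_iUnion.2 ⟨k, Or.inr hy1⟩), hy2⟩
  have hYB : ∀ k, (closure (⋃ k, F k) ∩ B k).Nonempty := by
    intro k
    obtain ⟨y, hy1, hy2⟩ := setup_false_pt hs ((q k).g 0) ((q k).hp.small _ (Nat.zero_le _))
      (q k).hτ
    exact ⟨y, subset_closure (mem_iUnion.2 ⟨k, Or.inl (Or.inr hy1)⟩), hy2⟩
  obtain ⟨E, hEY, hEc, hEn, hEd⟩ := lemmaK W A B (fun k => setup_false_closed_nb _ _)
    (fun k => setup_false_closed_gate _ _ _ _) (fun k => setup_false_closed_gate _ _ _ _)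
    hWW hAA hBA hSS (q 0).hd.symm _ hY hYW hYA hYB
  obtain ⟨C, D, hC, hD', hCE, hDE, hCD⟩ := hD E hEc hEn
  exact hEd C D hC hD' hCE hDE hCD

end Pool.Agent.Helper499.HD
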