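import Pool.Agent.Helper499.HD.Defs

set_option autoImplicit false

namespace Pool.Agent.Helper499.HD

open Set Metric Topology

variable {X : Type} [MetricSpace X]


theorem cont_conn [CompactSpace X] [LocallyConnectedSpace X] {G : Set X} (hG : IsOpen G)
    (hc : IsPreconnected G) {x y : X} (hx : x ∈ G) (hy : y ∈ G) :
    ∃ C, C ⊆ G ∧ CC C ∧ x ∈ C ∧ y ∈ C := by
  have key : ∀ z ∈ G, ∃ Q : Set X, IsOpen Q ∧ IsConnected Q ∧ z ∈ Q ∧ closure Q ⊆ G := by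
    intro z hz
    obtain ⟨K, hK, hKc, hKG⟩ := exists_mem_nhds_isClosed_subset (hG.mem_nhds hz)
    obtain ⟨V, hVK, hVo, hzV, hVc⟩ :=
      locallyConnectedSpace_iff_subsets_isOpen_isConnected.1 inferInstance z K hK
    exact ⟨V, hVo, hVc, hzV, (closure_minimal hVK hKc).trans hKG⟩
  have step : ∀ Q : Set X, IsConnected Q → closure Q ⊆ G → ∀ q ∈ Q,
      (∃ C, C ⊆ G ∧ CC C ∧ x ∈ C ∧ q ∈ C) → ∀ w ∈ Q, ∃ C, C ⊆ G ∧ CC C ∧ x ∈ C ∧ w ∈ C := by
    rintro Q hQ hQG q hq ⟨C, hCG, hC, hxC, hqC⟩ w hw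
    refine ⟨C ∪ closure Q, union_subset hCG hQG, ⟨hC.1.union isClosed_closure, ?_⟩,
      Or.inl hxC, Or.inr (subset_closure hw)⟩
    exact hC.2.union ⟨q, hqC, subset_closure hq⟩ hQ.closure
  have hTo : IsOpen {z | ∃ C, C ⊆ G ∧ CC C ∧ x ∈ C ∧ z ∈ C} := by
    rw [isOpen_iff_mem_nhds]
    intro z hz
    have hzG : z ∈ G := by
      obtain ⟨C, hCG, _, _, hzC⟩ := hz
      exact hCG hzC
    obtain ⟨Q, hQo, hQc, hzQ, hQG⟩ := key z hzG
    exact Filter.mem_of_superset (hQo.mem_nhds hzQ) (fun w hw => step Q hQc hQG z hzQ hz w hw)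
  have hTc : IsOpen (G \ {z | ∃ C, C ⊆ G ∧ CC C ∧ x ∈ C ∧ z ∈ C}) := by
    rw [isOpen_iff_mem_nhds]
    intro z hz
    obtain ⟨Q, hQo, hQc, hzQ, hQG⟩ := key z hz.1
    refine Filter.mem_of_superset (hQo.mem_nhds hzQ) (fun w hw => ?_)
    refine ⟨hQG (subset_closure hw), fun hwT => hz.2 ?_⟩
    exact step Q hQc hQG w hw hwT z hzQ
  have hsub := IsPreconnected.subset_left_of_subset_union hTo hTc disjoint_sdiff_right
    (fun z hz => by
      by_cases h : z ∈ {z | ∃ C, C ⊆ G ∧ CC C ∧ x ∈ C ∧ z ∈ C}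
      · exact Or.inl h
      · exact Or.inr ⟨hz, h⟩)
    ⟨x, hx, {x}, singleton_subset_iff.2 hx, ⟨isClosed_singleton, isConnected_singleton⟩,
      mem_singleton x, mem_singleton x⟩ hc
  exact hsub hy

end Pool.Agent.Helper499.HD
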