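import Pool.Agent.Helper499.HD.Defs

set_option autoImplicit false

namespace Pool.Agent.Helper499.HD

open Set Metric Topology

variable {X : Type} [MetricSpace X]


theorem thick [CompactSpace X] [LocallyConnectedSpace X] {L U : Set X} (hL : CC L)
    (hU : IsOpen U) (hLU : L ⊆ U) :
    ∃ V, IsOpen V ∧ IsPreconnected V ∧ L ⊆ V ∧ closure V ⊆ U := by
  classical
  have h1 : ∀ x ∈ L, ∃ Q : Set X, IsOpen Q ∧ IsPreconnected Q ∧ x ∈ Q ∧ closure Q ⊆ U := by
    intro x hx
    obtain ⟨ε, hε, hεU⟩ := Metric.nhds_basis_closedBall.mem_iff.1 (hU.mem_nhds (hLU hx))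
    refine ⟨connectedComponentIn (ball x ε) x, isOpen_ball.connectedComponentIn,
      isPreconnected_connectedComponentIn, mem_connectedComponentIn (mem_ball_self hε), ?_⟩
    exact ((closure_mono (connectedComponentIn_subset _ _)).trans closure_ball_subset_closedBall).trans
      hεU
  choose! Q hQo hQp hQx hQU using h1
  obtain ⟨t, htL, ht⟩ := hL.1.isCompact.elim_nhds_subcover Q
    (fun x hx => (hQo x hx).mem_nhds (hQx x hx))
  refine ⟨⋃ x ∈ t, Q x, isOpen_biUnion fun x hx => hQo x (htL x hx), ?_, ht, ?_⟩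
  · obtain ⟨x₀, hx₀⟩ := hL.2.nonempty
    refine isPreconnected_of_forall x₀ ?_
    intro y hy
    obtain ⟨x, hx, hyx⟩ := mem_iUnion₂.1 hy
    refine ⟨L ∪ Q x, union_subset ht ?_, Or.inl hx₀, Or.inr hyx,
      hL.2.isPreconnected.union x (htL x hx) (hQx x (htL x hx)) (hQp x (htL x hx))⟩
    exact fun z hz => mem_iUnion₂.2 ⟨x, hx, hz⟩
  · rw [Finset.closure_biUnion]
    exact iUnion₂_subset fun x hx => hQU x (htL x hx)

end Pool.Agent.Helper499.HD
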