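import Pool.Agent.Helper499.HD.Defs
import Pool.Agent.Helper499.HD.B02
import Pool.Agent.Helper499.HD.B36
import Pool.Agent.Helper499.HD.B37

set_option autoImplicit false

namespace Pool.Agent.Helper499.HD

open Set Metric Topology

variable {X : Type} [MetricSpace X]






/-- rerouting: a continuum from `A` to `y` avoiding `Z` and `K'` -/
theorem reroute [CompactSpace X] [LocallyConnectedSpace X] {W A K K' Z G : Set X}
    (hW : IsOpen W) (hA : IsOpen A) (hK : CC K) (hKW : K ⊆ W) (hK' : IsClosed K')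
    (hZ : IsClosed Z) (hKK : Disjoint K K') (a : X) (ha : a ∈ K) (haA : a ∈ A)
    (hmin : ∀ T', T' ⊆ K → CC T' → a ∈ T' → (T' ∩ Z).Nonempty → T' = K)
    (hG : IsOpen G) (hGc : IsPreconnected G) (hGW : G ⊆ W) (hGK : Disjoint G K')
    (hGZ : Disjoint G Z) (y : X) (p : X) (hp : p ∈ K) (hpZ : p ∉ Z)
    (hyp : (y ∈ G ∧ p ∈ closure G) ∨ y = p) :
    ∃ L, L ⊆ W ∧ CC L ∧ y ∈ L ∧ (L ∩ A).Nonempty ∧ Disjoint L K' ∧ Disjoint L Z := by
  have hpW : p ∈ W := hKW hp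
  have hpK' : p ∉ K' := fun h => Set.disjoint_left.mp hKK hp h
  have hUo : IsOpen (W \ (K' ∪ Z)) := hW.sdiff (hK'.union hZ)
  have hpU : p ∈ W \ (K' ∪ Z) := ⟨hpW, fun h => h.elim hpK' hpZ⟩
  have hsing : CC ({p} : Set X) := ⟨isClosed_singleton, isConnected_singleton⟩
  obtain ⟨Np, hNo, hNc, hpN, hNU⟩ := thick hsing hUo (Set.singleton_subset_iff.mpr hpU)
  have hpN' : p ∈ Np := hpN rfl
  have hcl : CC (closure Np) :=
    ⟨isClosed_closure, IsConnected.closure ⟨⟨p, hpN'⟩, hNc⟩⟩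
  have hclW : closure Np ⊆ W := fun x hx => (hNU hx).1
  have hclK : Disjoint (closure Np) K' :=
    Set.disjoint_left.mpr fun x hx h => (hNU hx).2 (Or.inl h)
  have hclZ : Disjoint (closure Np) Z :=
    Set.disjoint_left.mpr fun x hx h => (hNU hx).2 (Or.inr h)
  obtain ⟨T, hT, hyT, hTW, hTK, hTZ, hTN⟩ : ∃ T : Set X, CC T ∧ y ∈ T ∧ T ⊆ W ∧
      Disjoint T K' ∧ Disjoint T Z ∧ (T ∩ closure Np).Nonempty := by
    rcases hyp with ⟨hy, hpG⟩ | rfl
    · obtain ⟨q, hqN, hqG⟩ := mem_closure_iff.mp hpG Np hNo hpN'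
      obtain ⟨T, h1, h2, h3, h4⟩ := cont_conn hG hGc hy hqG
      exact ⟨T, h2, h3, h1.trans hGW, hGK.mono_left h1, hGZ.mono_left h1,
        ⟨q, h4, subset_closure hqN⟩⟩
    · exact ⟨{y}, hsing, rfl, Set.singleton_subset_iff.mpr hpW,
        Set.disjoint_singleton_left.mpr hpK', Set.disjoint_singleton_left.mpr hpZ,
        ⟨y, rfl, subset_closure hpN'⟩⟩
  have hNT : CC (closure Np ∪ T) := by
    refine ⟨hcl.1.union hT.1, ?_⟩
    obtain ⟨z, hz1, hz2⟩ := hTN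
    exact IsConnected.union ⟨z, hz2, hz1⟩ hcl.2 hT.2
  by_cases haN : a ∈ closure Np
  · exact ⟨closure Np ∪ T, union_subset hclW hTW, hNT, Or.inr hyT, ⟨a, Or.inl haN, haA⟩,
      Set.disjoint_union_left.mpr ⟨hclK, hTK⟩, Set.disjoint_union_left.mpr ⟨hclZ, hTZ⟩⟩
  · have haN' : a ∉ Np := fun h => haN (subset_closure h)
    obtain ⟨C, hCK, hC, haC, hCN⟩ := bump hK hNo ha haN' ⟨p, hp, hpN'⟩
    have hCK1 : C ⊆ K := fun x hx => (hCK hx).1
    have hCZ : Disjoint C Z := by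
      by_contra h
      have h2 : (C ∩ Z).Nonempty := Set.not_disjoint_iff_nonempty_inter.mp h
      have h3 := hmin C hCK1 hC haC h2
      have h4 : p ∈ C := by rw [h3]; exact hp
      exact (hCK h4).2 hpN'
    refine ⟨C ∪ (closure Np ∪ T), union_subset (hCK1.trans hKW) (union_subset hclW hTW),
      ⟨hC.1.union hNT.1, ?_⟩, Or.inr (Or.inr hyT), ⟨a, Or.inl haC, haA⟩, ?_, ?_⟩
    · obtain ⟨z, hz1, hz2⟩ := hCN
      exact IsConnected.union ⟨z, hz1, Or.inl hz2⟩ hC.2 hNT.2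
    · exact Set.disjoint_union_left.mpr ⟨hKK.mono_left hCK1,
        Set.disjoint_union_left.mpr ⟨hclK, hTK⟩⟩
    · exact Set.disjoint_union_left.mpr ⟨hCZ, Set.disjoint_union_left.mpr ⟨hclZ, hTZ⟩⟩

end Pool.Agent.Helper499.HD
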