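import Pool.Agent.Helper499.HD.Defs
import Pool.Agent.Helper499.HD.B03
import Pool.Agent.Helper499.HD.B36
import Pool.Agent.Helper499.HD.B37
import Pool.Agent.Helper499.HD.B38

set_option autoImplicit false

namespace Pool.Agent.Helper499.HD

open Set Metric Topology

variable {X : Type} [MetricSpace X]







theorem link_open_aux [CompactSpace X] [LocallyConnectedSpace X] {W A O T T' Z G : Set X}
    (hW : IsOpen W) (hA : IsOpen A) (hT : CC T) (hTW : T ⊆ W) (hT' : CC T') (hT'W : T' ⊆ W)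
    (hZ : CC Z) (hZW : Z ⊆ W) (hTT : Disjoint T T') (a : X) (ha : a ∈ T) (haA : a ∈ A)
    (hmin : ∀ T₀, T₀ ⊆ T → CC T₀ → a ∈ T₀ → (T₀ ∩ Z).Nonempty → T₀ = T)
    (hT'A : (T' ∩ A).Nonempty) (hT'Z : (T' ∩ Z).Nonempty) (hZO : (Z ∩ O).Nonempty)
    (hG : IsOpen G) (hGc : IsPreconnected G) (hGW : G ⊆ W) (hGK : Disjoint G T')
    (hGZ : Disjoint G Z) (y : X) (hyO : y ∈ O) (p : X) (hp : p ∈ T) (hpZ : p ∉ Z)
    (hyp : (y ∈ G ∧ p ∈ closure G) ∨ y = p) : Linked W A O := by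
  obtain ⟨L, hLW, hLc, hyL, hLA, hLT, hLZ⟩ := reroute hW hA hT hTW hT'.1 hZ.1 hTT a ha haA hmin
    hG hGc hGW hGK hGZ y p hp hpZ hyp
  refine ⟨L, T' ∪ Z, hLc, ⟨hT'.1.union hZ.1, IsConnected.union hT'Z hT'.2 hZ.2⟩, hLW,
    union_subset hT'W hZW, ?_, hLA, ⟨y, hyL, hyO⟩, ?_, ?_⟩
  · exact disjoint_union_right.2 ⟨hLT, hLZ⟩
  · exact hT'A.mono (inter_subset_inter_left _ subset_union_left)
  · exact hZO.mono (inter_subset_inter_left _ subset_union_right)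

theorem link_open_cc (x : X) : CC ({x} : Set X) := ⟨isClosed_singleton, isConnected_singleton⟩

/-- two disjoint continua from `A` to an open set with two good limit points -/
theorem link_open [CompactSpace X] [LocallyConnectedSpace X] {W A O : Set X} (hW : IsOpen W)
    (hA : IsOpen A) (hAW : A ⊆ W) (hO : IsOpen O) (hOW : O ⊆ W) (z₁ z₂ : X) (hz : z₁ ≠ z₂)
    (hz₁ : z₁ ∈ W) (hz₂ : z₂ ∈ W) (hc₁ : z₁ ∈ closure O) (hc₂ : z₂ ∈ closure O)
    (hg₁ : GoodPt W A z₁) (hg₂ : GoodPt W A z₂) : Linked W A O := by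
  -- step 1
  obtain ⟨N2, hN2o, hN2c, hzN2, hN2W⟩ := thick (link_open_cc z₂) (hW.sdiff isClosed_singleton)
    (show ({z₂} : Set X) ⊆ W \ {z₁} from by
      rintro x rfl
      exact ⟨hz₂, fun h => hz h.symm⟩)
  have hz2N : z₂ ∈ N2 := hzN2 rfl
  -- step 2
  obtain ⟨K2, hK2, hK2W, hK2A, hK2N, hz1K2⟩ : ∃ K2, CC K2 ∧ K2 ⊆ W ∧ (K2 ∩ A).Nonempty ∧
      (K2 ∩ N2).Nonempty ∧ z₁ ∉ K2 := by
    obtain ⟨K, K', c1, c2, c3, c4, c5, c6, c7, c8, c9⟩ := hg₂ N2 hN2o hz2N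
    by_cases h : z₁ ∈ K
    · exact ⟨K', c2, c4, c8, c9, fun h' => Set.disjoint_left.1 c5 h h'⟩
    · exact ⟨K, c1, c3, c6, c7, h⟩
  obtain ⟨L, hL⟩ : ∃ L : Set X, L = K2 ∪ closure N2 := ⟨_, rfl⟩
  have hLCC : CC L := by
    rw [hL]
    refine ⟨hK2.1.union isClosed_closure, IsConnected.union
      (hK2N.mono (inter_subset_inter_right _ subset_closure)) hK2.2 ?_⟩
    exact ⟨⟨z₂, subset_closure hz2N⟩, hN2c.closure⟩
  have hLW : L ⊆ W := by
    rw [hL]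
    exact union_subset hK2W (hN2W.trans diff_subset)
  have hz1L : z₁ ∉ L := by
    rw [hL]
    rintro (h | h)
    · exact hz1K2 h
    · exact (hN2W h).2 rfl
  have hLA : (L ∩ A).Nonempty := by
    rw [hL]
    exact hK2A.mono (inter_subset_inter_left _ subset_union_left)
  obtain ⟨y2, hy2N, hy2O⟩ : ∃ y2, y2 ∈ N2 ∧ y2 ∈ O := by
    obtain ⟨y, h1, h2⟩ := mem_closure_iff.1 hc₂ N2 hN2o hz2N
    exact ⟨y, h1, h2⟩
  have hy2L : y2 ∈ L := by
    rw [hL]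
    exact Or.inr (subset_closure hy2N)
  -- step 5
  obtain ⟨N1, hN1o, hN1c, hzN1, hN1W⟩ := thick (link_open_cc z₁) (hW.sdiff hLCC.1)
    (show ({z₁} : Set X) ⊆ W \ L from by
      rintro x rfl
      exact ⟨hz₁, hz1L⟩)
  have hz1N : z₁ ∈ N1 := hzN1 rfl
  obtain ⟨Z, hZ⟩ : ∃ Z : Set X, Z = closure N1 := ⟨_, rfl⟩
  have hZCC : CC Z := by
    rw [hZ]
    exact ⟨isClosed_closure, ⟨z₁, subset_closure hz1N⟩, hN1c.closure⟩
  have hZW : Z ⊆ W := by rw [hZ]; exact hN1W.trans diff_subset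
  have hZL : Disjoint L Z := by
    rw [Set.disjoint_left]
    intro x hx hxZ
    rw [hZ] at hxZ
    exact (hN1W hxZ).2 hx
  have hZO : (Z ∩ O).Nonempty := by
    obtain ⟨y, h1, h2⟩ := mem_closure_iff.1 hc₁ N1 hN1o hz1N
    exact ⟨y, by rw [hZ]; exact subset_closure h1, h2⟩
  have hy2Z : y2 ∉ Z := fun h => Set.disjoint_left.1 hZL hy2L h
  -- step 6
  obtain ⟨K, K', c1, c2, c3, c4, c5, ⟨a, haK, haA⟩, c7, ⟨a', haK', haA'⟩, c9⟩ := hg₁ N1 hN1o hz1N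
  have hNZ : N1 ⊆ Z := by rw [hZ]; exact subset_closure
  obtain ⟨T, hTK, hT, ⟨b, hbT, hba⟩, hTZ, hTmin⟩ := irred (A := {a}) (B := Z) c1
    isClosed_singleton hZCC.1 ⟨a, haK, rfl⟩ (c7.mono (inter_subset_inter_right _ hNZ))
  rw [mem_singleton_iff] at hba
  subst hba
  obtain ⟨T', hTK', hT', ⟨b', hbT', hba'⟩, hTZ', hTmin'⟩ := irred (A := {a'}) (B := Z) c2
    isClosed_singleton hZCC.1 ⟨a', haK', rfl⟩ (c9.mono (inter_subset_inter_right _ hNZ))
  rw [mem_singleton_iff] at hba'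
  subst hba'
  have hmin : ∀ T₀, T₀ ⊆ T → CC T₀ → b ∈ T₀ → (T₀ ∩ Z).Nonempty → T₀ = T :=
    fun T₀ h1 h2 h3 h4 => hTmin T₀ h1 h2 ⟨b, h3, rfl⟩ h4
  have hmin' : ∀ T₀, T₀ ⊆ T' → CC T₀ → b' ∈ T₀ → (T₀ ∩ Z).Nonempty → T₀ = T' :=
    fun T₀ h1 h2 h3 h4 => hTmin' T₀ h1 h2 ⟨b', h3, rfl⟩ h4
  have hTT : Disjoint T T' := c5.mono hTK hTK'
  have hTW : T ⊆ W := hTK.trans c3
  have hTW' : T' ⊆ W := hTK'.trans c4
  by_cases hy1 : y2 ∈ T
  · exact link_open_aux (G := ∅) hW hA hT hTW hT' hTW' hZCC hZW hTT b hbT haA hmin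
      ⟨b', hbT', haA'⟩ hTZ' hZO isOpen_empty isPreconnected_empty (empty_subset _)
      (empty_disjoint _) (empty_disjoint _) y2 hy2O y2 hy1 hy2Z (Or.inr rfl)
  by_cases hy1' : y2 ∈ T'
  · exact link_open_aux (G := ∅) hW hA hT' hTW' hT hTW hZCC hZW hTT.symm b' hbT' haA' hmin'
      ⟨b, hbT, haA⟩ hTZ hZO isOpen_empty isPreconnected_empty (empty_subset _)
      (empty_disjoint _) (empty_disjoint _) y2 hy2O y2 hy1' hy2Z (Or.inr rfl)
  by_cases hdis : Disjoint L (T ∪ T')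
  · refine ⟨L, T ∪ Z, hLCC, ⟨hT.1.union hZCC.1, IsConnected.union hTZ hT.2 hZCC.2⟩, hLW,
      union_subset hTW hZW, ?_, hLA, ⟨y2, hy2L, hy2O⟩, ⟨b, Or.inl hbT, haA⟩, ?_⟩
    · exact disjoint_union_right.2 ⟨(disjoint_union_right.1 hdis).1, hZL⟩
    · exact hZO.mono (inter_subset_inter_left _ subset_union_right)
  obtain ⟨D, hD⟩ : ∃ D : Set X, D = W \ (T ∪ T' ∪ Z) := ⟨_, rfl⟩
  have hDo : IsOpen D := by
    rw [hD]
    exact hW.sdiff ((hT.1.union hT'.1).union hZCC.1)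
  have hy2D : y2 ∈ D := by
    rw [hD]
    refine ⟨hLW hy2L, ?_⟩
    rintro ((h | h) | h)
    · exact hy1 h
    · exact hy1' h
    · exact hy2Z h
  obtain ⟨G, hG⟩ : ∃ G : Set X, G = connectedComponentIn D y2 := ⟨_, rfl⟩
  have hGo : IsOpen G := by rw [hG]; exact hDo.connectedComponentIn
  have hGc : IsPreconnected G := by rw [hG]; exact isPreconnected_connectedComponentIn
  have hyG : y2 ∈ G := by rw [hG]; exact mem_connectedComponentIn hy2D
  have hGD : G ⊆ D := by rw [hG]; exact connectedComponentIn_subset D y2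
  have hGW : G ⊆ W := by
    refine hGD.trans ?_
    rw [hD]
    exact diff_subset
  have hGT : Disjoint G T := by
    rw [Set.disjoint_left]
    intro x hx hxT
    have := hGD hx
    rw [hD] at this
    exact this.2 (Or.inl (Or.inl hxT))
  have hGT' : Disjoint G T' := by
    rw [Set.disjoint_left]
    intro x hx hxT
    have := hGD hx
    rw [hD] at this
    exact this.2 (Or.inl (Or.inr hxT))
  have hGZ : Disjoint G Z := by
    rw [Set.disjoint_left]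
    intro x hx hxT
    have := hGD hx
    rw [hD] at this
    exact this.2 (Or.inr hxT)
  obtain ⟨p, hpL, hpG, hpG'⟩ : ∃ p, p ∈ L ∧ p ∈ closure G ∧ p ∉ G := by
    by_contra hcon
    push Not at hcon
    have hLG : L ⊆ G := hLCC.2.isPreconnected.subset_of_closure_inter_subset hGo
      ⟨y2, hy2L, hyG⟩ (fun x hx => hcon x hx.2 hx.1)
    apply hdis
    rw [Set.disjoint_left]
    rintro x hx (h | h)
    · exact Set.disjoint_left.1 hGT (hLG hx) h
    · exact Set.disjoint_left.1 hGT' (hLG hx) h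
  have hpZ : p ∉ Z := fun h => Set.disjoint_left.1 hZL hpL h
  have hpT : p ∈ T ∨ p ∈ T' := by
    by_contra hcon
    push Not at hcon
    have hpD : p ∈ D := by
      rw [hD]
      refine ⟨hLW hpL, ?_⟩
      rintro ((h | h) | h)
      · exact hcon.1 h
      · exact hcon.2 h
      · exact hpZ h
    apply hpG'
    have h1 : IsPreconnected (closure G ∩ D) :=
      hGc.subset_closure (fun x hx => ⟨subset_closure hx, hGD hx⟩) inter_subset_left
    have h2 := h1.subset_connectedComponentIn ⟨subset_closure hyG, hy2D⟩ inter_subset_right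
    rw [hG]
    exact h2 ⟨by rw [hG] at hpG; exact hG ▸ hpG, hpD⟩
  rcases hpT with hp | hp
  · exact link_open_aux hW hA hT hTW hT' hTW' hZCC hZW hTT b hbT haA hmin
      ⟨b', hbT', haA'⟩ hTZ' hZO hGo hGc hGW hGT' hGZ y2 hy2O p hp hpZ (Or.inl ⟨hyG, hpG⟩)
  · exact link_open_aux hW hA hT' hTW' hT hTW hZCC hZW hTT.symm b' hbT' haA' hmin'
      ⟨b, hbT, haA⟩ hTZ hZO hGo hGc hGW hGT hGZ y2 hy2O p hp hpZ (Or.inl ⟨hyG, hpG⟩)

end Pool.Agent.Helper499.HD
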