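import Pool.Agent.Helper499.HD.Defs
import Pool.Agent.Helper499.HD.B02
import Pool.Agent.Helper499.HD.B03
import Pool.Agent.Helper499.HD.B36

set_option autoImplicit false

namespace Pool.Agent.Helper499.HD

open Set Metric Topology

variable {X : Type} [MetricSpace X]






theorem good_of_linked [CompactSpace X] [LocallyConnectedSpace X] {W A O : Set X}
    (hW : IsOpen W) (hA : IsOpen A) (hO : IsOpen O) (hOc : IsPreconnected O) (hOW : O ⊆ W)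
    (hl : Linked W A O) : ∃ y ∈ O, GoodPt W A y := by
  obtain ⟨L1, L2, hL1, hL2, hL1W, hL2W, hdis, hL1A, hL1O, hL2A, hL2O⟩ := hl
  obtain ⟨l1, hl1, hl1O⟩ := hL1O
  obtain ⟨l2, hl2, hl2O⟩ := hL2O
  obtain ⟨T0, hT0O, hT0, hl1T, hl2T⟩ := cont_conn hO hOc hl1O hl2O
  obtain ⟨T, hTT0, hT, hTL1, hTL2, hmin⟩ := irred hT0 hL1.1 hL2.1 ⟨l1, hl1T, hl1⟩ ⟨l2, hl2T, hl2⟩
  have hy : ∃ y ∈ T, y ∉ L1 ∧ y ∉ L2 := by
    by_contra hcon
    push Not at hcon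
    have hcov : T ⊆ L1 ∪ L2 := by
      intro y hy
      by_cases h : y ∈ L1
      · exact Or.inl h
      · exact Or.inr (hcon y hy h)
    have h := isPreconnected_closed_iff.mp hT.2.isPreconnected L1 L2 hL1.1 hL2.1 hcov hTL1 hTL2
    obtain ⟨z, -, hz1, hz2⟩ := h
    exact Set.disjoint_left.mp hdis hz1 hz2
  obtain ⟨y, hyT, hy1, hy2⟩ := hy
  refine ⟨y, hT0O (hTT0 hyT), ?_⟩
  intro N hN hyN
  have hopen : IsOpen (N ∩ (L1ᶜ ∩ L2ᶜ)) :=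
    hN.inter (hL1.1.isOpen_compl.inter hL2.1.isOpen_compl)
  obtain ⟨ε, hε, hball⟩ := Metric.isOpen_iff.mp hopen y ⟨hyN, hy1, hy2⟩
  have hcl : closure (ball y (ε / 2)) ⊆ N ∩ (L1ᶜ ∩ L2ᶜ) := by
    refine (closure_ball_subset_closedBall).trans ?_
    exact (closedBall_subset_ball (by linarith)).trans hball
  have hyN1 : y ∈ ball y (ε / 2) := mem_ball_self (by linarith)
  have hN1o : IsOpen (ball y (ε / 2)) := isOpen_ball
  obtain ⟨t1, ht1T, ht1⟩ := hTL1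
  obtain ⟨t2, ht2T, ht2⟩ := hTL2
  have ht1N : t1 ∉ ball y (ε / 2) := fun h => (hcl (subset_closure h)).2.1 ht1
  have ht2N : t2 ∉ ball y (ε / 2) := fun h => (hcl (subset_closure h)).2.2 ht2
  obtain ⟨C1, hC1s, hC1, ht1C, hC1N⟩ := bump hT hN1o ht1T ht1N ⟨y, hyT, hyN1⟩
  obtain ⟨C2, hC2s, hC2, ht2C, hC2N⟩ := bump hT hN1o ht2T ht2N ⟨y, hyT, hyN1⟩
  have hyC1 : y ∉ C1 := fun h => (hC1s h).2 hyN1
  have hyC2 : y ∉ C2 := fun h => (hC2s h).2 hyN1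
  have hC1T : C1 ⊆ T := fun z hz => (hC1s hz).1
  have hC2T : C2 ⊆ T := fun z hz => (hC2s hz).1
  have hd1 : ∀ z ∈ C1, z ∉ L2 := by
    intro z hz hz2
    have := hmin C1 hC1T hC1 ⟨t1, ht1C, ht1⟩ ⟨z, hz, hz2⟩
    exact hyC1 (this ▸ hyT)
  have hd2 : ∀ z ∈ C2, z ∉ L1 := by
    intro z hz hz1
    have := hmin C2 hC2T hC2 ⟨z, hz, hz1⟩ ⟨t2, ht2C, ht2⟩
    exact hyC2 (this ▸ hyT)
  have hd3 : ∀ z ∈ C1, z ∉ C2 := by
    intro z hz hz2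
    have hU : CC (C1 ∪ C2) :=
      ⟨hC1.1.union hC2.1, IsConnected.union ⟨z, hz, hz2⟩ hC1.2 hC2.2⟩
    have := hmin (C1 ∪ C2) (union_subset hC1T hC2T) hU ⟨t1, Or.inl ht1C, ht1⟩
      ⟨t2, Or.inr ht2C, ht2⟩
    have hyU : y ∈ C1 ∪ C2 := this ▸ hyT
    rcases hyU with h | h
    · exact hyC1 h
    · exact hyC2 h
  have hTW : T ⊆ W := hTT0.trans (hT0O.trans hOW)
  refine ⟨L1 ∪ C1, L2 ∪ C2, ⟨hL1.1.union hC1.1, IsConnected.union ⟨t1, ht1, ht1C⟩ hL1.2 hC1.2⟩,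
    ⟨hL2.1.union hC2.1, IsConnected.union ⟨t2, ht2, ht2C⟩ hL2.2 hC2.2⟩,
    union_subset hL1W (hC1T.trans hTW), union_subset hL2W (hC2T.trans hTW), ?_, ?_, ?_, ?_, ?_⟩
  · rw [Set.disjoint_left]
    rintro z (hz | hz) (hz' | hz')
    · exact Set.disjoint_left.mp hdis hz hz'
    · exact hd2 z hz' hz
    · exact hd1 z hz hz'
    · exact hd3 z hz hz'
  · obtain ⟨a, ha, haA⟩ := hL1A
    exact ⟨a, Or.inl ha, haA⟩
  · obtain ⟨a, ha, haN⟩ := hC1N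
    exact ⟨a, Or.inr ha, (hcl haN).1⟩
  · obtain ⟨a, ha, haA⟩ := hL2A
    exact ⟨a, Or.inl ha, haA⟩
  · obtain ⟨a, ha, haN⟩ := hC2N
    exact ⟨a, Or.inr ha, (hcl haN).1⟩

end Pool.Agent.Helper499.HD
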