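import Pool.Agent.Helper499.HD.Defs
import Pool.Agent.Helper499.HD.B39
import Pool.Agent.Helper499.HD.B40

set_option autoImplicit false

namespace Pool.Agent.Helper499.HD

open Set Metric Topology

variable {X : Type} [MetricSpace X]





/-- Menger's theorem for two disjoint continua -/
theorem menger [CompactSpace X] [LocallyConnectedSpace X] (hperf : ∀ x : X, ¬ IsOpen ({x} : Set X))
    {W A B : Set X} (hW : IsOpen W) (hWc : IsPreconnected W)
    (hnc : ∀ x ∈ W, IsPreconnected (W \ {x})) (hA : IsOpen A) (hB : IsOpen B) (hAW : A ⊆ W)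
    (hBW : B ⊆ W) (hAne : A.Nonempty) (hBne : B.Nonempty) : Linked W A B := by
  classical
  by_contra hL
  have hAF : ∀ z ∈ A, GoodPt W A z := by
    intro z hz N hN hzN
    have hex : ∃ a ∈ N ∩ A, a ≠ z := by
      by_contra hcon
      push Not at hcon
      apply hperf z
      have : N ∩ A = {z} := by
        apply Set.Subset.antisymm
        · intro y hy; exact hcon y hy
        · intro y hy; rw [Set.mem_singleton_iff] at hy; rw [hy]; exact ⟨hzN, hz⟩
      rw [← this]; exact hN.inter hA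
    obtain ⟨a, ha, haz⟩ := hex
    refine ⟨{z}, {a}, ⟨isClosed_singleton, isConnected_singleton⟩,
      ⟨isClosed_singleton, isConnected_singleton⟩, ?_, ?_, ?_, ?_, ?_, ?_, ?_⟩
    · exact Set.singleton_subset_iff.mpr (hAW hz)
    · exact Set.singleton_subset_iff.mpr (hAW ha.2)
    · exact Set.disjoint_singleton.mpr haz.symm
    · exact ⟨z, rfl, hz⟩
    · exact ⟨z, rfl, hzN⟩
    · exact ⟨a, rfl, ha.2⟩
    · exact ⟨a, rfl, ha.1⟩
  have hBF : ∀ z ∈ B, ¬ GoodPt W A z := fun z hz hg => hL (hg B hB hz)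
  let G0 : Set X := {z | z ∈ W ∧ ¬ GoodPt W A z}
  have hG0 : IsOpen G0 := by
    rw [isOpen_iff_mem_nhds]
    rintro z ⟨hzW, hzg⟩
    unfold GoodPt at hzg
    push Not at hzg
    obtain ⟨N, hN, hzN, hNl⟩ := hzg
    refine Filter.mem_of_superset ((hN.inter hW).mem_nhds ⟨hzN, hzW⟩) ?_
    rintro y ⟨hyN, hyW⟩
    exact ⟨hyW, fun hg => hNl (hg N hN hyN)⟩
  obtain ⟨b, hb⟩ := hBne
  obtain ⟨a, ha⟩ := hAne
  have hbG : b ∈ G0 := ⟨hBW hb, hBF b hb⟩
  set O : Set X := connectedComponentIn G0 b with hOdef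
  have hOo : IsOpen O := hG0.connectedComponentIn
  have hOp : IsPreconnected O := isPreconnected_connectedComponentIn
  have hbO : b ∈ O := mem_connectedComponentIn hbG
  have hOG : O ⊆ G0 := connectedComponentIn_subset _ _
  have hOW : O ⊆ W := fun y hy => (hOG hy).1
  have hbd : ∀ z, z ∈ W → z ∈ closure O → z ∉ O → GoodPt W A z := by
    intro z hzW hzc hzO
    by_contra hg
    have hzG : z ∈ G0 := ⟨hzW, hg⟩
    have h1 : IsOpen (connectedComponentIn G0 z) := hG0.connectedComponentIn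
    have h2 : z ∈ connectedComponentIn G0 z := mem_connectedComponentIn hzG
    obtain ⟨y, hy1, hy2⟩ := mem_closure_iff.mp hzc _ h1 h2
    have e1 := connectedComponentIn_eq hy1
    have e2 := connectedComponentIn_eq hy2
    apply hzO
    rw [hOdef, e2, ← e1]
    exact h2
  have hAO : Disjoint A O := by
    rw [Set.disjoint_left]
    intro y hyA hyO
    exact (hOG hyO).2 (hAF y hyA)
  have hAc : Disjoint A (closure O) := hAO.closure_right hA
  have haO : a ∉ closure O := fun h => Set.disjoint_left.mp hAc ha h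
  have haW : a ∈ W := hAW ha
  have hbW : b ∈ W := hOW hbO
  by_cases htwo : ∃ z₁ z₂, z₁ ≠ z₂ ∧ (z₁ ∈ W ∧ z₁ ∈ closure O ∧ z₁ ∉ O) ∧
      (z₂ ∈ W ∧ z₂ ∈ closure O ∧ z₂ ∉ O)
  · obtain ⟨z₁, z₂, hne, ⟨h11, h12, h13⟩, ⟨h21, h22, h23⟩⟩ := htwo
    have hl := link_open hW hA hAW hOo hOW z₁ z₂ hne h11 h21 h12 h22 (hbd z₁ h11 h12 h13)
      (hbd z₂ h21 h22 h23)
    obtain ⟨y, hyO, hy⟩ := good_of_linked hW hA hOo hOp hOW hl
    exact (hOG hyO).2 hy
  · push Not at htwo
    by_cases hone : ∃ z, z ∈ W ∧ z ∈ closure O ∧ z ∉ O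
    · obtain ⟨z, hzW, hzc, hzO⟩ := hone
      have hp := hnc z hzW O (closure O)ᶜ hOo isClosed_closure.isOpen_compl (by
        rintro y ⟨hyW, hyz⟩
        by_cases hyO : y ∈ O
        · exact Or.inl hyO
        · refine Or.inr fun hyc => ?_
          have := htwo y z hyz ⟨hyW, hyc, hyO⟩ hzW hzc
          exact hzO this) ⟨b, ⟨hbW, fun h => hzO (h ▸ hbO)⟩, hbO⟩
        ⟨a, ⟨haW, fun h => haO (h ▸ hzc)⟩, haO⟩
      obtain ⟨y, -, hy1, hy2⟩ := hp
      exact hy2 (subset_closure hy1)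
    · push Not at hone
      have hp := hWc O (closure O)ᶜ hOo isClosed_closure.isOpen_compl (by
        intro y hyW
        by_cases hyc : y ∈ closure O
        · exact Or.inl (hone y hyW hyc)
        · exact Or.inr hyc) ⟨b, hbW, hbO⟩ ⟨a, haW, haO⟩
      obtain ⟨y, -, hy1, hy2⟩ := hp
      exact hy2 (subset_closure hy1)
end Pool.Agent.Helper499.HD
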