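import Pool.Agent.Helper499.HD.Defs
import Pool.Agent.Helper499.HD.B37
import Pool.Agent.Helper499.HD.B41

set_option autoImplicit false

namespace Pool.Agent.Helper499.HD

open Set Metric Topology

variable {X : Type} [MetricSpace X]





theorem nc_double [CompactSpace X] [LocallyConnectedSpace X]
    (hperf : ∀ x : X, ¬ IsOpen ({x} : Set X)) (hNC : NC X) (W A B : Set X)
    (hW : IsOpen W) (hWc : IsPreconnected W) (hA : IsOpen A) (hB : IsOpen B)
    (hBc : IsPreconnected B) (hAne : A.Nonempty) (hBne : B.Nonempty) (hAW : closure A ⊆ W)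
    (hBW : closure B ⊆ W) (hAB : Disjoint (closure A) (closure B)) :
    ∃ W' A' B' : Set X, IsOpen W' ∧ IsPreconnected W' ∧ IsOpen A' ∧ IsOpen B' ∧
      IsPreconnected B' ∧ A'.Nonempty ∧ B'.Nonempty ∧ closure A' ⊆ W' ∧ closure B' ⊆ W' ∧
      Disjoint (closure A') (closure B') ∧ closure W' ⊆ W ∧ closure A' ⊆ A ∧ closure B' ⊆ A ∧
      ∀ E : Set X, CC E → E ⊆ closure W' → (E ∩ closure A').Nonempty →
        (E ∩ closure B').Nonempty → (E ∩ closure B).Nonempty := by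
  obtain ⟨K, K', hK, hK', hKW, hKW', hdis, ⟨a1, ha1K, ha1A⟩, ⟨b1, hb1K, hb1B⟩, ⟨a2, ha2K, ha2A⟩,
    ⟨b2, hb2K, hb2B⟩⟩ := menger hperf hW hWc (hNC W hW hWc) hA hB (subset_closure.trans hAW)
    (subset_closure.trans hBW) hAne hBne
  obtain ⟨U1, hU1, hKU1, hU1c⟩ := normal_exists_closure_subset hK.1
    (hW.inter hK'.1.isOpen_compl) (fun x hx => ⟨hKW hx, fun hx' => (hdis.le_bot ⟨hx, hx'⟩ : x ∈ (∅ : Set X))⟩)
  obtain ⟨U2, hU2, hKU2, hU2c⟩ := normal_exists_closure_subset hK'.1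
    (hW.inter (isClosed_closure (s := U1)).isOpen_compl)
    (fun x hx => ⟨hKW' hx, fun hx' => (hU1c hx').2 hx⟩)
  obtain ⟨V1, hV1, hV1c, hKV1, hV1U⟩ := thick hK hU1 hKU1
  obtain ⟨V2, hV2, hV2c, hKV2, hV2U⟩ := thick hK' hU2 hKU2
  have hUd : ∀ x, x ∈ closure V1 → x ∈ closure V2 → False := fun x h1 h2 =>
    (hU2c (subset_closure (hV2U h2))).2 (subset_closure (hV1U h1))
  have single : ∀ a : X, CC ({a} : Set X) := fun a => ⟨isClosed_singleton, isConnected_singleton⟩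
  obtain ⟨A', hA', hA'c, haA', hA'A⟩ := thick (single a1) (hA.inter hV1)
    (singleton_subset_iff.2 ⟨ha1A, hKV1 ha1K⟩)
  obtain ⟨B', hB', hB'c, haB', hB'A⟩ := thick (single a2) (hA.inter hV2)
    (singleton_subset_iff.2 ⟨ha2A, hKV2 ha2K⟩)
  have hclW : closure (V1 ∪ V2 ∪ B) = closure V1 ∪ closure V2 ∪ closure B := by
    rw [closure_union, closure_union]
  refine ⟨V1 ∪ V2 ∪ B, A', B', (hV1.union hV2).union hB, ?_, hA', hB', hB'c, ⟨a1, haA' rfl⟩,
    ⟨a2, haB' rfl⟩, ?_, ?_, ?_, ?_, fun x hx => (hA'A hx).1, fun x hx => (hB'A hx).1, ?_⟩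
  · have h1 : IsPreconnected (V1 ∪ B) := hV1c.union b1 (hKV1 hb1K) hb1B hBc
    have h2 : IsPreconnected (V1 ∪ B ∪ V2) :=
      h1.union b2 (Or.inr hb2B) (hKV2 hb2K) hV2c
    have e : V1 ∪ V2 ∪ B = V1 ∪ B ∪ V2 := by
      rw [union_assoc, union_assoc, union_comm V2 B]
    rw [e]; exact h2
  · exact fun x hx => Or.inl (Or.inl (hA'A hx).2)
  · exact fun x hx => Or.inl (Or.inr (hB'A hx).2)
  · rw [Set.disjoint_left]
    intro x h1 h2
    exact hUd x (subset_closure (hA'A h1).2) (subset_closure (hB'A h2).2)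
  · rw [hclW]
    rintro x ((h | h) | h)
    · exact (hU1c (subset_closure (hV1U h))).1
    · exact (hU2c (subset_closure (hV2U h))).1
    · exact hBW h
  · intro E hE hEW hEA hEB
    by_contra hcon
    rw [not_nonempty_iff_eq_empty] at hcon
    have hsub : E ⊆ closure V1 ∪ closure V2 := by
      intro x hx
      have := hEW hx
      rw [hclW] at this
      rcases this with h | h
      · exact h
      · exact absurd (show x ∈ E ∩ closure B from ⟨hx, h⟩) (by rw [hcon]; exact notMem_empty x)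
    obtain ⟨x, hx, hx'⟩ := hEA
    obtain ⟨y, hy, hy'⟩ := hEB
    obtain ⟨z, -, hz1, hz2⟩ := isPreconnected_closed_iff.1 hE.2.isPreconnected _ _
      (isClosed_closure (s := V1)) (isClosed_closure (s := V2)) hsub
      ⟨x, hx, subset_closure (hA'A hx').2⟩ ⟨y, hy, subset_closure (hB'A hy').2⟩
    exact hUd z hz1 hz2

end Pool.Agent.Helper499.HD
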