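import Pool.Agent.Helper499.HD.Defs
import Pool.Agent.Helper499.HD.B01
import Pool.Agent.Helper499.HD.B05
import Pool.Agent.Helper499.HD.B37
import Pool.Agent.Helper499.HD.B42

set_option autoImplicit false

namespace Pool.Agent.Helper499.HD

open Set Metric Topology

variable {X : Type} [MetricSpace X]







theorem nc_false [CompactSpace X] [ConnectedSpace X] [LocallyConnectedSpace X] [Nontrivial X]
    (hNC : NC X) (hD : HerDec X) : False := by
  classical
  have hperf : ∀ x : X, ¬ IsOpen ({x} : Set X) := by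
    intro x hx
    have h1 : IsClopen ({x} : Set X) := ⟨isClosed_singleton, hx⟩
    have h2 := h1.eq_univ (singleton_nonempty x)
    obtain ⟨y, hy⟩ := exists_ne x
    have : y ∈ ({x} : Set X) := by rw [h2]; exact mem_univ y
    exact hy this
  obtain ⟨x, y, hxy⟩ := exists_pair_ne X
  have hd : 0 < dist x y := dist_pos.2 hxy
  have hcx : CC ({x} : Set X) := ⟨isClosed_singleton, isConnected_singleton⟩
  have hcy : CC ({y} : Set X) := ⟨isClosed_singleton, isConnected_singleton⟩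
  obtain ⟨A0, oA0, cA0, xA0, clA0⟩ := thick hcx (isOpen_ball (x := x) (ε := dist x y / 3))
    (singleton_subset_iff.2 (mem_ball_self (by linarith)))
  obtain ⟨B0, oB0, cB0, yB0, clB0⟩ := thick hcy (isOpen_ball (x := y) (ε := dist x y / 3))
    (singleton_subset_iff.2 (mem_ball_self (by linarith)))
  have hdis : Disjoint (closure A0) (closure B0) := by
    rw [Set.disjoint_left]
    intro z hz1 hz2
    have h1 := clA0 hz1
    have h2 := clB0 hz2
    rw [mem_ball] at h1 h2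
    have h3 := dist_triangle x z y
    rw [dist_comm x z] at h3
    linarith
  obtain ⟨P, hP⟩ : ∃ P : Set X × Set X × Set X → Prop, ∀ w, P w ↔
    (IsOpen w.1 ∧ IsPreconnected w.1 ∧ IsOpen w.2.1 ∧ IsOpen w.2.2 ∧ IsPreconnected w.2.2 ∧
      w.2.1.Nonempty ∧ w.2.2.Nonempty ∧ closure w.2.1 ⊆ w.1 ∧ closure w.2.2 ⊆ w.1 ∧
      Disjoint (closure w.2.1) (closure w.2.2)) := ⟨_, fun _ => Iff.rfl⟩
  obtain ⟨Q, hQ⟩ : ∃ Q : Set X × Set X × Set X → Set X × Set X × Set X → Prop, ∀ w w', Q w w' ↔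
    (closure w'.1 ⊆ w.1 ∧ closure w'.2.1 ⊆ w.2.1 ∧ closure w'.2.2 ⊆ w.2.1 ∧
      ∀ E : Set X, CC E → E ⊆ closure w'.1 → (E ∩ closure w'.2.1).Nonempty →
        (E ∩ closure w'.2.2).Nonempty → (E ∩ closure w.2.2).Nonempty) :=
    ⟨_, fun _ _ => Iff.rfl⟩
  have hstep : ∀ w : {w // P w}, ∃ w' : {w // P w}, Q w.1 w'.1 := by
    rintro ⟨⟨W, A, B⟩, hw⟩
    obtain ⟨h1, h2, h3, h4, h5, h6, h7, h8, h9, h10⟩ := (hP _).1 hw
    obtain ⟨W', A', B', k1, k2, k3, k4, k5, k6, k7, k8, k9, k10, k11, k12, k13, k14⟩ :=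
      nc_double hperf hNC W A B h1 h2 h3 h4 h5 h6 h7 h8 h9 h10
    exact ⟨⟨(W', A', B'), (hP _).2 ⟨k1, k2, k3, k4, k5, k6, k7, k8, k9, k10⟩⟩,
      (hQ _ _).2 ⟨k11, k12, k13, k14⟩⟩
  choose nx hnx using hstep
  have hw0 : P (univ, A0, B0) := (hP _).2 ⟨isOpen_univ, isPreconnected_univ, oA0, oB0, cB0,
    ⟨x, xA0 rfl⟩, ⟨y, yB0 rfl⟩, subset_univ _, subset_univ _, hdis⟩
  obtain ⟨s, hs0, hs1⟩ : ∃ s : ℕ → {w // P w}, s 0 = ⟨(univ, A0, B0), hw0⟩ ∧
      ∀ n, s (n + 1) = nx (s n) :=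
    ⟨fun n => Nat.rec ⟨(univ, A0, B0), hw0⟩ (fun _ w => nx w) n, rfl, fun _ => rfl⟩
  obtain ⟨W, hW⟩ : ∃ W : ℕ → Set X, ∀ n, W n = (s n).1.1 := ⟨_, fun _ => rfl⟩
  obtain ⟨A, hA⟩ : ∃ A : ℕ → Set X, ∀ n, A n = (s n).1.2.1 := ⟨_, fun _ => rfl⟩
  obtain ⟨B, hB⟩ : ∃ B : ℕ → Set X, ∀ n, B n = (s n).1.2.2 := ⟨_, fun _ => rfl⟩
  have hPn : ∀ n, IsOpen (W n) ∧ IsPreconnected (W n) ∧ IsOpen (A n) ∧ IsOpen (B n) ∧
      IsPreconnected (B n) ∧ (A n).Nonempty ∧ (B n).Nonempty ∧ closure (A n) ⊆ W n ∧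
      closure (B n) ⊆ W n ∧ Disjoint (closure (A n)) (closure (B n)) := by
    intro n
    have := (hP _).1 (s n).2
    rw [hW, hA, hB]
    exact this
  have hQn : ∀ n, closure (W (n + 1)) ⊆ W n ∧ closure (A (n + 1)) ⊆ A n ∧
      closure (B (n + 1)) ⊆ A n ∧ ∀ E : Set X, CC E → E ⊆ closure (W (n + 1)) →
        (E ∩ closure (A (n + 1))).Nonempty → (E ∩ closure (B (n + 1))).Nonempty →
          (E ∩ closure (B n)).Nonempty := by
    intro n
    have h1 := (hQ _ _).1 (hnx (s n))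
    rw [← hs1 n] at h1
    rw [hW, hA, hB, hW, hA, hB]
    exact h1
  have hWanti : Antitone (fun n => closure (W n)) := by
    apply antitone_nat_of_succ_le
    intro n
    exact (hQn n).1.trans subset_closure
  have hAanti : Antitone (fun n => closure (A n)) := by
    apply antitone_nat_of_succ_le
    intro n
    exact (hQn n).2.1.trans subset_closure
  have hWCC : ∀ n, CC (closure (W n)) := by
    intro n
    obtain ⟨a1, a2, a3, a4, a5, a6, a7, a8, a9, a10⟩ := hPn n
    have hne : (W n).Nonempty := a6.mono (subset_closure.trans a8)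
    exact ⟨isClosed_closure, hne.closure, a2.closure⟩
  have hchain : IsChain (· ⊆ ·) (range fun n => closure (W n)) := by
    rintro _ ⟨i, rfl⟩ _ ⟨j, rfl⟩ _
    rcases le_total i j with h | h
    · exact Or.inr (hWanti h)
    · exact Or.inl (hWanti h)
  obtain ⟨hYcc, hYop⟩ := chain_inter (range fun n => closure (W n)) hchain (range_nonempty _)
    (by rintro _ ⟨n, rfl⟩; exact hWCC n)
  have hclaim : ∀ m t i, i + t = m → (closure (W m) ∩ closure (B i)).Nonempty := by
    intro m t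
    induction t with
    | zero =>
      intro i hi
      obtain rfl : i = m := by omega
      obtain ⟨a1, a2, a3, a4, a5, a6, a7, a8, a9, a10⟩ := hPn i
      obtain ⟨z, hz⟩ := a7
      exact ⟨z, subset_closure (a9 (subset_closure hz)), subset_closure hz⟩
    | succ t ih =>
      intro i hi
      have h1 := ih (i + 1) (by omega)
      have hle : i + 1 ≤ m := by omega
      obtain ⟨a1, a2, a3, a4, a5, a6, a7, a8, a9, a10⟩ := hPn m
      obtain ⟨z, hz⟩ := a6
      exact (hQn i).2.2.2 _ (hWCC m) (hWanti hle)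
        ⟨z, subset_closure (a8 (subset_closure hz)), hAanti hle (subset_closure hz)⟩ h1
  have hYA : ∀ k, ((⋂₀ range fun n => closure (W n)) ∩ closure (A k)).Nonempty := by
    intro k
    by_contra hc
    rw [Set.not_nonempty_iff_eq_empty] at hc
    have h1 : (⋂₀ range fun n => closure (W n)) ⊆ (closure (A k))ᶜ := by
      intro z hz hz'
      have : z ∈ (⋂₀ range fun n => closure (W n)) ∩ closure (A k) := ⟨hz, hz'⟩
      rw [hc] at this
      exact this
    obtain ⟨_, ⟨j, rfl⟩, hj⟩ := hYop _ isClosed_closure.isOpen_compl h1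
    obtain ⟨a1, a2, a3, a4, a5, a6, a7, a8, a9, a10⟩ := hPn (max j k)
    obtain ⟨z, hz⟩ := a6
    have z1 : z ∈ closure (W j) :=
      hWanti (le_max_left j k) (subset_closure (a8 (subset_closure hz)))
    have z2 : z ∈ closure (A k) := hAanti (le_max_right j k) (subset_closure hz)
    exact hj z1 z2
  have hYB : ∀ k, ((⋂₀ range fun n => closure (W n)) ∩ closure (B k)).Nonempty := by
    intro k
    by_contra hc
    rw [Set.not_nonempty_iff_eq_empty] at hc
    have h1 : (⋂₀ range fun n => closure (W n)) ⊆ (closure (B k))ᶜ := by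
      intro z hz hz'
      have : z ∈ (⋂₀ range fun n => closure (W n)) ∩ closure (B k) := ⟨hz, hz'⟩
      rw [hc] at this
      exact this
    obtain ⟨_, ⟨j, rfl⟩, hj⟩ := hYop _ isClosed_closure.isOpen_compl h1
    obtain ⟨z, hz1, hz2⟩ := hclaim (max j k) (max j k - k) k (by omega)
    exact hj (hWanti (le_max_left j k) hz1) hz2
  obtain ⟨E, hEY, hE, hEn, hEd⟩ := lemmaK (fun k => closure (W k)) (fun k => closure (A k))
    (fun k => closure (B k)) (fun _ => isClosed_closure) (fun _ => isClosed_closure)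
    (fun _ => isClosed_closure) (fun k => hWanti (Nat.le_succ k)) (fun k => hAanti (Nat.le_succ k))
    (fun k => (hQn k).2.2.1.trans subset_closure) (fun k E h1 h2 h3 h4 => (hQn k).2.2.2 E h1 h2 h3 h4)
    (hPn 0).2.2.2.2.2.2.2.2.2 _ hYcc (fun k => sInter_subset_of_mem ⟨k, rfl⟩) hYA hYB
  obtain ⟨C, D, hC, hD', hCE, hDE, hCD⟩ := hD E hE hEn
  exact hEd C D hC hD' hCE hDE hCD

end Pool.Agent.Helper499.HD
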