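import Pool.Agent.Helper499.HD.Defs
import Pool.Agent.Helper499.HD.B36

set_option autoImplicit false

namespace Pool.Agent.Helper499.HD

open Set Metric Topology

variable {X : Type} [MetricSpace X]




theorem sep_of_inf_open [LocallyConnectedSpace X] {V : Set X} (hV : IsOpen V) (x : X) :
    IsOpen (V \ connectedComponentIn V x) := by
  rw [isOpen_iff_forall_mem_open]
  rintro y ⟨hy, hyx⟩
  refine ⟨connectedComponentIn V y, ?_, hV.connectedComponentIn, mem_connectedComponentIn hy⟩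
  intro z hz
  refine ⟨connectedComponentIn_subset V y hz, fun hzx => hyx ?_⟩
  have h1 := connectedComponentIn_eq hz
  have h2 := connectedComponentIn_eq hzx
  have h3 : y ∈ connectedComponentIn V y := mem_connectedComponentIn hy
  rw [h1, ← h2] at h3
  exact h3

theorem sep_of_inf_cl [LocallyConnectedSpace X] {W : Set X} (hW : IsOpen W)
    (hWc : IsPreconnected W) {p x y : X} (hx : x ∈ W \ {p}) (hy : y ∈ W \ {p})
    (hxy : y ∉ connectedComponentIn (W \ {p}) x) :
    p ∈ closure (connectedComponentIn (W \ {p}) x) := by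
  by_contra hp
  have hWp : IsOpen (W \ {p}) := hW.sdiff isClosed_singleton
  have hAo : IsOpen (connectedComponentIn (W \ {p}) x) := hWp.connectedComponentIn
  have hBo := sep_of_inf_open hWp x
  obtain ⟨z, hzW, hzA, hzB⟩ := hWc (connectedComponentIn (W \ {p}) x)
    ((W \ {p}) \ connectedComponentIn (W \ {p}) x ∪
      (closure (connectedComponentIn (W \ {p}) x))ᶜ)
    hAo (hBo.union isClosed_closure.isOpen_compl) (by
      intro z hz
      by_cases hzp : z = p
      · subst hzp; right; right; exact hp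
      · by_cases hzA : z ∈ connectedComponentIn (W \ {p}) x
        · left; exact hzA
        · right; left; exact ⟨⟨hz, hzp⟩, hzA⟩)
    ⟨x, hx.1, mem_connectedComponentIn hx⟩ ⟨y, hy.1, Or.inl ⟨hy, hxy⟩⟩
  rcases hzB with h | h
  · exact h.2 hzA
  · exact h (subset_closure hzA)

theorem sep_of_inf_step [LocallyConnectedSpace X] {W : Set X} (hW : IsOpen W)
    (hWc : IsPreconnected W) {p q x y z : X} (hpq : p ≠ q) (hp : p ∈ W) (hx : x ∈ W \ {p})
    (hy : y ∈ W \ {p}) (hxy : y ∉ connectedComponentIn (W \ {p}) x)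
    (hq : q ∉ connectedComponentIn (W \ {p}) x)
    (hz : z ∈ insert p (connectedComponentIn (W \ {p}) x)) :
    insert p (connectedComponentIn (W \ {p}) x) ⊆ connectedComponentIn (W \ {q}) z := by
  have hpre : IsPreconnected (insert p (connectedComponentIn (W \ {p}) x)) :=
    isPreconnected_connectedComponentIn.subset_closure (subset_insert _ _)
      (insert_subset (sep_of_inf_cl hW hWc hx hy hxy) subset_closure)
  refine hpre.subset_connectedComponentIn hz ?_
  rintro w (rfl | hw)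
  · exact ⟨hp, hpq⟩
  · refine ⟨(connectedComponentIn_subset _ _ hw).1, ?_⟩
    rintro rfl
    exact hq hw

theorem sep_of_inf [CompactSpace X] [LocallyConnectedSpace X] {W : Set X} (hW : IsOpen W)
    (hWc : IsPreconnected W) (d d' : X) (hd : d ∈ W) (hd' : d' ∈ W) (T : Set X)
    (hT : T.Infinite)
    (h : ∀ p ∈ T, p ∈ W ∧ p ≠ d ∧ p ≠ d' ∧ d' ∉ connectedComponentIn (W \ {p}) d) :
    ∃ p q : X, p ≠ q ∧ ¬ IsPreconnected ({p, q}ᶜ : Set X) := by
  classical
  obtain ⟨L, hLW, hLC, hdL, hdL'⟩ := cont_conn hW hWc hd hd'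
  have hTL : ∀ p ∈ T, p ∈ L := by
    intro p hp
    by_contra hpL
    apply (h p hp).2.2.2
    refine hLC.2.isPreconnected.subset_connectedComponentIn hdL ?_ hdL'
    intro z hz
    exact ⟨hLW hz, fun hzp => hpL (by rw [← show z = p from hzp]; exact hz)⟩
  obtain ⟨W1, hW1, hLW1, hW1W⟩ := normal_exists_closure_subset hLC.1 hW hLW
  set A : X → Set X := fun p => connectedComponentIn (W \ {p}) d with hAdef
  have hAo : ∀ p, IsOpen (A p) := fun p => (hW.sdiff isClosed_singleton).connectedComponentIn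
  have hBo : ∀ p, IsOpen ((W \ {p}) \ A p) := fun p =>
    sep_of_inf_open (hW.sdiff isClosed_singleton) d
  have hdA : ∀ p ∈ T, d ∈ A p := fun p hp =>
    mem_connectedComponentIn ⟨hd, fun hdp => (h p hp).2.1 hdp.symm⟩
  -- step 1
  have hs1 : ∀ p ∈ T, ∀ q ∈ T, p ≠ q → q ∉ A p → insert p (A p) ⊆ A q := by
    intro p hp q hq hpq hqA
    have hp1 := h p hp
    exact sep_of_inf_step hW hWc hpq hp1.1 ⟨hd, fun e => hp1.2.1 e.symm⟩
      ⟨hd', fun e => hp1.2.2.1 e.symm⟩ hp1.2.2.2 hqA (Or.inr (hdA p hp))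
  have hs2 : ∀ p ∈ T, ∀ q ∈ T, p ≠ q → q ∈ A p → p ∈ A q → False := by
    intro p hp q hq hpq hqA hpA
    have hp1 := h p hp
    have hdp : d ∈ W \ {p} := ⟨hd, fun e => hp1.2.1 e.symm⟩
    have hdp' : d' ∈ W \ {p} := ⟨hd', fun e => hp1.2.2.1 e.symm⟩
    have h1 : d ∉ connectedComponentIn (W \ {p}) d' := by
      intro h2
      apply hp1.2.2.2
      rw [← connectedComponentIn_eq h2]
      exact mem_connectedComponentIn hdp'
    have h3 : q ∉ connectedComponentIn (W \ {p}) d' := by
      intro h4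
      apply hp1.2.2.2
      have h5 := connectedComponentIn_eq h4
      have h6 := connectedComponentIn_eq hqA
      rw [h6, ← h5]
      exact mem_connectedComponentIn hdp'
    have h7 := sep_of_inf_step hW hWc hpq hp1.1 hdp' hdp h1 h3 (mem_insert p _)
    have h8 : d' ∈ connectedComponentIn (W \ {q}) p :=
      h7 (Or.inr (mem_connectedComponentIn hdp'))
    apply (h q hq).2.2.2
    rw [connectedComponentIn_eq hpA]
    exact h8
  have htot : ∀ p ∈ T, ∀ q ∈ T, p ≠ q → (p ∈ A q ∧ q ∉ A p) ∨ (q ∈ A p ∧ p ∉ A q) := by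
    intro p hp q hq hpq
    by_cases hqA : q ∈ A p
    · exact Or.inr ⟨hqA, fun hpA => hs2 p hp q hq hpq hqA hpA⟩
    · exact Or.inl ⟨hs1 p hp q hq hpq hqA (mem_insert _ _), hqA⟩
  -- finite cover of the frontier
  have hWL : IsOpen (W \ L) := hW.sdiff hLC.1
  have hfr : frontier W1 ⊆ W \ L := by
    intro z hz
    refine ⟨hW1W (frontier_subset_closure hz), fun hzL => ?_⟩
    rw [hW1.frontier_eq] at hz
    exact hz.2 (hLW1 hzL)
  have hCc : IsCompact (frontier W1) := isClosed_frontier.isCompact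
  obtain ⟨t, ht⟩ := hCc.elim_finite_subcover (fun z : X => connectedComponentIn (W \ L) z)
    (fun z => hWL.connectedComponentIn)
    (fun z hz => mem_iUnion.2 ⟨z, mem_connectedComponentIn (hfr hz)⟩)
  haveI : Infinite T := hT.to_subtype
  obtain ⟨y0, hy0⟩ := Finite.exists_infinite_fiber
    (fun (p : T) (i : t) => (connectedComponentIn (W \ L) (i : X) ⊆ A (p : X) : Prop))
  have hy0' : ((fun (p : T) (i : t) =>
    (connectedComponentIn (W \ L) (i : X) ⊆ A (p : X) : Prop)) ⁻¹' {y0}).Infinite :=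
    Set.infinite_coe_iff.1 hy0
  obtain ⟨s3, hs3, hcard⟩ := hy0'.exists_subset_card_eq 3
  obtain ⟨a, b, c, hab, hac, hbc, hsabc⟩ := Finset.card_eq_three.1 hcard
  have hΦ : ∀ p ∈ s3, ∀ q ∈ s3, ∀ y ∈ frontier W1, y ∈ A (p : X) → y ∈ A (q : X) := by
    intro p hp q hq y hy hyp
    have e1 := hs3 hp
    have e2 := hs3 hq
    rw [mem_preimage, mem_singleton_iff] at e1 e2
    have hyt := ht hy
    simp only [mem_iUnion] at hyt
    obtain ⟨i, hi, hyi⟩ := hyt
    have h1 : connectedComponentIn (W \ L) i ⊆ A (p : X) := by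
      show connectedComponentIn (W \ L) i ⊆ connectedComponentIn (W \ {(p : X)}) d
      rw [connectedComponentIn_eq hyp]
      refine isPreconnected_connectedComponentIn.subset_connectedComponentIn hyi ?_
      intro w hw
      have hw2 := connectedComponentIn_subset _ _ hw
      refine ⟨hw2.1, fun hwp => hw2.2 ?_⟩
      rw [show w = (p : X) from hwp]
      exact hTL p p.2
    have h2 : y0 ⟨i, hi⟩ := by
      rw [← e1]; exact h1
    rw [← e2] at h2
    exact h2 hyi
  -- the main construction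
  have hmain : ∀ p ∈ s3, ∀ m ∈ s3, ∀ q ∈ s3, p ≠ m → m ≠ q → p ≠ q → (p : X) ∈ A (m : X) →
      (m : X) ∈ A (q : X) → ∃ p q : X, p ≠ q ∧ ¬ IsPreconnected ({p, q}ᶜ : Set X) := by
    intro p hp m hm q hq hpm hmq hpq hpAm hmAq
    have hpm' : (p : X) ≠ m := fun e => hpm (Subtype.ext e)
    have hmq' : (m : X) ≠ q := fun e => hmq (Subtype.ext e)
    have hpq' : (p : X) ≠ q := fun e => hpq (Subtype.ext e)
    have hmAp : (m : X) ∉ A (p : X) := fun hh => hs2 p p.2 m m.2 hpm' hh hpAm
    have hqAm : (q : X) ∉ A (m : X) := fun hh => hs2 m m.2 q q.2 hmq' hh hmAq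
    have hApm : A (p : X) ⊆ A (m : X) :=
      (subset_insert _ _).trans (hs1 p p.2 m m.2 hpm' hmAp)
    have hAmq : A (m : X) ⊆ A (q : X) :=
      (subset_insert _ _).trans (hs1 m m.2 q q.2 hmq' hqAm)
    refine ⟨p, q, hpq', fun hcon => ?_⟩
    set U : Set X := W1 ∩ A (q : X) ∩ ((W \ {(p : X)}) \ A (p : X)) with hU
    have hUo : IsOpen U := (hW1.inter (hAo q)).inter (hBo p)
    have hmU : (m : X) ∈ U :=
      ⟨⟨hLW1 (hTL m m.2), hmAq⟩, ⟨(h m m.2).1, fun e => hpm' e.symm⟩, hmAp⟩
    have hdisj : ∀ (V : Set X), IsOpen V → (∀ x ∈ V, x ∉ U) → ∀ y ∈ closure U, y ∉ V := by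
      intro V hV hVU y hy hyV
      obtain ⟨w, hwV, hwU⟩ := mem_closure_iff.1 hy V hV hyV
      exact hVU w hwV hwU
    have hUA : ∀ y ∈ closure U, y ∉ A (p : X) :=
      hdisj _ (hAo p) (fun x hx hxU => hxU.2.2 hx)
    have hcl : ∀ y ∈ closure U, y ≠ p → y ≠ q → y ∈ U := by
      intro y hy hyp hyq
      have h1 : y ∈ closure W1 := closure_mono (fun z hz => hz.1.1) hy
      have h2 : y ∈ W := hW1W h1
      have h3 := hUA y hy
      have h4 : y ∉ (W \ {(q : X)}) \ A (q : X) :=
        hdisj _ (hBo q) (fun x hx hxU => hx.2 hxU.1.2) y hy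
      have h5 : y ∈ A (q : X) := by
        by_contra h6
        exact h4 ⟨⟨h2, hyq⟩, h6⟩
      by_cases h7 : y ∈ W1
      · exact ⟨⟨h7, h5⟩, ⟨h2, hyp⟩, h3⟩
      · exfalso
        apply h3
        refine hΦ q hq p hp y ?_ h5
        rw [hW1.frontier_eq]
        exact ⟨h1, h7⟩
    have hdc : d ∉ closure U := fun hdd => hUA d hdd (hdA p p.2)
    obtain ⟨z, -, hz1, hz2⟩ := hcon U (closure U)ᶜ hUo isClosed_closure.isOpen_compl (by
      intro z hz
      by_cases hzc : z ∈ closure U
      · left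
        refine hcl z hzc ?_ ?_
        · rintro rfl
          exact hz (mem_insert _ _)
        · rintro rfl
          exact hz (mem_insert_of_mem _ (mem_singleton _))
      · right
        exact hzc)
      ⟨m, by
        simp only [mem_compl_iff, mem_insert_iff, mem_singleton_iff, not_or]
        exact ⟨fun e => hpm' e.symm, hmq'⟩, hmU⟩
      ⟨d, by
        simp only [mem_compl_iff, mem_insert_iff, mem_singleton_iff, not_or]
        exact ⟨fun e => (h p p.2).2.1 e.symm, fun e => (h q q.2).2.1 e.symm⟩, hdc⟩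
    exact hz2 (subset_closure hz1)
  have ha : a ∈ s3 := by rw [hsabc]; simp
  have hb : b ∈ s3 := by rw [hsabc]; simp
  have hc : c ∈ s3 := by rw [hsabc]; simp
  have hab' : (a : X) ≠ b := fun e => hab (Subtype.ext e)
  have hac' : (a : X) ≠ c := fun e => hac (Subtype.ext e)
  have hbc' : (b : X) ≠ c := fun e => hbc (Subtype.ext e)
  rcases htot a a.2 b b.2 hab' with ⟨h1, -⟩ | ⟨h1, -⟩
  · rcases htot b b.2 c c.2 hbc' with ⟨h2, -⟩ | ⟨h2, -⟩
    · exact hmain a ha b hb c hc hab hbc hac h1 h2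
    · rcases htot a a.2 c c.2 hac' with ⟨h3, -⟩ | ⟨h3, -⟩
      · exact hmain a ha c hc b hb hac hbc.symm hab h3 h2
      · exact hmain c hc a ha b hb hac.symm hab hbc.symm h3 h1
  · rcases htot a a.2 c c.2 hac' with ⟨h2, -⟩ | ⟨h2, -⟩
    · exact hmain b hb a ha c hc hab.symm hac hbc h1 h2
    · rcases htot b b.2 c c.2 hbc' with ⟨h3, -⟩ | ⟨h3, -⟩
      · exact hmain b hb c hc a ha hbc hac.symm hab.symm h3 h2
      · exact hmain c hc b hb a ha hbc.symm hab.symm hac.symm h3 h1

end Pool.Agent.Helper499.HD
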