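import Pool.Agent.Helper499.HD.Defs

set_option autoImplicit false

namespace Pool.Agent.Helper499.HD

open Set Metric Topology

variable {X : Type} [MetricSpace X]


theorem exists_inf_nonpre {V W : Set X} {p : X} (hV : IsOpen V) (hVp : IsPreconnected V)
    (hpV : p ∈ V) (hn : ¬ IsPreconnected (V \ {p})) (hW : IsOpen W) (hpW : p ∈ W) (hWV : W ⊆ V) :
    ¬ IsPreconnected (W \ {p}) := by
  intro hWp
  apply hn
  rw [isPreconnected_iff_subset_of_disjoint]
  intro u v hu hv huv hd
  have key : ∀ u v : Set X, IsOpen u → IsOpen v → V \ {p} ⊆ u ∪ v → (V \ {p}) ∩ (u ∩ v) = ∅ →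
      W \ {p} ⊆ u → V \ {p} ⊆ u := by
    intro u v hu hv huv hd hWu y hy
    by_contra hyu
    have hyv : y ∈ v := (huv hy).resolve_left hyu
    have h1 : V ⊆ ((u ∩ V) ∪ W) ∪ ((v ∩ V) ∩ {p}ᶜ) := by
      intro x hx
      by_cases hxp : x = p
      · left; right; rw [hxp]; exact hpW
      · rcases huv ⟨hx, hxp⟩ with h | h
        · left; left; exact ⟨h, hx⟩
        · right; exact ⟨⟨h, hx⟩, hxp⟩
    have h2 := hVp ((u ∩ V) ∪ W) ((v ∩ V) ∩ {p}ᶜ) ((hu.inter hV).union hW)
      ((hv.inter hV).inter isOpen_compl_singleton) h1 ⟨p, hpV, Or.inr hpW⟩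
      ⟨y, hy.1, ⟨hyv, hy.1⟩, hy.2⟩
    obtain ⟨x, hxV, hx1, hx2⟩ := h2
    have hxu : x ∈ u := by
      rcases hx1 with h | h
      · exact h.1
      · exact hWu ⟨h, hx2.2⟩
    have : x ∈ (V \ {p}) ∩ (u ∩ v) := ⟨⟨hxV, hx2.2⟩, hxu, hx2.1.1⟩
    rw [hd] at this
    exact this
  have hWsub : W \ {p} ⊆ V \ {p} := diff_subset_diff_left hWV
  have hWd : (W \ {p}) ∩ (u ∩ v) = ∅ := by
    rw [eq_empty_iff_forall_notMem]
    intro x hx
    have : x ∈ (V \ {p}) ∩ (u ∩ v) := ⟨hWsub hx.1, hx.2⟩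
    rw [hd] at this
    exact this
  rcases (isPreconnected_iff_subset_of_disjoint.1 hWp) u v hu hv (hWsub.trans huv) hWd with h | h
  · exact Or.inl (key u v hu hv huv hd h)
  · exact Or.inr (key v u hv hu (by rw [union_comm]; exact huv)
      (by rw [inter_comm v u]; exact hd) h)

theorem exists_inf [CompactSpace X] [LocallyConnectedSpace X]
    (hunc : ¬ (univ : Set X).Countable)
    (h : ∀ p : X, ∃ V : Set X, IsOpen V ∧ IsPreconnected V ∧ p ∈ V ∧
      ¬ IsPreconnected (V \ {p})) :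
    ∃ (W : Set X) (d d' : X) (T : Set X), IsOpen W ∧ IsPreconnected W ∧ d ∈ W ∧ d' ∈ W ∧
      T.Infinite ∧
      ∀ p ∈ T, p ∈ W ∧ p ≠ d ∧ p ≠ d' ∧ d' ∉ connectedComponentIn (W \ {p}) d := by
  classical
  haveI : SecondCountableTopology X := inferInstance
  obtain ⟨D, hDc, hDd⟩ := TopologicalSpace.exists_countable_dense X
  have hbc := TopologicalSpace.countable_countableBasis X
  have hb := TopologicalSpace.isBasis_countableBasis X
  haveI : Countable D := hDc.to_subtype
  haveI : Countable (TopologicalSpace.countableBasis X) := hbc.to_subtype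
  let T : (TopologicalSpace.countableBasis X) × D × D × D → Set X := fun i =>
    {p | (p ∈ connectedComponentIn (i.1 : Set X) i.2.1 ∧
      (i.2.2.1 : X) ∈ connectedComponentIn (i.1 : Set X) i.2.1 ∧
      (i.2.2.2 : X) ∈ connectedComponentIn (i.1 : Set X) i.2.1) ∧
      p ≠ i.2.2.1 ∧ p ≠ i.2.2.2 ∧
      (i.2.2.2 : X) ∉ connectedComponentIn (connectedComponentIn (i.1 : Set X) i.2.1 \ {p})
        i.2.2.1}
  have hcover : ∀ p : X, ∃ i, p ∈ T i := by
    intro p
    obtain ⟨V, hVo, hVp, hpV, hn⟩ := h p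
    obtain ⟨B, hB, hpB, hBV⟩ := hb.exists_subset_of_mem_open hpV hVo
    have hBo : IsOpen B := hb.isOpen hB
    have hWo : IsOpen (connectedComponentIn B p) := hBo.connectedComponentIn
    obtain ⟨e0, he0, he0D⟩ := hDd.inter_open_nonempty _ hWo ⟨p, mem_connectedComponentIn hpB⟩
    have hWeq : connectedComponentIn B p = connectedComponentIn B e0 :=
      connectedComponentIn_eq he0
    have hpW : p ∈ connectedComponentIn B p := mem_connectedComponentIn hpB
    have hWV : connectedComponentIn B p ⊆ V := (connectedComponentIn_subset B p).trans hBV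
    have hnW := exists_inf_nonpre hVo hVp hpV hn hWo hpW hWV
    unfold IsPreconnected at hnW
    push Not at hnW
    obtain ⟨u, v, hu, hv, huv, hnu, hnv, hd⟩ := hnW
    have hWpo : IsOpen (connectedComponentIn B p \ {p}) := hWo.sdiff isClosed_singleton
    obtain ⟨e, ⟨heW, heu⟩, heD⟩ := hDd.inter_open_nonempty _ (hWpo.inter hu) hnu
    obtain ⟨e', ⟨heW', hev⟩, heD'⟩ := hDd.inter_open_nonempty _ (hWpo.inter hv) hnv
    refine ⟨⟨⟨B, hB⟩, ⟨e0, he0D⟩, ⟨e, heD⟩, ⟨e', heD'⟩⟩, ?_⟩
    refine ⟨⟨?_, ?_, ?_⟩, ?_, ?_, ?_⟩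
    · show p ∈ connectedComponentIn B e0
      rw [← hWeq]; exact hpW
    · show e ∈ connectedComponentIn B e0
      rw [← hWeq]; exact heW.1
    · show e' ∈ connectedComponentIn B e0
      rw [← hWeq]; exact heW'.1
    · exact fun hpe => heW.2 hpe.symm
    · exact fun hpe => heW'.2 hpe.symm
    · show e' ∉ connectedComponentIn (connectedComponentIn B e0 \ {p}) e
      rw [← hWeq]
      intro he'
      have hsub := connectedComponentIn_subset (connectedComponentIn B p \ {p}) e
      have hpre : IsPreconnected (connectedComponentIn (connectedComponentIn B p \ {p}) e) :=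
        isPreconnected_connectedComponentIn
      obtain ⟨x, hx1, hx2⟩ := hpre u v hu hv (hsub.trans huv)
        ⟨e, mem_connectedComponentIn heW, heu⟩ ⟨e', he', hev⟩
      have : x ∈ (connectedComponentIn B p \ {p}) ∩ (u ∩ v) := ⟨hsub hx1, hx2⟩
      rw [hd] at this
      exact this
  have hinf : ∃ i, (T i).Infinite := by
    by_contra hcon
    push Not at hcon
    apply hunc
    have : (univ : Set X) = ⋃ i, T i := by
      symm
      rw [eq_univ_iff_forall]
      intro p
      obtain ⟨i, hi⟩ := hcover p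
      exact mem_iUnion.2 ⟨i, hi⟩
    rw [this]
    exact countable_iUnion fun i => (Set.not_infinite.1 (by simpa using hcon i)).countable
  obtain ⟨i, hi⟩ := hinf
  obtain ⟨p, hp⟩ := hi.nonempty
  refine ⟨connectedComponentIn (i.1 : Set X) i.2.1, i.2.2.1, i.2.2.2, T i,
    (hb.isOpen i.1.2).connectedComponentIn, isPreconnected_connectedComponentIn, hp.1.2.1,
    hp.1.2.2, hi, ?_⟩
  intro q hq
  exact ⟨hq.1.1, hq.2.1, hq.2.2.1, hq.2.2.2⟩

end Pool.Agent.Helper499.HD
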