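import Mathlib

set_option autoImplicit false

namespace Pool.Agent.Helper499.HD

open Set Metric Topology

variable {X : Type} [MetricSpace X]

/-- a continuum: a closed connected (nonempty) subset -/
def CC (K : Set X) : Prop := IsClosed K ∧ IsConnected K

/-- closed neighbourhood of radius `s` -/
def nb (s : ℝ) (K : Set X) : Set X := {x | infDist x K ≤ s}

/-- `A` and `B` lie in one connected subset of `N` -/
def Jn (N A B : Set X) : Prop := ∃ C, C ⊆ N ∧ IsPreconnected C ∧ A ⊆ C ∧ B ⊆ C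

/-- `h` is `δ`-close to the identity -/
def Cl (δ : ℝ) (h : X ≃ₜ X) : Prop := ∀ z, dist (h z) z < δ

/-- ample continua -/
def Ample (K : Set X) : Prop :=
  ∀ U : Set X, IsOpen U → K ⊆ U → ∃ L, L ⊆ U ∧ CC L ∧ K ⊆ interior L

/-- the Effros property -/
def Eff (X : Type) [MetricSpace X] : Prop :=
  ∀ ε > 0, ∃ δ > 0, ∀ x y : X, dist x y < δ → ∃ h : X ≃ₜ X, Cl ε h ∧ h x = y

/-- hereditarily decomposable -/
def HerDec (X : Type) [MetricSpace X] : Prop :=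
  ∀ K : Set X, CC K → K.Nontrivial → ∃ A B : Set X, CC A ∧ CC B ∧ A ⊂ K ∧ B ⊂ K ∧ A ∪ B = K

/-- `g` and `h` are in the same class on the side `b` -/
def EE (Sp : Bool → Set X) (r : ℝ) (b : Bool) (g h : X ≃ₜ X) : Prop :=
  Jn (nb (10 * r) (Sp b)) (g '' Sp b) (h '' Sp b)

/-- the basic setting: an ample continuum `M` which is the union of two subcontinua `S true`,
`S false`, with continuum neighbourhoods `Sp b` in `M` which are thin in `X` -/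
structure Setup (M : Set X) (S Sp : Bool → Set X) (r : ℝ) : Prop where
  pos : 0 < r
  hM : CC M
  hS : ∀ b, CC (S b)
  hSp : ∀ b, CC (Sp b)
  un : ∀ b, M = S b ∪ S (!b)
  sub : ∀ b, S b ⊆ Sp b
  subM : ∀ b, Sp b ⊆ M
  nbd : ∀ b, ∀ x ∈ M, infDist x (S b) ≤ 100 * r → x ∈ Sp b
  thin : ∀ b, ∀ C, C ⊆ nb (100 * r) (Sp b) → IsPreconnected C → Sp b ⊆ C → interior C = ∅
  amp : Ample M
  far : ∀ b, ∃ x ∈ S b, 100 * r ≤ infDist x (S (!b))

/-- a simple path of strands `g 0, ..., g n` joined by the continua `O i` on the side `σ i` -/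
structure PathS (S Sp : Bool → Set X) (r : ℝ) (n : ℕ) (g : ℕ → X ≃ₜ X) (O : ℕ → Set X)
    (σ : ℕ → Bool) : Prop where
  pos : 0 < n
  small : ∀ i ≤ n, Cl r (g i)
  cc : ∀ i < n, CC (O i)
  near : ∀ i < n, ∀ x ∈ O i, infDist x (S (σ i)) < 5 * r
  far : ∀ i < n, ∀ x ∈ O i, 10 * r < infDist x (S (!(σ i)))
  left : ∀ i < n, (O i ∩ g i '' S (σ i)).Nonempty
  right : ∀ i < n, (O i ∩ g (i + 1) '' S (σ i)).Nonempty
  r0 : ∀ i < n, σ i = false → ¬ EE Sp r false (g 0) (g i)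
  rn : ∀ i < n, σ i = false → ¬ EE Sp r false (g n) (g i)
  rr : ¬ EE Sp r false (g 0) (g n)
  dd : ∀ i j, i < j → j ≤ n → ¬ (EE Sp r true (g i) (g j) ∧ EE Sp r false (g i) (g j))

/-- two consecutive strands with their join -/
def TT (S : Bool → Set X) (g : ℕ → X ≃ₜ X) (O : ℕ → Set X) (σ : ℕ → Bool) (i : ℕ) : Set X :=
  g i '' S (σ i) ∪ O i ∪ g (i + 1) '' S (σ i)

/-- the continuum carried by a path -/
def FF (S : Bool → Set X) (n : ℕ) (g : ℕ → X ≃ₜ X) (O : ℕ → Set X) (σ : ℕ → Bool) : Set X :=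
  (⋃ i ∈ Iio n, TT S g O σ i) ∪ g 0 '' S false ∪ g n '' S false

/-- the gates -/
def gate (S : Bool → Set X) (r τ : ℝ) (g : X ≃ₜ X) : Set X :=
  {x | 5 * r ≤ infDist x (S true) ∧ infDist x (g '' S false) ≤ τ}

/-- a parallel copy of a path, with a fold join `Of` and adjustment joins `Oc i` -/
structure Copy (S Sp : Bool → Set X) (r : ℝ) (n : ℕ) (g : ℕ → X ≃ₜ X) (O : ℕ → Set X)
    (σ : ℕ → Bool) (δ : ℝ) (κ : ℕ → X ≃ₜ X) (Oc : ℕ → Set X) (Of : Set X) : Prop where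
  kc : ∀ i ≤ n, Cl δ (κ i)
  kg : ∀ i ≤ n, ∀ j ≤ n, Cl r ((g j).trans (κ i))
  f_cc : CC Of
  f_near : ∀ x ∈ Of, infDist x (g 0 '' S false) < δ
  f_near' : ∀ x ∈ Of, infDist x (S false) < 5 * r
  f_far : ∀ x ∈ Of, 10 * r < infDist x (S true)
  f_l : (Of ∩ g 0 '' S false).Nonempty
  f_r : (Of ∩ (g 0).trans (κ 0) '' S false).Nonempty
  c_cc : ∀ i < n, CC (Oc i)
  c_near : ∀ i < n, ∀ x ∈ Oc i, infDist x ((g (i + 1)).trans (κ i) '' S (σ i)) < δ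
  c_near' : ∀ i < n, ∀ x ∈ Oc i, infDist x (S (σ i)) < 5 * r
  c_far : ∀ i < n, ∀ x ∈ Oc i, 10 * r < infDist x (S (!(σ i)))
  c_l : ∀ i < n, (Oc i ∩ (g (i + 1)).trans (κ i) '' S (σ i)).Nonempty
  c_r : ∀ i < n, (Oc i ∩ (g (i + 1)).trans (κ (i + 1)) '' S (σ i)).Nonempty
  o_near : ∀ i < n, ∀ x ∈ O i, infDist (κ i x) (S (σ i)) < 5 * r
  o_far : ∀ i < n, ∀ x ∈ O i, 10 * r < infDist (κ i x) (S (!(σ i)))
  k0 : ¬ EE Sp r true (g 0) ((g 0).trans (κ 0))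
  ka : ∀ i < n, ¬ EE Sp r (!(σ i)) (g (i + 1)) ((g (i + 1)).trans (κ (i + 1)))
  kd : ∀ i < n, ¬ EE Sp r (!(σ i)) ((g (i + 1)).trans (κ i)) ((g (i + 1)).trans (κ (i + 1)))
  opn : ∀ b, ∀ i ≤ n, ∀ j ≤ n, ¬ EE Sp r b (g i) (g j) → ∀ k k' : X ≃ₜ X, Cl δ k → Cl δ k' →
    ¬ EE Sp r b ((g i).trans k) ((g j).trans k')

/-- strands of the doubled path -/
def nG (n : ℕ) (g κ : ℕ → X ≃ₜ X) (m : ℕ) : X ≃ₜ X :=
  if m ≤ n then g (n - m) else (g ((m - n) / 2)).trans (κ ((m - n - 1) / 2))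

/-- joins of the doubled path -/
def nO (n : ℕ) (O : ℕ → Set X) (κ : ℕ → X ≃ₜ X) (Oc : ℕ → Set X) (Of : Set X) (m : ℕ) : Set X :=
  if m < n then O (n - 1 - m) else if m = n then Of
  else if (m - n - 1) % 2 = 0 then κ ((m - n - 1) / 2) '' O ((m - n - 1) / 2)
  else Oc ((m - n - 1) / 2)

/-- sides of the doubled path -/
def nS (n : ℕ) (σ : ℕ → Bool) (m : ℕ) : Bool :=
  if m < n then σ (n - 1 - m) else if m = n then false else σ ((m - n - 1) / 2)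

/-- the new part of the doubled path -/
def F2 (S : Bool → Set X) (n : ℕ) (g : ℕ → X ≃ₜ X) (O : ℕ → Set X) (σ : ℕ → Bool)
    (κ : ℕ → X ≃ₜ X) (Oc : ℕ → Set X) (Of : Set X) : Set X :=
  Of ∪ (g 0).trans (κ 0) '' S false ∪ (g n).trans (κ n) '' S false ∪
    ⋃ i ∈ Iio n, ((g i).trans (κ i) '' S (σ i) ∪ κ i '' O i ∪ (g (i + 1)).trans (κ i) '' S (σ i) ∪
      Oc i ∪ (g (i + 1)).trans (κ (i + 1)) '' S (σ i))

/-- two disjoint continua in `W` from `A` to `N` -/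
def Linked (W A N : Set X) : Prop :=
  ∃ K K' : Set X, CC K ∧ CC K' ∧ K ⊆ W ∧ K' ⊆ W ∧ Disjoint K K' ∧ (K ∩ A).Nonempty ∧
    (K ∩ N).Nonempty ∧ (K' ∩ A).Nonempty ∧ (K' ∩ N).Nonempty

/-- two disjoint continua in `W` from `A` to arbitrarily small neighbourhoods of `z` -/
def GoodPt (W A : Set X) (z : X) : Prop := ∀ N : Set X, IsOpen N → z ∈ N → Linked W A N

/-- no connected open set has a cut point -/
def NC (X : Type) [MetricSpace X] : Prop :=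
  ∀ V : Set X, IsOpen V → IsPreconnected V → ∀ x ∈ V, IsPreconnected (V \ {x})

theorem ee_symm {Sp : Bool → Set X} {r : ℝ} {b : Bool} {g h : X ≃ₜ X} (H : EE Sp r b g h) :
    EE Sp r b h g := by
  obtain ⟨C, h1, h2, h3, h4⟩ := H
  exact ⟨C, h1, h2, h4, h3⟩

theorem ee_trans {M : Set X} {S Sp : Bool → Set X} {r : ℝ} (hs : Setup M S Sp r) {b : Bool}
    {g h k : X ≃ₜ X} (H1 : EE Sp r b g h) (H2 : EE Sp r b h k) : EE Sp r b g k := by
  obtain ⟨C, h1, h2, h3, h4⟩ := H1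
  obtain ⟨D, k1, k2, k3, k4⟩ := H2
  obtain ⟨z, hz⟩ := (hs.hSp b).2.nonempty
  exact ⟨C ∪ D, union_subset h1 k1, h2.union (h z) (h4 ⟨z, hz, rfl⟩) (k3 ⟨z, hz, rfl⟩) k2,
    h3.trans subset_union_left, k4.trans subset_union_right⟩

theorem strand_near {M : Set X} {S Sp : Bool → Set X} {r : ℝ} (_hs : Setup M S Sp r) (b : Bool)
    (g : X ≃ₜ X) (hg : Cl r g) (x : X) (hx : x ∈ g '' S b) : infDist x (S b) < r := by
  obtain ⟨z, hz, rfl⟩ := hx
  exact lt_of_le_of_lt (infDist_le_dist_of_mem hz) (hg z)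

end Pool.Agent.Helper499.HD
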