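import Pool.Agent.Helper499.HD.B01
import Pool.Agent.Helper499.HD.B02
import Pool.Agent.Helper499.HD.B03
import Pool.Agent.Helper499.HD.B04
import Pool.Agent.Helper499.HD.B05
import Pool.Agent.Helper499.HD.B06
import Pool.Agent.Helper499.HD.B07
import Pool.Agent.Helper499.HD.B08
import Pool.Agent.Helper499.HD.B09
import Pool.Agent.Helper499.HD.B10
import Pool.Agent.Helper499.HD.B11
import Pool.Agent.Helper499.HD.B12
import Pool.Agent.Helper499.HD.B13
import Pool.Agent.Helper499.HD.B14
import Pool.Agent.Helper499.HD.B15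
import Pool.Agent.Helper499.HD.B16
import Pool.Agent.Helper499.HD.B17
import Pool.Agent.Helper499.HD.B18
import Pool.Agent.Helper499.HD.B19
import Pool.Agent.Helper499.HD.B20
import Pool.Agent.Helper499.HD.B21
import Pool.Agent.Helper499.HD.B22
import Pool.Agent.Helper499.HD.B23
import Pool.Agent.Helper499.HD.B24
import Pool.Agent.Helper499.HD.B25
import Pool.Agent.Helper499.HD.B26
import Pool.Agent.Helper499.HD.B27
import Pool.Agent.Helper499.HD.B28
import Pool.Agent.Helper499.HD.B29
import Pool.Agent.Helper499.HD.B30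
import Pool.Agent.Helper499.HD.B31
import Pool.Agent.Helper499.HD.B32
import Pool.Agent.Helper499.HD.B33
import Pool.Agent.Helper499.HD.B34
import Pool.Agent.Helper499.HD.B35
import Pool.Agent.Helper499.HD.B36
import Pool.Agent.Helper499.HD.B37
import Pool.Agent.Helper499.HD.B38
import Pool.Agent.Helper499.HD.B39
import Pool.Agent.Helper499.HD.B40
import Pool.Agent.Helper499.HD.B41
import Pool.Agent.Helper499.HD.B42
import Pool.Agent.Helper499.HD.B43
import Pool.Agent.Helper499.HD.B44
import Pool.Agent.Helper499.HD.B45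

set_option autoImplicit false

namespace Pool.Agent.Helper499.HD

open Set Metric Topology

variable {X : Type} [MetricSpace X]

/-- Part I: local connectedness -/
theorem locConn [CompactSpace X] [ConnectedSpace X] (hom : ∀ x y : X, ∃ h : X ≃ₜ X, h x = y)
    (hE : Eff X) (hD : HerDec X) : LocallyConnectedSpace X := by
  obtain ⟨M, hM, hA, hmin⟩ := exists_min_ample (X := X)
  by_cases hnt : M.Nontrivial
  · obtain ⟨S, Sp, r, hs⟩ := setup_exists hE hD hM hA hmin hnt
    exact (setup_false hE hD hs).elim
  · rw [Set.not_nontrivial_iff] at hnt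
    obtain ⟨x, hx⟩ := hM.2.nonempty
    have : M = {x} := hnt.eq_singleton_of_mem hx
    exact locConn_of_ample hom x (this ▸ hA)

theorem exists_pair [CompactSpace X] [ConnectedSpace X] [LocallyConnectedSpace X] [Nontrivial X]
    (hom : ∀ x y : X, ∃ h : X ≃ₜ X, h x = y) (hD : HerDec X)
    (hunc : ¬ (univ : Set X).Countable) :
    ∃ p q : X, p ≠ q ∧ ¬ IsPreconnected ({p, q}ᶜ : Set X) := by
  by_cases hNC : NC X
  · exact (nc_false hNC hD).elim
  · unfold NC at hNC
    push Not at hNC
    obtain ⟨V, hV, hVc, x, hx, hxV⟩ := hNC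
    obtain ⟨W, d, d', T, hW, hWc, hd, hd', hT, h⟩ := exists_inf (X := X) hunc (fun p => by
      obtain ⟨h, hxp⟩ := hom x p
      refine ⟨h '' V, h.isOpenMap _ hV, hVc.image _ h.continuous.continuousOn, ⟨x, hx, hxp⟩, ?_⟩
      intro hcon
      apply hxV
      have e : V \ {x} = h.symm '' (h '' V \ {p}) := by
        rw [Set.image_sdiff h.symm.injective, ← Set.image_comp]
        simp [← hxp]
      rw [e]
      exact hcon.image _ h.symm.continuous.continuousOn)
    exact sep_of_inf hW hWc d d' hd hd' T hT h

end Pool.Agent.Helper499.HD
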