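import Pool.Agent.Helper531.Main
import Pool.Agent.Helper499.HC.E02
import Pool.Agent.Helper499.HD.Main

set_option autoImplicit false

namespace Pool.Agent.Helper499.HD

open Set

/-- every nondegenerate homogeneous hereditarily decomposable continuum is a circle -/
theorem circle_of_homog {X : Type} [MetricSpace X] [CompactSpace X] [ConnectedSpace X]
    [Nontrivial X] (hom : ∀ x y : X, ∃ h : X ≃ₜ X, h x = y) (hD : HerDec X) :
    Nonempty (X ≃ₜ Circle) := by
  have hE : Eff X := by
    intro ε hε
    obtain ⟨δ, hδ, h⟩ := Pool.Agent.Helper499.HC.effros hom ε hε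
    refine ⟨δ, hδ, fun x y hxy => ?_⟩
    obtain ⟨k, hk, hk2⟩ := h x y hxy
    exact ⟨k, fun z => by rw [dist_comm]; exact hk2 z, hk⟩
  haveI := locConn hom hE hD
  obtain ⟨p, q, hpq, hsep⟩ := exists_pair hom hD
    Pool.Agent.Helper531.Gordh.uncountable_of_preconnected
  exact Pool.Agent.Helper531.Gordh.homogeneous_pair hom hpq hsep

end Pool.Agent.Helper499.HD
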